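import Pool.Agent.SGN.Mono

/-!
# Signed sumsets: averaging over boxes
-/

set_option autoImplicit false

namespace Pool.Agent.SGN

open Finset

/-- the support -/
def supp {k : ℕ} (δ : Fin k → ℤ) : Finset (Fin k) := univ.filter fun i => δ i ≠ 0

theorem mem_supp {k : ℕ} {δ : Fin k → ℤ} {i : Fin k} : i ∈ supp δ ↔ δ i ≠ 0 := by
  unfold supp
  rw [mem_filter]
  exact ⟨fun h => h.2, fun h => ⟨mem_univ _, h⟩⟩

theorem box_pos {c : ℕ} {x : ℤ} {s : ℕ} (hx : (c : ℤ) ∣ x) (hs : s < c) (h : 0 < x) :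
    x - x.sign * s = x - s ∧ 0 < x - s := by
  rw [Int.sign_eq_one_of_pos h, one_mul]
  have := Int.le_of_dvd h hx
  exact ⟨rfl, by omega⟩

theorem box_neg {c : ℕ} {x : ℤ} {s : ℕ} (hx : (c : ℤ) ∣ x) (hs : s < c) (h : x < 0) :
    x - x.sign * s = x + s ∧ x + s < 0 := by
  rw [Int.sign_eq_neg_one_of_neg h]
  have := Int.le_of_dvd (by omega) ((dvd_neg).2 hx)
  exact ⟨by ring, by omega⟩

theorem box_btw {c : ℕ} {x : ℤ} {s : ℕ} (hx : (c : ℤ) ∣ x) (hs : s < c) (h0 : x = 0 → s = 0) :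
    btw (x - x.sign * s) x := by
  rcases lt_trichotomy x 0 with h | h | h
  · obtain ⟨h1, h2⟩ := box_neg hx hs h
    rw [h1]
    right
    omega
  · rw [h0 h, h]
    left
    simp
  · obtain ⟨h1, h2⟩ := box_pos hx hs h
    rw [h1]
    left
    omega

theorem box_inj {c : ℕ} {x y : ℤ} {s t : ℕ} (hx : (c : ℤ) ∣ x) (hy : (c : ℤ) ∣ y)
    (hs : s < c) (ht : t < c) (hs0 : x = 0 → s = 0) (ht0 : y = 0 → t = 0)
    (h : x - x.sign * s = y - y.sign * t) : x = y ∧ s = t := by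
  have hd : (c : ℤ) ∣ x - y := dvd_sub hx hy
  rcases lt_trichotomy x 0 with h1 | h1 | h1
  · obtain ⟨e1, e2⟩ := box_neg hx hs h1
    rcases lt_trichotomy y 0 with h3 | h3 | h3
    · obtain ⟨e3, e4⟩ := box_neg hy ht h3
      rw [e1, e3] at h
      have h4 := Int.eq_zero_of_abs_lt_dvd hd (by rw [abs_lt]; omega)
      omega
    · rw [e1, h3, ht0 h3] at h
      simp at h
      omega
    · obtain ⟨e3, e4⟩ := box_pos hy ht h3
      omega
  · rw [h1, hs0 h1] at h
    rcases lt_trichotomy y 0 with h3 | h3 | h3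
    · obtain ⟨e3, e4⟩ := box_neg hy ht h3
      rw [e3] at h
      simp at h
      omega
    · exact ⟨by omega, by rw [hs0 h1, ht0 h3]⟩
    · obtain ⟨e3, e4⟩ := box_pos hy ht h3
      rw [e3] at h
      simp at h
      omega
  · obtain ⟨e1, e2⟩ := box_pos hx hs h1
    rcases lt_trichotomy y 0 with h3 | h3 | h3
    · obtain ⟨e3, e4⟩ := box_neg hy ht h3
      omega
    · rw [e1, h3, ht0 h3] at h
      simp at h
      omega
    · obtain ⟨e3, e4⟩ := box_pos hy ht h3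
      rw [e1, e3] at h
      have h4 := Int.eq_zero_of_abs_lt_dvd hd (by rw [abs_lt]; omega)
      omega

/-- the vectors of the ball of radius `2h`, divisible by `c`, with at least three nonzero entries -/
noncomputable def dl (k h c : ℕ) : Finset (Fin k → ℤ) :=
  (ball k (2 * h)).filter fun δ => 3 ≤ (supp δ).card ∧ ∀ i, (c : ℤ) ∣ δ i

theorem box {k h c : ℕ} (hc : 1 ≤ c) : c ^ 3 * ∑ δ ∈ dl k h c, rr k h δ ≤ (ball k h).card ^ 2 := by
  classical
  -- the three coordinates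
  have hT : ∀ δ : Fin k → ℤ, ∃ T : Finset (Fin k), δ ∈ dl k h c → T ⊆ supp δ ∧ T.card = 3 := by
    intro δ
    by_cases hδ : δ ∈ dl k h c
    · obtain ⟨T, h1, h2⟩ := exists_subset_card_eq (mem_filter.1 hδ).2.1
      exact ⟨T, fun _ => ⟨h1, h2⟩⟩
    · exact ⟨∅, fun h => absurd h hδ⟩
  choose T hT using hT
  set P : (Fin k → ℤ) → Finset (Fin k → ℕ) := fun δ =>
    Fintype.piFinset fun i => if i ∈ T δ then range c else {0} with hP
  have hPcard : ∀ δ ∈ dl k h c, (P δ).card = c ^ 3 := by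
    intro δ hδ
    rw [hP]
    simp only
    rw [Fintype.card_piFinset, ← prod_filter_mul_prod_filter_not univ (fun i => i ∈ T δ)]
    rw [prod_congr rfl (g := fun _ => c), prod_const, filter_mem_eq_inter, univ_inter,
      (hT δ hδ).2, prod_congr rfl (g := fun _ => 1), prod_const_one, mul_one]
    · intro i hi
      rw [if_neg (mem_filter.1 hi).2, card_singleton]
    · intro i hi
      rw [if_pos (mem_filter.1 hi).2, card_range]
  have hPs : ∀ δ ∈ dl k h c, ∀ s ∈ P δ, ∀ i, s i < c ∧ (δ i = 0 → s i = 0) := by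
    intro δ hδ s hs i
    rw [hP, Fintype.mem_piFinset] at hs
    have h1 := hs i
    by_cases h2 : i ∈ T δ
    · rw [if_pos h2, mem_range] at h1
      exact ⟨h1, fun h3 => absurd h3 (mem_supp.1 ((hT δ hδ).1 h2))⟩
    · rw [if_neg h2, mem_singleton] at h1
      exact ⟨by omega, fun _ => h1⟩
  have hdv : ∀ δ ∈ dl k h c, ∀ i, (c : ℤ) ∣ δ i := fun δ hδ => (mem_filter.1 hδ).2.2
  set g : (Σ _ : Fin k → ℤ, Fin k → ℕ) → (Fin k → ℤ) := fun p i => p.1 i - (p.1 i).sign * (p.2 i : ℕ)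
    with hg
  have hinj : Set.InjOn g ((dl k h c).sigma P : Set (Σ _ : Fin k → ℤ, Fin k → ℕ)) := by
    rintro ⟨δ, s⟩ h1 ⟨ε, t⟩ h2 h3
    rw [mem_coe, mem_sigma] at h1 h2
    simp only at h1 h2
    have h4 : ∀ i, δ i = ε i ∧ s i = t i := by
      intro i
      obtain ⟨a1, a2⟩ := hPs δ h1.1 s h1.2 i
      obtain ⟨b1, b2⟩ := hPs ε h2.1 t h2.2 i
      exact box_inj (hdv δ h1.1 i) (hdv ε h2.1 i) a1 b1 a2 b2 (congrFun h3 i)
    have h5 : δ = ε := funext fun i => (h4 i).1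
    have h6 : s = t := funext fun i => (h4 i).2
    rw [h5, h6]
  have hle : ∀ p ∈ (dl k h c).sigma P, rr k h p.1 ≤ rr k h (g p) := by
    rintro ⟨δ, s⟩ h1
    rw [mem_sigma] at h1
    simp only at h1
    refine rr_mono _ _ fun i => ?_
    obtain ⟨a1, a2⟩ := hPs δ h1.1 s h1.2 i
    exact box_btw (hdv δ h1.1 i) a1 a2
  have hmem : ((dl k h c).sigma P).image g ⊆ ball k (2 * h) := by
    intro x hx
    rw [mem_image] at hx
    obtain ⟨⟨δ, s⟩, h1, rfl⟩ := hx
    rw [mem_sigma] at h1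
    simp only at h1
    have h2 : δ ∈ ball k (2 * h) := (mem_filter.1 h1.1).1
    rw [mem_ball] at h2 ⊢
    refine le_trans ?_ h2
    unfold l1
    refine sum_le_sum fun i _ => ?_
    obtain ⟨a1, a2⟩ := hPs δ h1.1 s h1.2 i
    rcases box_btw (hdv δ h1.1 i) a1 a2 with h3 | h3
    · show (δ i - (δ i).sign * (s i : ℕ)).natAbs ≤ _
      omega
    · show (δ i - (δ i).sign * (s i : ℕ)).natAbs ≤ _
      omega
  calc c ^ 3 * ∑ δ ∈ dl k h c, rr k h δ = ∑ δ ∈ dl k h c, ∑ _s ∈ P δ, rr k h δ := by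
        rw [mul_sum]
        refine sum_congr rfl fun δ hδ => ?_
        rw [sum_const, hPcard δ hδ, smul_eq_mul]
    _ = ∑ p ∈ (dl k h c).sigma P, rr k h p.1 := by rw [sum_sigma]
    _ ≤ ∑ p ∈ (dl k h c).sigma P, rr k h (g p) := sum_le_sum hle
    _ = ∑ x ∈ ((dl k h c).sigma P).image g, rr k h x := (sum_image hinj).symm
    _ ≤ ∑ x ∈ ball k (2 * h), rr k h x := sum_le_sum_of_subset hmem
    _ = _ := sum_rr

end Pool.Agent.SGN
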