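import Pool.Agent.SGN.Defs

/-!
# Counting the lattice points of the l1-ball and of the l1-sphere
-/

set_option autoImplicit false

namespace Pool.Agent.SGN

open Finset

theorem card_ball_succ' (k h : ℕ) :
    (ball (k + 1) h).card = ∑ x ∈ Icc (-(h : ℤ)) h, (ball k (h - x.natAbs)).card := by
  rw [card_eq_sum_card_fiberwise (f := fun v : Fin (k + 1) → ℤ => v 0) (t := Icc (-(h : ℤ)) h)]
  · refine sum_congr rfl fun x hx => ?_
    rw [mem_Icc] at hx
    refine card_bij (fun v _ => Fin.tail v) ?_ ?_ ?_
    · intro v hv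
      rw [mem_filter, mem_ball, l1_tail] at hv
      rw [mem_ball]
      have := hv.2
      have h2 := hv.1
      rw [this] at h2
      omega
    · intro v hv w hw hvw
      rw [mem_filter] at hv hw
      rw [← Fin.cons_self_tail v, ← Fin.cons_self_tail w, hv.2, hw.2, hvw]
    · intro v hv
      rw [mem_ball] at hv
      refine ⟨Fin.cons x v, ?_, Fin.tail_cons _ _⟩
      rw [mem_filter, mem_ball, l1_cons]
      refine ⟨?_, Fin.cons_zero _ _⟩
      omega
  · intro v hv
    have hv' : v ∈ ball (k + 1) h := hv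
    rw [mem_ball] at hv'
    have := natAbs_le_l1 v 0
    have h2 : -(h : ℤ) ≤ v 0 ∧ v 0 ≤ h := by omega
    rw [coe_Icc]
    exact h2

theorem sum_natAbs (G : ℕ → ℕ) (h : ℕ) :
    ∑ x ∈ Icc (-(h : ℤ)) h, G x.natAbs = G 0 + 2 * ∑ t ∈ range h, G (t + 1) := by
  induction h with
  | zero => simp
  | succ h ih =>
    have h1 : Icc (-((h + 1 : ℕ) : ℤ)) ((h + 1 : ℕ) : ℤ) =
        insert (-((h + 1 : ℕ) : ℤ)) (insert ((h + 1 : ℕ) : ℤ) (Icc (-(h : ℤ)) h)) := by
      ext x
      rw [mem_Icc, mem_insert, mem_insert, mem_Icc]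
      push_cast
      omega
    rw [h1, sum_insert, sum_insert, ih, sum_range_succ]
    · have h2 : (-((h + 1 : ℕ) : ℤ)).natAbs = h + 1 := by omega
      have h3 : (((h + 1 : ℕ) : ℤ)).natAbs = h + 1 := by omega
      rw [h2, h3]
      ring
    · rw [mem_Icc]
      push_cast
      omega
    · rw [mem_insert, mem_Icc]
      push_cast
      omega

theorem card_ball_succ (k h : ℕ) :
    (ball (k + 1) h).card = (ball k h).card + 2 * ∑ t ∈ range h, (ball k t).card := by
  rw [card_ball_succ', sum_natAbs (fun t => (ball k (h - t)).card)]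
  rw [Nat.sub_zero]
  congr 2
  rw [← sum_range_reflect (fun t => (ball k t).card) h]
  refine sum_congr rfl fun t ht => ?_
  rw [Nat.sub_sub, add_comm 1 t]

theorem sum_choose (h i : ℕ) : ∑ t ∈ range h, t.choose i = h.choose (i + 1) := by
  induction h with
  | zero => simp
  | succ h ih => rw [sum_range_succ, ih, Nat.choose_succ_succ, add_comm]

theorem card_ball (k h : ℕ) :
    (ball k h).card = ∑ i ∈ range (k + 1), k.choose i * h.choose i * 2 ^ i := by
  induction k generalizing h with
  | zero =>
    have h1 : ball 0 h = {0} := by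
      ext v
      rw [mem_ball, mem_singleton]
      refine ⟨fun _ => Subsingleton.elim _ _, fun h => ?_⟩
      rw [h, l1_zero]
      exact Nat.zero_le _
    rw [h1]
    simp
  | succ k ih =>
    rw [card_ball_succ, ih]
    rw [sum_congr rfl fun t _ => ih t, sum_comm]
    have h1 : ∀ i ∈ range (k + 1), ∑ t ∈ range h, k.choose i * t.choose i * 2 ^ i =
        k.choose i * h.choose (i + 1) * 2 ^ i := by
      intro i _
      rw [← sum_choose, mul_sum, sum_mul]
    rw [sum_congr rfl h1]
    rw [sum_range_succ' (fun i => (k + 1).choose i * h.choose i * 2 ^ i) (k + 1)]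
    have h2 : ∑ i ∈ range (k + 1), k.choose i * h.choose i * 2 ^ i =
        1 + ∑ i ∈ range (k + 1), k.choose (i + 1) * h.choose (i + 1) * 2 ^ (i + 1) := by
      rw [sum_range_succ' _ k, sum_range_succ _ k, Nat.choose_succ_self]
      simp [add_comm]
    rw [h2, Nat.choose_zero_right, Nat.choose_zero_right, pow_zero, mul_one, mul_one, mul_sum,
      add_assoc, ← sum_add_distrib, add_comm]
    congr 1
    refine sum_congr rfl fun i _ => ?_
    rw [Nat.choose_succ_succ k i, pow_succ]
    ring

theorem card_ball_eq_add (m h : ℕ) :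
    (ball m (h + 1)).card = (ball m h).card + (sph m (h + 1)).card := by
  rw [← card_union_of_disjoint]
  · congr 1
    ext v
    rw [mem_union, mem_ball, mem_ball, mem_sph]
    omega
  · rw [disjoint_left]
    intro v hv hw
    rw [mem_ball] at hv
    rw [mem_sph] at hw
    omega

theorem sum_Icc_aux (m g : ℕ) : ∑ i ∈ range m, m.choose (i + 1) * g.choose i * 2 ^ (i + 1) =
    ∑ i ∈ Icc 1 m, m.choose i * (g + 1 - 1).choose (i - 1) * 2 ^ i := by
  have h1 : Icc 1 m = (range m).image fun i => i + 1 := by
    ext i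
    rw [mem_image, mem_Icc]
    constructor
    · intro hi
      exact ⟨i - 1, by rw [mem_range]; omega, by omega⟩
    · rintro ⟨j, hj, rfl⟩
      rw [mem_range] at hj
      omega
  rw [h1, sum_image fun i _ j _ h => Nat.succ_injective h]
  rfl

theorem card_sph {m h : ℕ} (hh : 1 ≤ h) : (sph m h).card = cc h m := by
  obtain ⟨g, rfl⟩ : ∃ g, h = g + 1 := ⟨h - 1, by omega⟩
  have h1 := card_ball_eq_add m g
  have h2 : (ball m (g + 1)).card = (ball m g).card + cc (g + 1) m := by
    rw [card_ball, card_ball, sum_range_succ' _ m, sum_range_succ' _ m]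
    unfold cc
    rw [add_right_comm, Nat.choose_zero_right, Nat.choose_zero_right, Nat.choose_zero_right]
    congr 1
    rw [← sum_Icc_aux m g]
    rw [← sum_add_distrib]
    refine sum_congr rfl fun i _ => ?_
    rw [Nat.choose_succ_succ g i]
    ring
  omega

theorem card_ball_ge {k : ℕ} (hk : 3 ≤ k) (h : ℕ) :
    1 + 2 * k * h + 4 * k.choose 2 * h.choose 2 + 8 * k.choose 3 * h.choose 3 ≤
      (ball k h).card := by
  rw [card_ball]
  have h1 : range 4 ⊆ range (k + 1) := range_subset_range.2 (by omega)
  refine le_trans ?_ (sum_le_sum_of_subset h1)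
  rw [sum_range_succ, sum_range_succ, sum_range_succ, sum_range_succ, sum_range_zero,
    Nat.choose_zero_right, Nat.choose_zero_right, Nat.choose_one_right, Nat.choose_one_right]
  apply le_of_eq
  ring

end Pool.Agent.SGN
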