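import Pool.Agent.SGN.Final

/-!
# Signed sumsets: coincidences forced on the sphere
-/

set_option autoImplicit false

namespace Pool.Agent.SGN

open Finset

open scoped Classical in
/-- the points of the sphere that share their value with another point of the sphere -/
noncomputable def part {m n : ℕ} (h : ℕ) (a : Fin m → ZMod n) : Finset (Fin m → ℤ) :=
  (sph m h).filter fun s => ∃ s' ∈ sph m h, s' ≠ s ∧ ev a s' = ev a s

theorem mem_part {m n h : ℕ} {a : Fin m → ZMod n} {s : Fin m → ℤ} :
    s ∈ part h a ↔ s ∈ sph m h ∧ ∃ s' ∈ sph m h, s' ≠ s ∧ ev a s' = ev a s := by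
  unfold part
  rw [mem_filter]

theorem image_part {m n : ℕ} (h : ℕ) (a : Fin m → ZMod n) :
    2 * ((sph m h).image (ev a)).card + (part h a).card ≤ 2 * (sph m h).card := by
  classical
  have hsub : part h a ⊆ sph m h := fun s hs => (mem_part.1 hs).1
  have h1 : (sph m h).image (ev a) ⊆ (part h a).image (ev a) ∪ (sph m h \ part h a).image (ev a) := by
    rw [← image_union, union_sdiff_of_subset hsub]
  have h2 := (card_le_card h1).trans (card_union_le _ _)
  have h3 : 2 * ((part h a).image (ev a)).card ≤ (part h a).card := by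
    refine mul_card_image_le_card _ 2 ?_
    intro y hy
    obtain ⟨s, hs, rfl⟩ := mem_image.1 hy
    obtain ⟨h4, s', h5, h6, h7⟩ := mem_part.1 hs
    have h8 : s' ∈ part h a := mem_part.2 ⟨h5, s, h4, h6.symm, h7.symm⟩
    have h9 : ({s, s'} : Finset (Fin m → ℤ)) ⊆ (part h a).filter (fun x => ev a x = ev a s) := by
      intro x hx
      rw [mem_insert, mem_singleton] at hx
      rcases hx with rfl | rfl
      · exact mem_filter.2 ⟨hs, rfl⟩
      · exact mem_filter.2 ⟨h8, h7⟩
    have h10 := card_le_card h9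
    rwa [card_pair h6.symm] at h10
  have h4 : ((sph m h \ part h a).image (ev a)).card ≤ (sph m h \ part h a).card := card_image_le
  have h5 : (sph m h \ part h a).card + (part h a).card = (sph m h).card :=
    card_sdiff_add_card_eq_card hsub
  omega

/-- the vector `ε_j (b_j + w_j)` -/
def orth {m : ℕ} (ε : Fin m → ℤ) (b w : Fin m → ℕ) : Fin m → ℤ :=
  fun j => ε j * ((b j + w j : ℕ) : ℤ)

theorem natAbs_sgn {e : ℤ} (he : e = 1 ∨ e = -1) (x : ℤ) : (e * x).natAbs = x.natAbs := by
  rcases he with rfl | rfl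
  · rw [one_mul]
  · rw [neg_one_mul, Int.natAbs_neg]

theorem sgn_sq {e : ℤ} (he : e = 1 ∨ e = -1) : e * e = 1 := by
  rcases he with rfl | rfl <;> rfl

theorem l1_orth {m : ℕ} {ε : Fin m → ℤ} (hε : ∀ j, ε j = 1 ∨ ε j = -1) (b w : Fin m → ℕ) :
    l1 (orth ε b w) = ∑ j, b j + ∑ j, w j := by
  unfold l1 orth
  rw [← sum_add_distrib]
  refine sum_congr rfl fun j _ => ?_
  rw [natAbs_sgn (hε j), Int.natAbs_natCast]

/-- many points with prescribed slack -/
theorem count {m : ℕ} {ε : Fin m → ℤ} (hε : ∀ j, ε j = 1 ∨ ε j = -1) (b : Fin m → ℕ)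
    (F : Finset (Fin m)) (j0 : Fin m) (hj0 : j0 ∉ F) (H q : ℕ) (hq : F.card * q ≤ H) :
    ∃ E : Finset (Fin m → ℤ), (q + 1) ^ F.card ≤ E.card ∧ ∀ s ∈ E, ∃ w : Fin m → ℕ,
      s = orth ε b w ∧ (∀ j, j ∉ F → j ≠ j0 → w j = 0) ∧ ∑ j, w j = H := by
  classical
  set W : Finset (Fin m → ℕ) := Fintype.piFinset fun j => if j ∈ F then range (q + 1) else {0}
    with hW
  have hWmem : ∀ w ∈ W, (∀ j, j ∉ F → w j = 0) ∧ ∀ j ∈ F, w j ≤ q := by
    intro w hw
    rw [hW, Fintype.mem_piFinset] at hw
    refine ⟨fun j hj => ?_, fun j hj => ?_⟩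
    · have := hw j
      rw [if_neg hj, mem_singleton] at this
      exact this
    · have := hw j
      rw [if_pos hj, mem_range] at this
      omega
  have hWsum : ∀ w ∈ W, ∑ j, w j ≤ H := by
    intro w hw
    obtain ⟨h1, h2⟩ := hWmem w hw
    have h3 : ∑ j, w j = ∑ j ∈ F, w j := by
      symm
      exact sum_subset (subset_univ F) fun j _ hj => h1 j hj
    rw [h3]
    exact (sum_le_card_nsmul _ _ _ h2).trans (by rw [smul_eq_mul]; exact hq)
  have hcard : W.card = (q + 1) ^ F.card := by
    rw [hW, Fintype.card_piFinset]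
    have h1 : ∀ j : Fin m, (if j ∈ F then range (q + 1) else ({0} : Finset ℕ)).card =
        if j ∈ F then q + 1 else 1 := by
      intro j
      split_ifs
      · exact card_range _
      · rfl
    rw [prod_congr rfl fun j _ => h1 j, prod_ite_mem, univ_inter, prod_const]
  have hinj : Set.InjOn (fun w : Fin m → ℕ => orth ε b (Function.update w j0 (H - ∑ j, w j))) W := by
    intro w hw w' hw' hww
    obtain ⟨h1, _⟩ := hWmem w hw
    obtain ⟨h1', _⟩ := hWmem w' hw'
    funext j
    by_cases hj : j = j0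
    · rw [hj, h1 j0 hj0, h1' j0 hj0]
    · have h2 := congrFun hww j
      simp only [orth] at h2
      have h3 := mul_left_cancel₀ (by rcases hε j with h | h <;> rw [h] <;> norm_num) h2
      rw [Function.update_of_ne hj, Function.update_of_ne hj] at h3
      have h4 : b j + w j = b j + w' j := by exact_mod_cast h3
      omega
  refine ⟨W.image fun w => orth ε b (Function.update w j0 (H - ∑ j, w j)), ?_, ?_⟩
  · rw [card_image_of_injOn hinj, hcard]
  · intro s hs
    obtain ⟨w, hw, rfl⟩ := mem_image.1 hs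
    obtain ⟨h1, _⟩ := hWmem w hw
    refine ⟨_, rfl, ?_, ?_⟩
    · intro j hj hj'
      rw [Function.update_of_ne hj']
      exact h1 j hj
    · rw [sum_update_of_mem (mem_univ j0)]
      have h2 : ∑ j ∈ univ \ {j0}, w j = ∑ j, w j := by
        refine sum_subset (subset_univ _) fun j _ hj => ?_
        have : j = j0 := by
          by_contra hne
          exact hj (mem_sdiff.2 ⟨mem_univ _, by rwa [mem_singleton]⟩)
        rw [this]
        exact h1 j0 hj0
      rw [h2]
      have := hWsum w hw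
      omega

/-- Case 1: a short vector of the kernel that is parallel to a facet. -/
theorem case1 {m n h : ℕ} (hm : 1 ≤ m) (a : Fin m → ZMod n) {ε : Fin m → ℤ}
    (hε : ∀ j, ε j = 1 ∨ ε j = -1) {δ : Fin m → ℤ} (h0 : δ ≠ 0) (hpar : ∑ j, ε j * δ j = 0)
    (hev : ev a δ = 0) (hδ : 2 * l1 δ ≤ h) :
    (h / (2 * m) + 1) ^ (m - 1) ≤ (part h a).card := by
  classical
  set j0 : Fin m := ⟨0, by omega⟩ with hj0
  have hF : (univ.erase j0).card = m - 1 := by
    rw [card_erase_of_mem (mem_univ _), card_univ, Fintype.card_fin]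
  have hq : (univ.erase j0).card * (h / (2 * m)) ≤ h - l1 δ := by
    rw [hF]
    have h1 : 2 * m * (h / (2 * m)) ≤ h := Nat.mul_div_le h (2 * m)
    have h2 : (m - 1) * (h / (2 * m)) ≤ m * (h / (2 * m)) := Nat.mul_le_mul_right _ (by omega)
    have h3 : 2 * (m * (h / (2 * m))) ≤ h := by
      calc 2 * (m * (h / (2 * m))) = 2 * m * (h / (2 * m)) := by ring
        _ ≤ h := h1
    omega
  obtain ⟨E, hE1, hE2⟩ := count hε (fun j => (δ j).natAbs) (univ.erase j0) j0
    (notMem_erase _ _) (h - l1 δ) (h / (2 * m)) hq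
  rw [hF] at hE1
  refine hE1.trans (card_le_card fun s hs => ?_)
  obtain ⟨w, rfl, _, hw⟩ := hE2 s hs
  have e1 : l1 (orth ε (fun j => (δ j).natAbs) w) = h := by
    rw [l1_orth hε, hw]
    change l1 δ + (h - l1 δ) = h
    omega
  have e2 : l1 (orth ε (fun j => (δ j).natAbs) w + δ) = h := by
    have h1 : ((l1 (orth ε (fun j => (δ j).natAbs) w + δ) : ℕ) : ℤ) = h := by
      unfold l1
      push_cast
      have h2 : ∀ j, |(orth ε (fun j => (δ j).natAbs) w + δ) j| =
          ((δ j).natAbs : ℤ) + w j + ε j * δ j := by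
        intro j
        have h3 : (orth ε (fun j => (δ j).natAbs) w + δ) j =
            ε j * (((δ j).natAbs : ℤ) + w j + ε j * δ j) := by
          rw [Pi.add_apply]
          unfold orth
          push_cast
          have := sgn_sq (hε j)
          linear_combination (-δ j) * this
        have h4 : 0 ≤ ((δ j).natAbs : ℤ) + w j + ε j * δ j := by
          have h5 : |ε j * δ j| = |δ j| := by
            rcases hε j with h | h <;> rw [h] <;> simp
          have h6 := neg_abs_le (ε j * δ j)
          rw [h5] at h6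
          have h7 : ((δ j).natAbs : ℤ) = |δ j| := Int.natCast_natAbs _
          omega
        rw [h3, abs_mul]
        have h5 : |ε j| = 1 := by rcases hε j with h | h <;> rw [h] <;> simp
        rw [h5, one_mul, abs_of_nonneg h4]
      rw [sum_congr rfl fun j _ => h2 j, sum_add_distrib, sum_add_distrib, hpar, add_zero]
      rw [l1_orth hε] at e1
      exact_mod_cast e1
    exact_mod_cast h1
  refine mem_part.2 ⟨mem_sph.2 e1, _, mem_sph.2 e2, ?_, ?_⟩
  · intro h1
    exact h0 (by simpa using h1)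
  · have h1 := ev_sub a (orth ε (fun j => (δ j).natAbs) w + δ) δ
    rw [add_sub_cancel_right, hev, sub_zero] at h1
    exact h1.symm

/-- signs that balance a sum -/
theorem signs {m : ℕ} (δ : Fin m → ℤ) (M : ℤ) (F : Finset (Fin m)) (hM : 0 ≤ M)
    (hF : ∀ j ∈ F, |δ j| ≤ M) :
    ∃ ε : Fin m → ℤ, (∀ j, ε j = 1 ∨ ε j = -1) ∧ |∑ j ∈ F, ε j * δ j| ≤ M := by
  classical
  induction F using Finset.induction_on with
  | empty => exact ⟨fun _ => 1, fun _ => Or.inl rfl, by simpa using hM⟩
  | insert i F hi ih =>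
    obtain ⟨ε, hε, hs⟩ := ih fun j hj => hF j (mem_insert_of_mem hj)
    have hb := hF i (mem_insert_self _ _)
    obtain ⟨e, he, hs'⟩ : ∃ e : ℤ, (e = 1 ∨ e = -1) ∧ |e * δ i + ∑ j ∈ F, ε j * δ j| ≤ M := by
      set x := ∑ j ∈ F, ε j * δ j
      rw [abs_le] at hs hb
      rcases le_total 0 x with hx | hx <;> rcases le_total 0 (δ i) with hd | hd
      · exact ⟨-1, Or.inr rfl, by rw [abs_le]; constructor <;> linarith [hs.1, hs.2, hb.1, hb.2]⟩
      · exact ⟨1, Or.inl rfl, by rw [abs_le]; constructor <;> linarith [hs.1, hs.2, hb.1, hb.2]⟩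
      · exact ⟨1, Or.inl rfl, by rw [abs_le]; constructor <;> linarith [hs.1, hs.2, hb.1, hb.2]⟩
      · exact ⟨-1, Or.inr rfl, by rw [abs_le]; constructor <;> linarith [hs.1, hs.2, hb.1, hb.2]⟩
    refine ⟨Function.update ε i e, ?_, ?_⟩
    · intro j
      by_cases hj : j = i
      · rw [hj, Function.update_self]; exact he
      · rw [Function.update_of_ne hj]; exact hε j
    · rw [sum_insert hi, Function.update_self]
      rw [sum_congr rfl (g := fun j => ε j * δ j) fun j hj => by
        rw [Function.update_of_ne (show j ≠ i from fun h => hi (h ▸ hj))]]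
      exact hs'

/-- the type of a vector -/
theorem exists_type {m : ℕ} {δ : Fin m → ℤ} (h0 : δ ≠ 0) :
    ∃ (i : Fin m) (ε : Fin m → ℤ), (∀ j, ε j = 1 ∨ ε j = -1) ∧ ε i * δ i < 0 ∧
      |∑ j ∈ univ.erase i, ε j * δ j| ≤ |δ i| := by
  classical
  obtain ⟨k, hk⟩ : ∃ k, δ k ≠ 0 := by
    by_contra hc
    push Not at hc
    exact h0 (funext hc)
  obtain ⟨i, _, hi⟩ := exists_max_image univ (fun j => |δ j|) ⟨k, mem_univ k⟩
  have hi0 : δ i ≠ 0 := by
    intro h
    have := hi k (mem_univ k)
    rw [h, abs_zero] at this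
    exact hk (abs_nonpos_iff.1 this)
  obtain ⟨ε, hε, hs⟩ := signs δ |δ i| (univ.erase i) (abs_nonneg _) fun j _ => hi j (mem_univ j)
  obtain ⟨e, he, he'⟩ : ∃ e : ℤ, (e = 1 ∨ e = -1) ∧ e * δ i < 0 := by
    rcases lt_or_gt_of_ne hi0 with h | h
    · exact ⟨1, Or.inl rfl, by linarith⟩
    · exact ⟨-1, Or.inr rfl, by linarith⟩
  refine ⟨i, Function.update ε i e, ?_, ?_, ?_⟩
  · intro j
    by_cases hj : j = i
    · rw [hj, Function.update_self]; exact he
    · rw [Function.update_of_ne hj]; exact hε j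
  · rw [Function.update_self]; exact he'
  · rw [sum_congr rfl (g := fun j => ε j * δ j) fun j hj => by
      rw [Function.update_of_ne (ne_of_mem_erase hj)]]
    exact hs

/-- Case 2: the points of one hyperplane section of a facet. -/
theorem case2 {m n h : ℕ} (hm : 2 ≤ m) (a : Fin m → ZMod n) {ε : Fin m → ℤ} {i : Fin m}
    (hε : ∀ j, ε j = 1 ∨ ε j = -1) {δ : Fin m → ℤ} (hi : ε i * δ i < 0)
    (hQ : |∑ j ∈ univ.erase i, ε j * δ j| ≤ |δ i|) (hpar : (2 : ℤ) ∣ ∑ j, ε j * δ j)
    (hev : ev a δ = 0) (hδ : 2 * l1 δ ≤ h) :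
    ∃ E : Finset (Fin m → ℤ), (h / (2 * m) + 1) ^ (m - 2) ≤ E.card ∧ E ⊆ part h a ∧
      ∀ s ∈ E, 2 * s i = ε i * ∑ j, ε j * δ j := by
  classical
  have hδi : |δ i| = -(ε i * δ i) := by
    rw [← abs_of_neg hi, abs_mul]
    have h5 : |ε i| = 1 := by rcases hε i with h | h <;> rw [h] <;> simp
    rw [h5, one_mul]
  set Q : ℤ := ∑ j ∈ univ.erase i, ε j * δ j with hQd
  have hsum : ∑ j, ε j * δ j = Q - |δ i| := by
    rw [hQd, hδi, ← add_sum_erase univ (fun j => ε j * δ j) (mem_univ i)]
    ring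
  obtain ⟨u', hu'⟩ := hpar
  have hu0 : 0 ≤ -u' := by
    have := (abs_le.1 hQ).2
    omega
  obtain ⟨u, hu⟩ := Int.eq_ofNat_of_zero_le hu0
  have hu1 : 2 * (u : ℤ) = |δ i| - Q := by omega
  have hu2 : (u : ℤ) ≤ |δ i| := by
    have := (abs_le.1 hQ).1
    omega
  -- another coordinate
  obtain ⟨j0, hj0⟩ : ∃ j0 : Fin m, j0 ≠ i := by
    by_cases h : i = ⟨0, by omega⟩
    · exact ⟨⟨1, by omega⟩, by rw [h]; intro h'; exact absurd (congrArg Fin.val h') (by simp)⟩
    · exact ⟨⟨0, by omega⟩, fun h' => h h'.symm⟩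
  set F : Finset (Fin m) := (univ.erase i).erase j0 with hFd
  have hF : F.card = m - 2 := by
    rw [hFd, card_erase_of_mem (mem_erase.2 ⟨hj0, mem_univ _⟩), card_erase_of_mem (mem_univ _),
      card_univ, Fintype.card_fin]
    omega
  set b : Fin m → ℕ := fun j => if j = i then u else (ε j * δ j).toNat with hb
  set η : Fin m → ℤ := fun j => if j = i then -ε i else ε j with hη
  have hηs : ∀ j, η j = 1 ∨ η j = -1 := by
    intro j
    by_cases hj : j = i
    · rw [hη]; simp only [hj, if_true]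
      rcases hε i with h | h <;> rw [h] <;> simp
    · rw [hη]; simp only [hj, if_false]; exact hε j
  have habs : ∀ j, |ε j * δ j| = ((δ j).natAbs : ℤ) := by
    intro j
    rw [abs_mul, Int.natCast_natAbs]
    have h5 : |ε j| = 1 := by rcases hε j with h | h <;> rw [h] <;> simp
    rw [h5, one_mul]
  have hble : ∀ j, b j ≤ (δ j).natAbs := by
    intro j
    by_cases hj : j = i
    · have h1 : b j = u := by rw [hb]; simp only [hj, if_true]
      rw [h1, hj]
      have := Int.natCast_natAbs (δ i)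
      omega
    · have h1 : b j = (ε j * δ j).toNat := by rw [hb]; simp only [hj, if_false]
      have h2 := habs j
      have h3 := le_abs_self (ε j * δ j)
      rw [h1]
      omega
  have hbsum : ∑ j, b j ≤ l1 δ := sum_le_sum fun j _ => hble j
  have hq : F.card * (h / (2 * m)) ≤ h - ∑ j, b j := by
    rw [hF]
    have h1 : 2 * m * (h / (2 * m)) ≤ h := Nat.mul_div_le h (2 * m)
    have h2 : (m - 2) * (h / (2 * m)) ≤ m * (h / (2 * m)) := Nat.mul_le_mul_right _ (by omega)
    have h3 : 2 * (m * (h / (2 * m))) ≤ h := by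
      calc 2 * (m * (h / (2 * m))) = 2 * m * (h / (2 * m)) := by ring
        _ ≤ h := h1
    omega
  obtain ⟨E, hE1, hE2⟩ := count hηs b F j0 (notMem_erase _ _) (h - ∑ j, b j) (h / (2 * m)) hq
  rw [hF] at hE1
  refine ⟨E, hE1, fun s hs => ?_, fun s hs => ?_⟩
  · obtain ⟨w, rfl, hw0, hw⟩ := hE2 s hs
    have hwi : w i = 0 := hw0 i (fun h => (mem_erase.1 (mem_erase.1 h).2).1 rfl) hj0.symm
    have e1 : l1 (orth η b w) = h := by
      rw [l1_orth hηs, hw]
      omega
    have e2 : l1 (orth η b w - δ) = h := by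
      have h1 : ((l1 (orth η b w - δ) : ℕ) : ℤ) = h := by
        unfold l1
        push_cast
        have h2 : ∀ j, j ≠ i → |(orth η b w - δ) j| = (b j : ℤ) + w j - ε j * δ j := by
          intro j hj
          have hηj : η j = ε j := by rw [hη]; simp only [hj, if_false]
          have h1 : b j = (ε j * δ j).toNat := by rw [hb]; simp only [hj, if_false]
          have h3 : (orth η b w - δ) j = ε j * ((b j : ℤ) + w j - ε j * δ j) := by
            rw [Pi.sub_apply]
            unfold orth
            rw [hηj]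
            push_cast
            have := sgn_sq (hε j)
            linear_combination (δ j) * this
          have h4 : 0 ≤ (b j : ℤ) + w j - ε j * δ j := by
            rw [h1]
            have := Int.self_le_toNat (ε j * δ j)
            omega
          rw [h3, abs_mul]
          have h5 : |ε j| = 1 := by rcases hε j with h | h <;> rw [h] <;> simp
          rw [h5, one_mul, abs_of_nonneg h4]
        have h3 : |(orth η b w - δ) i| = |δ i| - u := by
          have hηi : η i = -ε i := by rw [hη]; simp only [if_true]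
          have hbi : b i = u := by rw [hb]; simp only [if_true]
          have h4 : (orth η b w - δ) i = ε i * (|δ i| - u) := by
            rw [Pi.sub_apply]
            unfold orth
            rw [hηi, hbi, hwi, hδi]
            push_cast
            have := sgn_sq (hε i)
            linear_combination (δ i) * this
          rw [h4, abs_mul]
          have h5 : |ε i| = 1 := by rcases hε i with h | h <;> rw [h] <;> simp
          rw [h5, one_mul, abs_of_nonneg (by omega)]
        rw [← add_sum_erase univ _ (mem_univ i), h3,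
          sum_congr rfl fun j hj => h2 j (ne_of_mem_erase hj), sum_sub_distrib, sum_add_distrib,
          ← hQd]
        rw [l1_orth hηs, ← add_sum_erase univ b (mem_univ i), ← add_sum_erase univ w (mem_univ i),
          hwi] at e1
        have hbi : b i = u := by rw [hb]; simp only [if_true]
        rw [hbi] at e1
        have e1' : (u : ℤ) + ∑ j ∈ univ.erase i, (b j : ℤ) + (0 + ∑ j ∈ univ.erase i, (w j : ℤ)) = h := by
          exact_mod_cast e1
        linarith
      exact_mod_cast h1
    refine mem_part.2 ⟨mem_sph.2 e1, _, mem_sph.2 e2, ?_, ?_⟩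
    · intro h1
      have h2 : δ = 0 := by simpa using h1
      rw [h2] at hi
      simp at hi
    · rw [ev_sub, hev, sub_zero]
  · obtain ⟨w, rfl, hw0, hw⟩ := hE2 s hs
    have hwi : w i = 0 := hw0 i (fun h => (mem_erase.1 (mem_erase.1 h).2).1 rfl) hj0.symm
    have hηi : η i = -ε i := by rw [hη]; simp only [if_true]
    have hbi : b i = u := by rw [hb]; simp only [if_true]
    unfold orth
    rw [hηi, hbi, hwi, hsum]
    push_cast
    linear_combination (-ε i) * hu1

/-- The number of points of the sphere that share their value. -/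
theorem many {m n h : ℕ} (hm : 2 ≤ m) (hn : 1 ≤ n) (a : Fin m → ZMod n)
    (hc : (sph m h).card ≤ n) (hL : 4 * n ≤ (h / (2 * m) + 1) ^ m) :
    (h / (2 * m) + 1) ^ (2 * m - 2) ≤ 4 * m * 2 ^ m * n * (part h a).card := by
  classical
  have : NeZero n := ⟨by omega⟩
  set L : ℕ := h / (2 * m) + 1 with hLd
  set P := part h a with hP
  have hPn : P.card ≤ n := (card_le_card fun s hs => (mem_part.1 hs).1).trans hc
  -- pigeonhole in the box
  set X : Finset (Fin m → ℤ) := Fintype.piFinset fun _ => (range L).image fun x : ℕ => (x : ℤ)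
    with hX
  have hXcard : X.card = L ^ m := by
    rw [hX, Fintype.card_piFinset, prod_const, card_univ, Fintype.card_fin,
      card_image_of_injective _ Nat.cast_injective, card_range]
  have hXmem : ∀ x ∈ X, ∀ j, 0 ≤ x j ∧ x j ≤ (h / (2 * m) : ℕ) := by
    intro x hx j
    rw [hX, Fintype.mem_piFinset] at hx
    obtain ⟨y, hy, hy'⟩ := mem_image.1 (hx j)
    rw [mem_range] at hy
    rw [← hy']
    constructor
    · exact Int.natCast_nonneg y
    · have : y ≤ h / (2 * m) := by omega
      exact_mod_cast this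
  obtain ⟨y, _, hy⟩ := exists_le_card_fiber_of_nsmul_le_card_of_maps_to
    (s := X) (t := (univ : Finset (ZMod n × ZMod 2)))
    (f := fun x => (ev a x, ((∑ j, x j : ℤ) : ZMod 2))) (b := ((L ^ m : ℕ) : ℚ) / (2 * n))
    (fun _ _ => mem_univ _) univ_nonempty (by
      rw [hXcard, card_univ, Fintype.card_prod, ZMod.card, ZMod.card, nsmul_eq_mul]
      push_cast
      have : (n : ℚ) ≠ 0 := by exact_mod_cast (by omega : n ≠ 0)
      field_simp
      exact le_refl _)
  set Φ := X.filter fun x => (ev a x, ((∑ j, x j : ℤ) : ZMod 2)) = y with hΦ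
  have hΦ1 : L ^ m ≤ 2 * n * Φ.card := by
    have hn' : (0 : ℚ) < 2 * n := by
      have : (0 : ℚ) < n := by exact_mod_cast (by omega : 0 < n)
      linarith
    rw [div_le_iff₀ hn'] at hy
    have h1 : ((L ^ m : ℕ) : ℚ) ≤ ((2 * n * Φ.card : ℕ) : ℚ) := by
      refine hy.trans (le_of_eq ?_)
      push_cast
      ring
    exact_mod_cast h1
  have hΦ2 : 2 ≤ Φ.card := by
    by_contra hcon
    have h1 : Φ.card ≤ 1 := by omega
    have h2 : 2 * n * Φ.card ≤ 2 * n * 1 := Nat.mul_le_mul_left _ h1
    omega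
  have hdiff : ∀ x ∈ Φ, ∀ x' ∈ Φ, ev a (x - x') = 0 ∧ 2 * l1 (x - x') ≤ h ∧
      (2 : ℤ) ∣ ∑ j, (x j - x' j) := by
    intro x hx x' hx'
    rw [hΦ, mem_filter] at hx hx'
    obtain ⟨hx1, hx2⟩ := hx
    obtain ⟨hx1', hx2'⟩ := hx'
    have e1 : ev a x = ev a x' := by
      have := hx2.trans hx2'.symm
      exact congrArg Prod.fst this
    have e2 : ((∑ j, x j : ℤ) : ZMod 2) = ((∑ j, x' j : ℤ) : ZMod 2) := by
      have := hx2.trans hx2'.symm
      exact congrArg Prod.snd this
    refine ⟨?_, ?_, ?_⟩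
    · rw [ev_sub, e1, sub_self]
    · have h1 : l1 (x - x') ≤ m * (h / (2 * m)) := by
        unfold l1
        have h2 : ∀ j ∈ (univ : Finset (Fin m)), ((x - x') j).natAbs ≤ h / (2 * m) := by
          intro j _
          have h3 := hXmem x hx1 j
          have h4 := hXmem x' hx1' j
          rw [Pi.sub_apply]
          omega
        refine (sum_le_card_nsmul _ _ _ h2).trans ?_
        rw [card_univ, Fintype.card_fin, smul_eq_mul]
      have h2 : 2 * m * (h / (2 * m)) ≤ h := Nat.mul_div_le h (2 * m)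
      calc 2 * l1 (x - x') ≤ 2 * (m * (h / (2 * m))) := Nat.mul_le_mul_left _ h1
        _ = 2 * m * (h / (2 * m)) := by ring
        _ ≤ h := h2
    · have h1 := (ZMod.intCast_eq_intCast_iff_dvd_sub _ _ 2).1 e2.symm
      rw [← sum_sub_distrib] at h1
      exact_mod_cast h1
  by_cases hcase : ∃ x ∈ Φ, ∃ x' ∈ Φ, x ≠ x' ∧ ∃ ε : Fin m → ℤ, (∀ j, ε j = 1 ∨ ε j = -1) ∧
      ∑ j, ε j * (x j - x' j) = 0
  · obtain ⟨x, hx, x', hx', hne, ε, hε, hz⟩ := hcase
    obtain ⟨h1, h2, h3⟩ := hdiff x hx x' hx'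
    have h4 := case1 (by omega) a hε (δ := x - x') (sub_ne_zero.2 hne) hz h1 h2
    rw [← hLd, ← hP] at h4
    have h5 : L ^ (2 * m - 2) = L ^ (m - 1) * L ^ (m - 1) := by
      rw [← pow_add]
      congr 1
      omega
    rw [h5]
    calc L ^ (m - 1) * L ^ (m - 1) ≤ P.card * P.card := Nat.mul_le_mul h4 h4
      _ ≤ n * P.card := Nat.mul_le_mul_right _ hPn
      _ = 1 * 1 * 1 * n * P.card := by ring
      _ ≤ 4 * m * 2 ^ m * n * P.card := by
        refine Nat.mul_le_mul_right _ (Nat.mul_le_mul_right _ (Nat.mul_le_mul (Nat.mul_le_mul ?_ ?_) ?_))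
        · norm_num
        · omega
        · exact Nat.one_le_two_pow
  · push Not at hcase
    obtain ⟨x0, hx0⟩ := card_pos.1 (by omega : 0 < Φ.card)
    set D := Φ.erase x0 with hD
    have hDc : D.card = Φ.card - 1 := card_erase_of_mem hx0
    have htype : ∀ x : Fin m → ℤ, ∃ (i : Fin m) (ε : Fin m → ℤ), x ∈ D →
        (∀ j, ε j = 1 ∨ ε j = -1) ∧ ∃ E : Finset (Fin m → ℤ), L ^ (m - 2) ≤ E.card ∧ E ⊆ P ∧
          ∀ s ∈ E, 2 * s i = ε i * ∑ j, ε j * (x - x0) j := by
      intro x
      by_cases hx : x ∈ D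
      · obtain ⟨hne, hxΦ⟩ := mem_erase.1 hx
        obtain ⟨h1, h2, h3⟩ := hdiff x hxΦ x0 hx0
        obtain ⟨i, ε, hε, hi, hQ⟩ := exists_type (sub_ne_zero.2 hne)
        refine ⟨i, ε, fun _ => ⟨hε, ?_⟩⟩
        have hpar : (2 : ℤ) ∣ ∑ j, ε j * (x - x0) j := by
          have h4 : (2 : ℤ) ∣ ∑ j, (ε j * (x - x0) j - (x j - x0 j)) := by
            refine dvd_sum fun j _ => ?_
            rw [Pi.sub_apply]
            rcases hε j with h | h
            · rw [h]; simp
            · rw [h]; exact ⟨-(x j - x0 j), by ring⟩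
          rw [sum_sub_distrib] at h4
          have h5 := dvd_add h4 h3
          rwa [sub_add_cancel] at h5
        exact case2 hm a hε hi hQ hpar h1 h2
      · exact ⟨⟨0, by omega⟩, fun _ => 1, fun h => absurd h hx⟩
    choose ti te ht using htype
    have hE : ∀ x : Fin m → ℤ, ∃ E : Finset (Fin m → ℤ), x ∈ D → L ^ (m - 2) ≤ E.card ∧ E ⊆ P ∧
          ∀ s ∈ E, 2 * s (ti x) = te x (ti x) * ∑ j, te x j * (x - x0) j := by
      intro x
      by_cases hx : x ∈ D
      · obtain ⟨_, E, h1⟩ := ht x hx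
        exact ⟨E, fun _ => h1⟩
      · exact ⟨∅, fun h => absurd h hx⟩
    choose E hE using hE
    have hsig : (D.sigma E).card ≤
        (P ×ˢ ((univ : Finset (Fin m)) ×ˢ Fintype.piFinset fun _ : Fin m => ({1, -1} : Finset ℤ))).card := by
      refine card_le_card_of_injOn (fun p => (p.2, ti p.1, te p.1)) ?_ ?_
      · rintro ⟨x, s⟩ hp
        obtain ⟨hx, hs⟩ := mem_sigma.1 hp
        have h1 := (hE x hx).2.1 hs
        have h2 := (ht x hx).1
        refine mem_product.2 ⟨h1, mem_product.2 ⟨mem_univ _, ?_⟩⟩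
        rw [Fintype.mem_piFinset]
        intro j
        rw [mem_insert, mem_singleton]
        exact h2 j
      · rintro ⟨x, s⟩ hp ⟨x', s'⟩ hp' heq
        obtain ⟨hx, hs⟩ := mem_sigma.1 hp
        obtain ⟨hx', hs'⟩ := mem_sigma.1 hp'
        simp only [Prod.mk.injEq] at heq hx hs hx' hs'
        obtain ⟨h1, h2, h3⟩ := heq
        subst h1
        have e1 := (hE x hx).2.2 s hs
        have e2 := (hE x' hx').2.2 s hs'
        rw [← h2, ← h3] at e2
        have e3 := e1.symm.trans e2
        have hε := (ht x hx).1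
        have e4 := mul_left_cancel₀ (by rcases hε (ti x) with h | h <;> rw [h] <;> norm_num) e3
        have e5 : ∑ j, te x j * (x j - x' j) = 0 := by
          have h6 : ∀ j, te x j * (x j - x' j) = te x j * (x - x0) j - te x j * (x' - x0) j := by
            intro j
            rw [Pi.sub_apply, Pi.sub_apply]
            ring
          rw [sum_congr rfl fun j _ => h6 j, sum_sub_distrib, e4, sub_self]
        have e6 : x = x' := by
          by_contra hne
          exact hcase x (mem_of_mem_erase hx) x' (mem_of_mem_erase hx') hne (te x) hε e5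
        subst e6
        rfl
    rw [card_sigma, card_product, card_product, card_univ, Fintype.card_fin,
      Fintype.card_piFinset, prod_const, card_univ, Fintype.card_fin] at hsig
    have h2 : ({1, -1} : Finset ℤ).card = 2 := by decide
    rw [h2] at hsig
    have h3 : D.card * L ^ (m - 2) ≤ ∑ x ∈ D, (E x).card := by
      rw [← smul_eq_mul]
      exact card_nsmul_le_sum _ _ _ fun x hx => (hE x hx).1
    have h4 : L ^ m ≤ 4 * n * D.card := by
      have : Φ.card ≤ 2 * D.card := by omega
      calc L ^ m ≤ 2 * n * Φ.card := hΦ1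
        _ ≤ 2 * n * (2 * D.card) := Nat.mul_le_mul_left _ this
        _ = 4 * n * D.card := by ring
    have h5 : L ^ (2 * m - 2) = L ^ m * L ^ (m - 2) := by
      rw [← pow_add]
      congr 1
      omega
    rw [h5]
    calc L ^ m * L ^ (m - 2) ≤ 4 * n * D.card * L ^ (m - 2) := Nat.mul_le_mul_right _ h4
      _ = 4 * n * (D.card * L ^ (m - 2)) := by ring
      _ ≤ 4 * n * (P.card * (m * 2 ^ m)) := Nat.mul_le_mul_left _ (h3.trans hsig)
      _ = _ := by ring

end Pool.Agent.SGN
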