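import Pool.Agent.SGN.Defect

/-!
# Signed sumsets: the order of magnitude of the defect
-/

set_option autoImplicit false

namespace Pool.Agent.SGN

open Finset

theorem card_ball_le_pow (k h : ℕ) : (ball k h).card ≤ (2 * h + 1) ^ k := by
  unfold ball
  refine (card_filter_le _ _).trans ?_
  rw [Fintype.card_piFinset, prod_const, card_univ, Fintype.card_fin, Int.card_Icc]
  refine le_of_eq ?_
  congr 1
  omega

/-- the number of the values is at most `c` minus half the number of the points that share their value -/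
theorem ncard_part {n m h : ℕ} (hh : 1 ≤ h) (A : Finset (ZMod n)) (e : Fin m ≃ A) :
    2 * (signedSumset n h A).ncard + (part h fun i => (e i : ZMod n)).card ≤ 2 * cc h m := by
  classical
  have h1 := image_part h fun i => (e i : ZMod n)
  rw [card_sph hh] at h1
  rw [signedSumset_eq A e, ← coe_image, Set.ncard_coe_finset]
  exact h1

theorem le_card_sph {m h : ℕ} (hh : 1 ≤ h) : m ≤ (sph m h).card := by
  classical
  have h3 : (univ.image fun i : Fin m => (Pi.single i (h : ℤ) : Fin m → ℤ)) ⊆ sph m h := by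
    intro s hs
    obtain ⟨i, _, rfl⟩ := mem_image.1 hs
    rw [mem_sph]
    unfold l1
    rw [sum_eq_single i]
    · rw [Pi.single_eq_same, Int.natAbs_natCast]
    · intro j _ hj
      rw [Pi.single_eq_of_ne hj, Int.natAbs_zero]
    · intro h
      exact absurd (mem_univ _) h
  have h4 := card_le_card h3
  rw [card_image_of_injective, card_univ, Fintype.card_fin] at h4
  · exact h4
  · intro i j hij
    by_contra hne
    have h5 := congrFun hij i
    simp only [Pi.single_eq_same] at h5
    rw [Pi.single_eq_of_ne hne] at h5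
    omega

theorem defect_ge {n m h : ℕ} (hm : 2 ≤ m) (hh : 1 ≤ h) (hc : cc h m ≤ n)
    (hn : 4 * (2 * m) ^ m * n ≤ h ^ m) :
    cc h m ^ 2 + (32 * m ^ 2) ^ m * n * nuPM n m h ≤ (32 * m ^ 2) ^ m * n * cc h m := by
  have hcs : (sph m h).card = cc h m := card_sph hh
  have hms := le_card_sph (m := m) hh
  rw [hcs] at hms
  have hn1 : 1 ≤ n := by omega
  have : NeZero n := ⟨by omega⟩
  set L : ℕ := h / (2 * m) + 1 with hLd
  have hLh : h ≤ 2 * m * L := by
    have h1 := Nat.div_add_mod h (2 * m)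
    have h2 := Nat.mod_lt h (show 0 < 2 * m by omega)
    have h3 : 2 * m * L = 2 * m * (h / (2 * m)) + 2 * m := by rw [hLd]; ring
    omega
  have hL : 4 * n ≤ L ^ m := by
    have h1 : (2 * m) ^ m * (4 * n) ≤ (2 * m) ^ m * L ^ m := by
      calc (2 * m) ^ m * (4 * n) = 4 * (2 * m) ^ m * n := by ring
        _ ≤ h ^ m := hn
        _ ≤ (2 * m * L) ^ m := Nat.pow_le_pow_left hLh m
        _ = (2 * m) ^ m * L ^ m := mul_pow _ _ _
    exact Nat.le_of_mul_le_mul_left h1 (pow_pos (by omega) m)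
  -- the size of the sphere
  have hcL : cc h m ^ 2 ≤ 4 * (4 * m) ^ (2 * m - 2) * L ^ (2 * m - 2) := by
    obtain ⟨k, rfl⟩ : ∃ k, m = k + 1 := ⟨m - 1, by omega⟩
    have h1 := card_sph_le k h
    rw [hcs] at h1
    have h2 : 2 * h + 1 ≤ 4 * (k + 1) * L := by
      have h3 : h < 2 * (k + 1) * L := by
        have h1 := Nat.div_add_mod h (2 * (k + 1))
        have h2 := Nat.mod_lt h (show 0 < 2 * (k + 1) by omega)
        have h3 : 2 * (k + 1) * L = 2 * (k + 1) * (h / (2 * (k + 1))) + 2 * (k + 1) := by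
          rw [hLd]; ring
        omega
      have h4 : 4 * (k + 1) * L = 2 * (2 * (k + 1) * L) := by ring
      omega
    have h5 : cc h (k + 1) ≤ 2 * (4 * (k + 1) * L) ^ k :=
      h1.trans (Nat.mul_le_mul_left 2 ((card_ball_le_pow k h).trans (Nat.pow_le_pow_left h2 k)))
    have h6 : 2 * (k + 1) - 2 = k * 2 := by omega
    rw [h6]
    calc cc h (k + 1) ^ 2 ≤ (2 * (4 * (k + 1) * L) ^ k) ^ 2 := Nat.pow_le_pow_left h5 2
      _ = 4 * (4 * (k + 1)) ^ (k * 2) * L ^ (k * 2) := by
        rw [mul_pow, ← pow_mul, mul_pow]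
        ring
  -- the bound for each set
  obtain ⟨A, hA, hAν⟩ : ∃ A : Finset (ZMod n), A.card = m ∧
      (signedSumset n h A).ncard = nuPM n m h := by
    have hmn : m ≤ n := by omega
    obtain ⟨A, _, hA⟩ := exists_subset_card_eq (s := (univ : Finset (ZMod n))) (n := m)
      (by rw [card_univ, ZMod.card]; exact hmn)
    have hne : {s | ∃ A : Finset (ZMod n), A.card = m ∧ (signedSumset n h A).ncard = s}.Nonempty :=
      ⟨_, A, hA, rfl⟩
    exact Nat.sSup_mem hne (nuPM_bdd hn1)
  have e : Fin m ≃ A := (Fintype.equivFinOfCardEq (by rw [Fintype.card_coe, hA])).symm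
  have h1 := ncard_part hh A e
  rw [hAν] at h1
  have h2 := many (h := h) hm hn1 (fun i => (e i : ZMod n)) (by rw [hcs]; exact hc) (by rw [← hLd]; exact hL)
  rw [← hLd] at h2
  set P := (part h fun i => (e i : ZMod n)).card with hP
  set ν := nuPM n m h with hν
  set c := cc h m with hcd
  obtain ⟨d, hd⟩ : ∃ d, c = ν + d := ⟨c - ν, by omega⟩
  have hPd : P ≤ 2 * d := by omega
  have h3 : c ^ 2 ≤ (32 * m ^ 2) ^ m * n * d := by
    calc c ^ 2 ≤ 4 * (4 * m) ^ (2 * m - 2) * L ^ (2 * m - 2) := hcL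
      _ ≤ 4 * (4 * m) ^ (2 * m - 2) * (4 * m * 2 ^ m * n * P) := Nat.mul_le_mul_left _ h2
      _ ≤ 4 * (4 * m) ^ (2 * m - 2) * (4 * m * 2 ^ m * n * (2 * d)) :=
        Nat.mul_le_mul_left _ (Nat.mul_le_mul_left _ hPd)
      _ = (2 * (4 * (4 * m))) * (4 * m) ^ (2 * m - 2) * (2 ^ m * n * d) := by ring
      _ ≤ ((4 * m) ^ 2 * (4 * m) ^ (2 * m - 2)) * (2 ^ m * n * d) := by
        refine Nat.mul_le_mul_right _ (Nat.mul_le_mul_right _ ?_)
        nlinarith
      _ = ((4 * m) ^ 2) ^ m * (2 ^ m * n * d) := by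
        congr 1
        rw [← pow_add, ← pow_mul]
        congr 1
        omega
      _ = (32 * m ^ 2) ^ m * n * d := by
        have h5 : (32 * m ^ 2) ^ m = ((4 * m) ^ 2) ^ m * 2 ^ m := by
          rw [← mul_pow]
          congr 1
          ring
        rw [h5]
        ring
  rw [hd] at h3 ⊢
  calc (ν + d) ^ 2 + (32 * m ^ 2) ^ m * n * ν ≤
      (32 * m ^ 2) ^ m * n * d + (32 * m ^ 2) ^ m * n * ν := Nat.add_le_add_right h3 _
    _ = _ := by ring

/-- the upper bound of the defect -/
theorem defect_le {n m h : ℕ} (hm : 4 ≤ m) (hmn : m ≤ n) (hh : 2 ≤ h) :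
    n * cc h m ≤ n * nuPM n m h + 45 * cc h m ^ 2 := by
  have h1 := sharp hm hmn hh
  have h2 := (nuPM_le (n := n) (m := m) (h := h) (by omega) hmn (by omega)).trans (min_le_right _ _)
  calc n * cc h m = cc h m * n := mul_comm _ _
    _ ≤ (n + 45 * cc h m) * nuPM n m h := h1
    _ = n * nuPM n m h + 45 * cc h m * nuPM n m h := by ring
    _ ≤ n * nuPM n m h + 45 * cc h m * cc h m := Nat.add_le_add_left (Nat.mul_le_mul_left _ h2) _
    _ = _ := by ring

/-- digits: a vector with small entries is determined by its value at a geometric progression -/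
theorem digits {k : ℕ} (h : ℕ) : ∀ δ : Fin k → ℤ, (∀ i, |δ i| ≤ 2 * h) →
    ∑ i : Fin k, δ i * (2 * h + 1 : ℤ) ^ (i : ℕ) = 0 → δ = 0 := by
  induction k with
  | zero =>
    intro δ _ _
    funext i
    exact i.elim0
  | succ k ih =>
    intro δ hδ h0
    rw [Fin.sum_univ_succ] at h0
    have h1 : ∑ i : Fin k, δ i.succ * (2 * h + 1 : ℤ) ^ ((i.succ : Fin (k + 1)) : ℕ) =
        (2 * h + 1) * ∑ i : Fin k, δ i.succ * (2 * h + 1 : ℤ) ^ (i : ℕ) := by
      rw [mul_sum]
      refine sum_congr rfl fun i _ => ?_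
      rw [Fin.val_succ, pow_succ]
      ring
    rw [h1, Fin.val_zero, pow_zero, mul_one] at h0
    have h2 : (2 * h + 1 : ℤ) ∣ δ 0 := ⟨-∑ i : Fin k, δ i.succ * (2 * h + 1 : ℤ) ^ (i : ℕ), by linarith⟩
    have h3 : δ 0 = 0 := by
      refine Int.eq_zero_of_abs_lt_dvd h2 ?_
      have := hδ 0
      linarith
    rw [h3, zero_add] at h0
    have h4 := (mul_eq_zero.1 h0).resolve_left (by positivity)
    have h5 := ih (fun i => δ i.succ) (fun i => hδ i.succ) h4
    funext i
    refine Fin.cases h3 (fun j => ?_) i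
    exact congrFun h5 j

/-- the geometric progression -/
def geo (m n h : ℕ) : Fin m → ZMod n := fun i => (((2 * h + 1) ^ (i : ℕ) : ℕ) : ZMod n)

theorem geo_zero {n m h : ℕ} (hn : 2 * h * (2 * h + 1) ^ (m - 1) < n) (δ : Fin m → ℤ)
    (hδ : l1 δ ≤ 2 * h) (h0 : ev (geo m n h) δ = 0) : δ = 0 := by
  have h1 : ((∑ i : Fin m, δ i * (2 * h + 1 : ℤ) ^ (i : ℕ) : ℤ) : ZMod n) = 0 := by
    rw [← h0]
    unfold ev
    push_cast
    refine sum_congr rfl fun i _ => ?_
    unfold geo
    push_cast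
    rfl
  rw [ZMod.intCast_zmod_eq_zero_iff_dvd] at h1
  refine digits h δ (fun i => ?_) (Int.eq_zero_of_abs_lt_dvd h1 ?_)
  · have := natAbs_le_l1 δ i
    rw [Int.abs_eq_natAbs]
    exact_mod_cast this.trans hδ
  · have h2 : |∑ i : Fin m, δ i * (2 * h + 1 : ℤ) ^ (i : ℕ)| ≤
        ∑ i : Fin m, |δ i| * (2 * h + 1 : ℤ) ^ (m - 1) := by
      refine (abs_sum_le_sum_abs _ _).trans (sum_le_sum fun i _ => ?_)
      rw [abs_mul, abs_of_nonneg (by positivity : (0 : ℤ) ≤ (2 * h + 1 : ℤ) ^ (i : ℕ))]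
      refine mul_le_mul_of_nonneg_left (pow_le_pow_right₀ (by linarith) (by omega)) (abs_nonneg _)
    rw [← sum_mul] at h2
    have h3 : ∑ i : Fin m, |δ i| ≤ 2 * h := by
      unfold l1 at hδ
      have h4 : ((∑ i : Fin m, (δ i).natAbs : ℕ) : ℤ) ≤ ((2 * h : ℕ) : ℤ) := by exact_mod_cast hδ
      push_cast at h4
      exact h4
    have h5 : (∑ i : Fin m, |δ i|) * (2 * h + 1 : ℤ) ^ (m - 1) ≤ 2 * h * (2 * h + 1 : ℤ) ^ (m - 1) :=
      mul_le_mul_of_nonneg_right h3 (by positivity)
    have h6 : (2 * h * (2 * h + 1) ^ (m - 1) : ℤ) < n := by exact_mod_cast hn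
    linarith

/-- half of the upper bound by a geometric progression and zero -/
theorem half {n k h : ℕ} (hkn : k + 1 ≤ n) (hn : 2 * h * (2 * h + 1) ^ (k - 1) < n) :
    (sph (k + 1) h).card ≤ 2 * nuPM n (k + 1) h := by
  classical
  have hinj : Set.InjOn (ev (geo k n h)) (ball k h : Set (Fin k → ℤ)) := by
    intro v hv w hw hvw
    have h1 : ev (geo k n h) (v - w) = 0 := by rw [ev_sub, hvw, sub_self]
    have h2 := l1_sub_le v w
    have h3 := mem_ball.1 hv
    have h4 := mem_ball.1 hw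
    exact sub_eq_zero.1 (geo_zero hn _ (by omega) h1)
  have h1 := card_image_ball_le (h := h) hkn (geo k n h)
  rw [card_image_of_injOn hinj] at h1
  exact (card_sph_le k h).trans (Nat.mul_le_mul_left 2 h1)

/-- if `n` is large then the upper bound `c` is attained -/
theorem exact_large {n m h : ℕ} (hm : 1 ≤ m) (hh : 1 ≤ h) (hn : 2 * h * (2 * h + 1) ^ (m - 1) < n) :
    nuPM n m h = cc h m := by
  classical
  have hn1 : 1 ≤ n := by omega
  set a : Fin m → ZMod n := geo m n h with ha
  have key : ∀ δ : Fin m → ℤ, l1 δ ≤ 2 * h → ev a δ = 0 → δ = 0 := fun δ hδ h0 => geo_zero hn δ hδ h0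
  have hinj : Set.InjOn (ev a) (sph m h : Set (Fin m → ℤ)) := by
    intro v hv w hw hvw
    have h1 : ev a (v - w) = 0 := by rw [ev_sub, hvw, sub_self]
    have h2 := l1_sub_le v w
    rw [mem_sph.1 hv, mem_sph.1 hw] at h2
    exact sub_eq_zero.1 (key _ (by omega) h1)
  have hainj : Function.Injective a := by
    intro i j hij
    by_contra hne
    have h1 : ev a (Pi.single i 1 - Pi.single j 1) = 0 := by
      have h2 : ∀ i : Fin m, ev a (Pi.single i 1) = a i := by
        intro i
        unfold ev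
        rw [sum_eq_single i]
        · rw [Pi.single_eq_same]; simp
        · intro j _ hj
          rw [Pi.single_eq_of_ne hj]; simp
        · intro h
          exact absurd (mem_univ _) h
      rw [ev_sub, h2, h2, hij, sub_self]
    have h3 : l1 (Pi.single i 1 - Pi.single j 1 : Fin m → ℤ) ≤ 2 * h := by
      refine (l1_sub_le _ _).trans ?_
      have h2 : ∀ i : Fin m, l1 (Pi.single i 1 : Fin m → ℤ) = 1 := by
        intro i
        unfold l1
        rw [sum_eq_single i]
        · rw [Pi.single_eq_same]; rfl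
        · intro j _ hj
          rw [Pi.single_eq_of_ne hj]; rfl
        · intro h
          exact absurd (mem_univ _) h
      rw [h2, h2]
      omega
    have h4 := congrFun (sub_eq_zero.1 (key _ h3 h1)) i
    rw [Pi.single_eq_same, Pi.single_eq_of_ne hne] at h4
    exact one_ne_zero h4
  have h1 := card_image_sph_le (h := h) hn1 a hainj
  rw [card_image_of_injOn hinj, card_sph hh] at h1
  have hmn : m ≤ n := by
    have h2 : (univ.image a).card ≤ n := by
      have : NeZero n := ⟨by omega⟩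
      have := card_le_univ (univ.image a)
      rw [ZMod.card] at this
      exact this
    rw [card_image_of_injective _ hainj, card_univ, Fintype.card_fin] at h2
    exact h2
  exact le_antisymm ((nuPM_le hn1 hmn hh).trans (min_le_right _ _)) h1

end Pool.Agent.SGN
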