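import Pool.Agent.SGN.Stmt

/-!
# Signed sumsets in cyclic groups: lattice points of the l1-ball
-/

set_option autoImplicit false

namespace Pool.Agent.SGN

open Finset

/-- the l1 norm of an integer vector -/
def l1 {k : ℕ} (v : Fin k → ℤ) : ℕ := ∑ i, (v i).natAbs

/-- the lattice points of the l1-ball of radius `h` in dimension `k` -/
noncomputable def ball (k h : ℕ) : Finset (Fin k → ℤ) :=
  (Fintype.piFinset fun _ => Icc (-(h : ℤ)) h).filter fun v => l1 v ≤ h

/-- the lattice points of the l1-sphere of radius `h` in dimension `m` -/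
noncomputable def sph (m h : ℕ) : Finset (Fin m → ℤ) :=
  (Fintype.piFinset fun _ => Icc (-(h : ℤ)) h).filter fun v => l1 v = h

/-- the gcd of the entries -/
def cont {k : ℕ} (v : Fin k → ℤ) : ℕ := univ.gcd fun i => (v i).natAbs

/-- the value of the coefficient vector `v` at `a` -/
def ev {k n : ℕ} (a : Fin k → ZMod n) (v : Fin k → ℤ) : ZMod n := ∑ i, (v i : ZMod n) * a i

/-- number of pairs of points of the ball with difference `δ` -/
noncomputable def rr (k h : ℕ) (δ : Fin k → ℤ) : ℕ := ((ball k h).filter fun v => v - δ ∈ ball k h).card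

theorem natAbs_le_l1 {k : ℕ} (v : Fin k → ℤ) (i : Fin k) : (v i).natAbs ≤ l1 v :=
  single_le_sum (f := fun i => (v i).natAbs) (fun _ _ => Nat.zero_le _) (mem_univ i)

theorem mem_box {k h : ℕ} {v : Fin k → ℤ} (hv : l1 v ≤ h) :
    v ∈ Fintype.piFinset fun _ : Fin k => Icc (-(h : ℤ)) h := by
  rw [Fintype.mem_piFinset]
  intro i
  rw [mem_Icc]
  have := natAbs_le_l1 v i
  omega

theorem mem_ball {k h : ℕ} {v : Fin k → ℤ} : v ∈ ball k h ↔ l1 v ≤ h := by
  unfold ball
  rw [mem_filter]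
  exact ⟨fun h => h.2, fun h => ⟨mem_box h, h⟩⟩

theorem mem_sph {k h : ℕ} {v : Fin k → ℤ} : v ∈ sph k h ↔ l1 v = h := by
  unfold sph
  rw [mem_filter]
  exact ⟨fun h => h.2, fun h => ⟨mem_box h.le, h⟩⟩

theorem l1_neg {k : ℕ} (v : Fin k → ℤ) : l1 (-v) = l1 v := by
  unfold l1
  exact sum_congr rfl fun i _ => Int.natAbs_neg _

theorem l1_zero {k : ℕ} : l1 (0 : Fin k → ℤ) = 0 := by
  unfold l1
  exact sum_eq_zero fun i _ => rfl

theorem l1_add_le {k : ℕ} (v w : Fin k → ℤ) : l1 (v + w) ≤ l1 v + l1 w := by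
  unfold l1
  rw [← sum_add_distrib]
  exact sum_le_sum fun i _ => Int.natAbs_add_le _ _

theorem l1_sub_le {k : ℕ} (v w : Fin k → ℤ) : l1 (v - w) ≤ l1 v + l1 w := by
  have h := l1_add_le v (-w)
  rw [l1_neg, ← sub_eq_add_neg] at h
  exact h

/-- splitting off the first coordinate -/
theorem l1_cons {k : ℕ} (x : ℤ) (v : Fin k → ℤ) :
    l1 (Fin.cons x v : Fin (k + 1) → ℤ) = x.natAbs + l1 v := by
  unfold l1
  rw [Fin.sum_univ_succ]
  rfl

theorem l1_tail {k : ℕ} (v : Fin (k + 1) → ℤ) : l1 v = (v 0).natAbs + l1 (Fin.tail v) := by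
  unfold l1
  rw [Fin.sum_univ_succ]
  rfl

theorem ev_sub {k n : ℕ} (a : Fin k → ZMod n) (v w : Fin k → ℤ) :
    ev a (v - w) = ev a v - ev a w := by
  unfold ev
  rw [← sum_sub_distrib]
  refine sum_congr rfl fun i _ => ?_
  rw [Pi.sub_apply]
  push_cast
  ring

theorem cont_dvd {k : ℕ} (v : Fin k → ℤ) (i : Fin k) : (cont v : ℤ) ∣ v i := by
  rw [Int.natCast_dvd]
  exact gcd_dvd (mem_univ i)

theorem cont_pos {k : ℕ} {v : Fin k → ℤ} (hv : v ≠ 0) : 0 < cont v := by
  rw [Nat.pos_iff_ne_zero]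
  intro h
  apply hv
  unfold cont at h
  rw [Finset.gcd_eq_zero_iff] at h
  funext i
  have := h i (mem_univ i)
  exact Int.natAbs_eq_zero.1 this

/-- the difference form of the pairs of a finite set -/
theorem sum_pairs {k : ℕ} (S : Finset (Fin k → ℤ)) (f : (Fin k → ℤ) → ℕ) (T : Finset (Fin k → ℤ))
    (hT : ∀ v ∈ S, ∀ w ∈ S, v - w ∈ T) :
    ∑ p ∈ S ×ˢ S, f (p.1 - p.2) = ∑ δ ∈ T, f δ * (S.filter fun v => v - δ ∈ S).card := by
  rw [← sum_fiberwise_of_maps_to (s := S ×ˢ S) (t := T) (g := fun p => p.1 - p.2)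
    (fun p hp => hT _ (mem_product.1 hp).1 _ (mem_product.1 hp).2)]
  refine sum_congr rfl fun δ _ => ?_
  rw [sum_congr rfl (g := fun _ => f δ) (by
    intro p hp
    rw [(mem_filter.1 hp).2]), sum_const, smul_eq_mul, mul_comm]
  congr 1
  refine card_bij (fun p _ => p.1) ?_ ?_ ?_
  · intro p hp
    rw [mem_filter, mem_product] at hp
    rw [mem_filter]
    refine ⟨hp.1.1, ?_⟩
    rw [← hp.2, sub_sub_cancel]
    exact hp.1.2
  · intro p hp q hq hpq
    rw [mem_filter, mem_product] at hp hq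
    refine Prod.ext hpq ?_
    have h1 : p.2 = p.1 - δ := by rw [← hp.2, sub_sub_cancel]
    have h2 : q.2 = q.1 - δ := by rw [← hq.2, sub_sub_cancel]
    rw [h1, h2]
    rw [show p.1 = q.1 from hpq]
  · intro v hv
    rw [mem_filter] at hv
    refine ⟨(v, v - δ), ?_, rfl⟩
    rw [mem_filter, mem_product]
    exact ⟨⟨hv.1, hv.2⟩, sub_sub_cancel _ _⟩

end Pool.Agent.SGN
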