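import Pool.Agent.SGN.Final

/-!
# Signed sumsets: the dense range
-/

set_option autoImplicit false

namespace Pool.Agent.SGN

open Finset

/-- one step towards the origin -/
theorem unit_step {k : ℕ} {u : Fin k → ℤ} (hu : 1 ≤ l1 u) :
    ∃ e : Fin k → ℤ, l1 e ≤ 1 ∧ l1 (u - e) + 1 ≤ l1 u := by
  classical
  obtain ⟨i, hi⟩ : ∃ i, u i ≠ 0 := by
    by_contra hc
    push Not at hc
    have : u = 0 := funext hc
    rw [this, l1_zero] at hu
    omega
  refine ⟨Function.update 0 i (u i).sign, ?_, ?_⟩
  · rw [l1_eq i, Function.update_self, pp_congr (i := i)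
      (v := Function.update (0 : Fin k → ℤ) i (u i).sign) (w := 0)
      (fun j hj => Function.update_of_ne hj _ _)]
    have h1 : pp i (0 : Fin k → ℤ) = 0 := sum_eq_zero fun j _ => rfl
    rw [h1]
    rcases lt_or_gt_of_ne hi with h2 | h2
    · rw [Int.sign_eq_neg_one_of_neg h2]
      decide
    · rw [Int.sign_eq_one_of_pos h2]
      decide
  · rw [l1_eq i, l1_eq i u, Pi.sub_apply, Function.update_self,
      pp_congr (v := u - Function.update (0 : Fin k → ℤ) i (u i).sign) (w := u) (fun j hj => by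
        rw [Pi.sub_apply, Function.update_of_ne hj, Pi.zero_apply, sub_zero])]
    rcases lt_or_gt_of_ne hi with h2 | h2
    · rw [Int.sign_eq_neg_one_of_neg h2]
      omega
    · rw [Int.sign_eq_one_of_pos h2]
      omega

theorem interm {k : ℕ} (v : Fin k → ℤ) (t : ℕ) (ht : t ≤ l1 v) :
    ∃ w : Fin k → ℤ, l1 w ≤ t ∧ l1 (v - w) + t ≤ l1 v := by
  induction t with
  | zero => exact ⟨0, by rw [l1_zero], by rw [sub_zero]; omega⟩
  | succ t ih =>
    obtain ⟨w, h1, h2⟩ := ih (by omega)
    by_cases h3 : 1 ≤ l1 (v - w)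
    · obtain ⟨e, h4, h5⟩ := unit_step h3
      refine ⟨w + e, ?_, ?_⟩
      · have := l1_add_le w e
        omega
      · rw [← sub_sub]
        omega
    · exact ⟨w, by omega, by omega⟩

/-- if the sums over the ball of radius `h0` fill a proportion `1/N` of the group and the
generators generate, then every element has a representation of norm less than `N(2h0+1)` -/
theorem diam {k n h0 N : ℕ} [NeZero n] (a : Fin k → ZMod n) (hgen : ∃ u : Fin k → ℤ, ev a u = 1)
    (hN : n ≤ N * ((ball k h0).image (ev a)).card) (x : ZMod n) :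
    ∃ v : Fin k → ℤ, l1 v < N * (2 * h0 + 1) ∧ ev a v = x := by
  classical
  -- every element is represented
  have hrep : ∀ y : ZMod n, ∃ L, ∃ v : Fin k → ℤ, l1 v = L ∧ ev a v = y := by
    intro y
    obtain ⟨u, hu⟩ := hgen
    refine ⟨_, fun i => (y.val : ℤ) * u i, rfl, ?_⟩
    have h1 : ev a (fun i => (y.val : ℤ) * u i) = (y.val : ZMod n) * ev a u := by
      unfold ev
      rw [mul_sum]
      refine sum_congr rfl fun i _ => ?_
      push_cast
      ring
    rw [h1, hu, mul_one, ZMod.natCast_zmod_val]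
  set L := Nat.find (hrep x) with hL
  obtain ⟨v, hv1, hv2⟩ := Nat.find_spec (hrep x)
  rw [← hL] at hv1
  have hmin : ∀ w : Fin k → ℤ, ev a w = x → L ≤ l1 w := fun w hw =>
    Nat.find_min' (hrep x) ⟨w, rfl, hw⟩
  refine ⟨v, ?_, hv2⟩
  rw [hv1]
  by_contra hcon
  rw [not_lt] at hcon
  have hw : ∀ i : ℕ, ∃ w : Fin k → ℤ, i ≤ N → l1 w ≤ i * (2 * h0 + 1) ∧
      l1 (v - w) + i * (2 * h0 + 1) ≤ L := by
    intro i
    by_cases hi : i ≤ N
    · obtain ⟨w, h1, h2⟩ := interm v (i * (2 * h0 + 1)) (by
        rw [hv1]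
        exact (Nat.mul_le_mul_right _ hi).trans hcon)
      exact ⟨w, fun _ => ⟨h1, by omega⟩⟩
    · exact ⟨0, fun h => absurd h hi⟩
  choose w hw using hw
  set B := (ball k h0).image (ev a) with hB
  -- the translates are disjoint
  have hinj : Set.InjOn (fun p : ℕ × ZMod n => ev a (w p.1) + p.2)
      ((range (N + 1)) ×ˢ B : Finset (ℕ × ZMod n)) := by
    have key : ∀ i j : ℕ, i ≤ N → j ≤ N → i < j → ∀ b ∈ B, ∀ b' ∈ B,
        ev a (w i) + b ≠ ev a (w j) + b' := by
      intro i j hi hj hij b hb b' hb' heq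
      obtain ⟨β, hβ, rfl⟩ := mem_image.1 hb
      obtain ⟨β', hβ', rfl⟩ := mem_image.1 hb'
      rw [mem_ball] at hβ hβ'
      have h1 := (hw i hi).1
      have h2 := (hw j hj).2
      have h3 : ev a (w i + β - β' + (v - w j)) = x := by
        have e1 : w i + β - β' + (v - w j) = (w i - (-β)) - β' - (w j - v) := by
          funext l
          simp only [Pi.add_apply, Pi.sub_apply, Pi.neg_apply]
          ring
        have e2 : ev a (-β) = - ev a β := by
          have := ev_sub a 0 β
          rw [zero_sub] at this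
          rw [this]
          have h0 : ev a (0 : Fin k → ℤ) = 0 := by unfold ev; simp
          rw [h0, zero_sub]
        rw [e1, ev_sub, ev_sub, ev_sub, ev_sub, e2, hv2, sub_neg_eq_add, heq]
        ring
      have h4 := hmin _ h3
      have h5 := l1_add_le (w i + β - β') (v - w j)
      have h6 := l1_sub_le (w i + β) β'
      have h7 := l1_add_le (w i) β
      have h8 : i * (2 * h0 + 1) + (2 * h0 + 1) ≤ j * (2 * h0 + 1) := by
        have : (i + 1) * (2 * h0 + 1) ≤ j * (2 * h0 + 1) := Nat.mul_le_mul_right _ hij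
        linarith
      omega
    rintro ⟨i, b⟩ h1 ⟨j, b'⟩ h2 h3
    rw [mem_coe, mem_product, mem_range] at h1 h2
    simp only at h1 h2 h3
    rcases lt_trichotomy i j with h4 | h4 | h4
    · exact absurd h3 (key i j (by omega) (by omega) h4 b h1.2 b' h2.2)
    · subst h4
      rw [add_left_cancel h3]
    · exact absurd h3.symm (key j i (by omega) (by omega) h4 b' h2.2 b h1.2)
  have h1 := card_le_card_of_injOn (t := (univ : Finset (ZMod n))) _ (fun _ _ => mem_coe.2 (mem_univ _)) hinj
  rw [card_product, card_range, card_univ, ZMod.card] at h1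
  have h2 : 0 < B.card := by
    rw [card_pos]
    refine Nonempty.image ⟨0, ?_⟩ _
    rw [mem_ball, l1_zero]
    exact Nat.zero_le _
  have h3 : (N + 1) * B.card = N * B.card + B.card := by ring
  omega

theorem cube_tele (N : ℕ) (X : ℕ → ℕ) (E : ℕ) (hX : ∀ d, 2 ≤ d → d ^ 3 * X d ≤ E) :
    4 * ∑ d ∈ Icc 2 N, X d ≤ E := by
  rcases Nat.eq_zero_or_pos N with h0 | h0
  · rw [h0]
    simp
  have key : ∀ M : ℕ, 1 ≤ M → ((∑ d ∈ Icc 2 M, X d : ℕ) : ℝ) ≤
      E * (1 / 4 - 1 / (2 * (M * (M + 1)))) := by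
    intro M hM
    induction M, hM using Nat.le_induction with
    | base =>
      simp
      norm_num
    | succ M hM ih =>
      have h1 : Icc 2 (M + 1) = insert (M + 1) (Icc 2 M) := by
        ext c
        rw [mem_Icc, mem_insert, mem_Icc]
        omega
      rw [h1, sum_insert (by rw [mem_Icc]; omega)]
      push_cast at ih ⊢
      have hMpos : (0 : ℝ) < M := by exact_mod_cast hM
      have hE : (0 : ℝ) ≤ E := Nat.cast_nonneg _
      have h2 : ((M : ℝ) + 1) ^ 3 * X (M + 1) ≤ E := by exact_mod_cast hX (M + 1) (by omega)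
      have h3 : (X (M + 1) : ℝ) ≤ E * (1 / (M * (M + 1) * (M + 2))) := by
        have h4 : (X (M + 1) : ℝ) ≤ E / (M + 1) ^ 3 := by
          rw [le_div_iff₀ (by positivity)]
          linarith
        refine h4.trans ?_
        rw [div_eq_mul_one_div]
        refine mul_le_mul_of_nonneg_left ?_ hE
        apply one_div_le_one_div_of_le (by positivity)
        nlinarith
      have h5 : (E : ℝ) * (1 / 4 - 1 / (2 * ((M + 1) * (M + 1 + 1)))) =
          E * (1 / 4 - 1 / (2 * (M * (M + 1)))) + E * (1 / (M * (M + 1) * (M + 2))) := by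
        field_simp
        ring
      rw [h5]
      linarith
  have h1 := key N h0
  have hE : (0 : ℝ) ≤ E := Nat.cast_nonneg _
  have h2 : (E : ℝ) * (1 / 4 - 1 / (2 * (N * (N + 1)))) ≤ E * (1 / 4) := by
    refine mul_le_mul_of_nonneg_left ?_ hE
    have : (0 : ℝ) ≤ 1 / (2 * (N * (N + 1))) := by positivity
    linarith
  have h3 : (4 * ∑ d ∈ Icc 2 N, X d : ℝ) ≤ E := by
    have := h1.trans h2
    push_cast at this
    linarith
  exact_mod_cast h3

/-- the generating vectors -/
theorem card_gen {k n : ℕ} [NeZero n] (hk : 3 ≤ k) [DecidablePred fun a : Fin k → ZMod n => ∃ u : Fin k → ℤ, ev a u = 1] :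
    3 * n ^ k ≤ 4 * (univ.filter fun a : Fin k → ZMod n => ∃ u : Fin k → ℤ, ev a u = 1).card := by
  classical
  have hn : n ≠ 0 := NeZero.ne n
  set X : ℕ → ℕ := fun d => if d ∣ n then
    (univ.filter fun a : Fin k → ZMod n => ∀ i, d ∣ (a i).val).card else 0 with hX
  have h1 : (univ.filter fun a : Fin k → ZMod n => ¬ ∃ u : Fin k → ℤ, ev a u = 1).card ≤
      ∑ d ∈ Icc 2 n, X d := by
    have h2 : (univ.filter fun a : Fin k → ZMod n => ¬ ∃ u : Fin k → ℤ, ev a u = 1) ⊆
        ((Icc 2 n).filter fun d => d ∣ n).biUnion fun d =>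
          univ.filter fun a : Fin k → ZMod n => ∀ i, d ∣ (a i).val := by
      intro a ha
      rw [mem_filter] at ha
      rw [mem_biUnion]
      set δ : Fin (k + 1) → ℤ := Fin.cons (n : ℤ) fun i => ((a i).val : ℤ) with hδ
      have h3 : cont δ ∣ n := by
        have := cont_dvd δ 0
        rw [hδ, Fin.cons_zero] at this
        exact Int.natCast_dvd_natCast.1 this
      have h4 : ∀ i, cont δ ∣ (a i).val := by
        intro i
        have := cont_dvd δ i.succ
        rw [hδ, Fin.cons_succ] at this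
        exact Int.natCast_dvd_natCast.1 this
      refine ⟨cont δ, ?_, ?_⟩
      · rw [mem_filter, mem_Icc]
        refine ⟨⟨?_, Nat.le_of_dvd (by omega) h3⟩, h3⟩
        by_contra h5
        have h6 : 0 < cont δ := Nat.pos_of_dvd_of_pos h3 (by omega)
        have h7 : cont δ = 1 := by omega
        apply ha.2
        obtain ⟨u, hu⟩ := exists_bezout δ
        refine ⟨fun i => u i.succ, ?_⟩
        rw [h7, Fin.sum_univ_succ, hδ, Fin.cons_zero] at hu
        have h8 : ((u 0 * (n : ℤ) + ∑ i : Fin k, u i.succ * (Fin.cons (n : ℤ)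
            (fun i => ((a i).val : ℤ)) : Fin (k + 1) → ℤ) i.succ : ℤ) : ZMod n) = 1 := by
          rw [hu]
          simp
        push_cast at h8
        rw [ZMod.natCast_self, mul_zero, zero_add] at h8
        rw [← h8]
        unfold ev
        refine sum_congr rfl fun i _ => ?_
        rw [Fin.cons_succ]
        push_cast
        rw [ZMod.natCast_zmod_val]
      · rw [mem_filter]
        exact ⟨mem_univ _, h4⟩
    refine (card_le_card h2).trans (card_biUnion_le.trans ?_)
    rw [sum_filter]
  have h2 : 4 * ∑ d ∈ Icc 2 n, X d ≤ n ^ k := by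
    refine cube_tele n X (n ^ k) fun d hd => ?_
    by_cases hdn : d ∣ n
    · rw [hX]
      simp only
      rw [if_pos hdn]
      have h3 : (univ.filter fun a : Fin k → ZMod n => ∀ i, d ∣ (a i).val).card ≤ (n / d) ^ k := by
        have h4 : (univ.filter fun a : Fin k → ZMod n => ∀ i, d ∣ (a i).val) =
            Fintype.piFinset fun _ => univ.filter fun x : ZMod n => d ∣ x.val := by
          ext a
          rw [mem_filter, Fintype.mem_piFinset]
          simp
        rw [h4, Fintype.card_piFinset, prod_const, card_univ, Fintype.card_fin]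
        refine Nat.pow_le_pow_left ?_ k
        rw [← card_range (n / d)]
        refine card_le_card_of_injOn (fun x : ZMod n => x.val / d) ?_ ?_
        · intro x hx
          have hx' : d ∣ x.val := (mem_filter.1 (mem_coe.1 hx)).2
          rw [mem_coe, mem_range]
          exact Nat.div_lt_div_of_lt_of_dvd hdn (ZMod.val_lt x)
        · intro x hx y hy hxy
          have hx' : d ∣ x.val := (mem_filter.1 (mem_coe.1 hx)).2
          have hy' : d ∣ y.val := (mem_filter.1 (mem_coe.1 hy)).2
          apply ZMod.val_injective n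
          rw [← Nat.div_mul_cancel hx', ← Nat.div_mul_cancel hy']
          exact congrArg (· * d) hxy
      have h5 : d ^ 3 ≤ d ^ k := Nat.pow_le_pow_right (by omega) hk
      calc d ^ 3 * _ ≤ d ^ k * (n / d) ^ k := Nat.mul_le_mul h5 h3
        _ = (d * (n / d)) ^ k := by rw [mul_pow]
        _ = n ^ k := by rw [Nat.mul_div_cancel' hdn]
    · rw [hX]
      simp only
      rw [if_neg hdn, mul_zero]
      exact Nat.zero_le _
  have h3 : (univ : Finset (Fin k → ZMod n)).card = n ^ k := by
    rw [card_univ, Fintype.card_fun, ZMod.card, Fintype.card_fin]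
  have h4 := card_filter_add_card_filter_not (s := (univ : Finset (Fin k → ZMod n)))
    (fun a => ∃ u : Fin k → ℤ, ev a u = 1)
  omega

theorem exists_full {n : ℕ} (hn : 1 ≤ n) {k h0 : ℕ} (hk : 3 ≤ k) (hh : 1 ≤ h0)
    (hD : n ≤ (ball k h0).card) : ∃ a : Fin k → ZMod n,
    n ≤ ((ball k (36 * h0)).image (ev a)).card := by
  classical
  have : NeZero n := ⟨by omega⟩
  set T : Finset (Fin k → ZMod n) := univ.filter fun a => ∃ u : Fin k → ℤ, ev a u = 1 with hT
  have hTc := card_gen (n := n) hk
  rw [← hT] at hTc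
  have hnk : 0 < n ^ k := Nat.pos_of_ne_zero (pow_ne_zero _ (by omega))
  have hTne : T.Nonempty := by
    rw [← card_pos]
    omega
  obtain ⟨a, haT, ha⟩ := exists_good (n := n) (ball k h0) T hTne
  have h2 : ∑ p ∈ (ball k h0 ×ˢ ball k h0).filter (fun p => p.1 ≠ p.2),
      Nat.gcd n (cont (p.1 - p.2)) ≤ 8 * (ball k h0).card ^ 2 := by
    refine le_trans (sum_le_sum fun p hp => ?_) (total_pairs hk h0)
    exact Nat.le_of_dvd (cont_pos (sub_ne_zero.2 (mem_filter.1 hp).2)) (Nat.gcd_dvd_right _ _)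
  set D := (ball k h0).card with hDdef
  set I := ((ball k h0).image (ev a)).card with hI
  have hDpos : 0 < D := by omega
  have h3 : (n ^ k * D) * (3 * (D * n)) ≤ (n ^ k * D) * (4 * (I * (n + 8 * D))) := by
    calc (n ^ k * D) * (3 * (D * n)) = (D ^ 2 * n) * (3 * n ^ k) := by ring
      _ ≤ (D ^ 2 * n) * (4 * T.card) := Nat.mul_le_mul_left _ hTc
      _ = 4 * (D ^ 2 * (T.card * n)) := by ring
      _ ≤ 4 * (I * (n ^ k * (n * D + 8 * D ^ 2))) := Nat.mul_le_mul_left _
          (ha.trans (Nat.mul_le_mul_left _ (Nat.mul_le_mul_left _ (Nat.add_le_add_left h2 _))))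
      _ = _ := by ring
  have h4 : 3 * (D * n) ≤ 4 * (I * (n + 8 * D)) :=
    Nat.le_of_mul_le_mul_left h3 (Nat.mul_pos hnk hDpos)
  have h5 : n ≤ 12 * I := by
    have h6 : n * (3 * D) ≤ (12 * I) * (3 * D) := by
      calc n * (3 * D) = 3 * (D * n) := by ring
        _ ≤ 4 * (I * (n + 8 * D)) := h4
        _ ≤ 4 * (I * (9 * D)) := Nat.mul_le_mul_left _ (Nat.mul_le_mul_left _ (by omega))
        _ = _ := by ring
    exact Nat.le_of_mul_le_mul_right h6 (by omega)
  refine ⟨a, ?_⟩
  have h6 : ((ball k (36 * h0)).image (ev a)) = univ := by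
    rw [eq_univ_iff_forall]
    intro x
    obtain ⟨v, hv1, hv2⟩ := diam a (mem_filter.1 haT).2 h5 x
    rw [mem_image]
    exact ⟨v, mem_ball.2 (by omega), hv2⟩
  rw [h6, card_univ, ZMod.card]

theorem dense {n m h : ℕ} (hm : 1 ≤ m) (hmn : m ≤ n) (hh : 36 ≤ h)
    (hc : 2 * n ≤ cc (h / 36) m) : nuPM n m h = n := by
  obtain ⟨k, rfl⟩ : ∃ k, m = k + 1 := ⟨m - 1, by omega⟩
  have hn : 1 ≤ n := by omega
  have h0 : 1 ≤ h / 36 := by omega
  have h1 := card_sph_le k (h / 36)
  rw [card_sph h0] at h1
  have hD : n ≤ (ball k (h / 36)).card := by omega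
  have hup := nuPM_le (n := n) (h := h) hn hmn (by omega)
  suffices hs : ∃ a : Fin k → ZMod n, n ≤ ((ball k h).image (ev a)).card by
    obtain ⟨a, ha⟩ := hs
    have h2 := card_image_ball_le (h := h) hmn a
    have h3 : nuPM n (k + 1) h ≤ n := hup.trans (min_le_left _ _)
    omega
  have hsub : ∀ g, g ≤ h → ball k g ⊆ ball k h := by
    intro g hg v hv
    rw [mem_ball] at *
    omega
  rcases Nat.lt_or_ge k 3 with hk | hk
  · interval_cases k
    · obtain ⟨a, ha⟩ := exists_zero (n := n) h
      refine ⟨a, ?_⟩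
      have h3 : (ball 0 (h / 36)).card = 1 := by rw [card_ball]; simp
      have h4 : (ball 0 h).card = 1 := by rw [card_ball]; simp
      omega
    · obtain ⟨a, ha⟩ := exists_one hn h
      refine ⟨a, ?_⟩
      have h3 := card_le_card (hsub (h / 36) (by omega))
      omega
    · obtain ⟨a, ha⟩ := exists_two' hn h
      refine ⟨a, ?_⟩
      rw [card_ball_two] at hD
      set g := h / 36 with hg
      have h3 : 36 * g ≤ h := by omega
      have h4 : 2 * g * g + 2 * g + 1 ≤ h * (h + 2) := by nlinarith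
      omega
  · obtain ⟨a, ha⟩ := exists_full hn hk h0 hD
    refine ⟨a, ha.trans (card_le_card (image_subset_image (hsub _ (by omega))))⟩

end Pool.Agent.SGN
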