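import Pool.Agent.SGN.Defs

/-!
# Signed sumsets: the number of solutions of a linear equation, the second moment
-/

set_option autoImplicit false

namespace Pool.Agent.SGN

open Finset

/-- evaluation as a homomorphism -/
def evHom {k n : ℕ} (δ : Fin k → ℤ) : (Fin k → ZMod n) →+ ZMod n where
  toFun a := ev a δ
  map_zero' := by
    unfold ev
    simp
  map_add' a b := by
    unfold ev
    rw [← sum_add_distrib]
    refine sum_congr rfl fun i _ => ?_
    rw [Pi.add_apply, mul_add]

theorem exists_bezout {k : ℕ} (δ : Fin k → ℤ) : ∃ u : Fin k → ℤ, ∑ i, u i * δ i = (cont δ : ℤ) := by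
  obtain ⟨g, hg⟩ := (IsPrincipalIdealRing.principal (Ideal.span (Set.range δ))).principal
  have hg' : Ideal.span (Set.range δ) = Ideal.span {g} := hg
  have h1 : ∀ i, g ∣ δ i := by
    intro i
    rw [← Ideal.mem_span_singleton, ← hg']
    exact Ideal.subset_span ⟨i, rfl⟩
  have h2 : g ∣ (cont δ : ℤ) := by
    rw [Int.dvd_natCast]
    refine dvd_gcd fun i _ => ?_
    exact Int.natAbs_dvd_natAbs.2 (h1 i)
  have h3 : (cont δ : ℤ) ∈ Ideal.span (Set.range δ) := by
    rw [hg', Ideal.mem_span_singleton]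
    exact h2
  rw [Ideal.mem_span_range_iff_exists_fun] at h3
  exact h3

theorem card_ker {k n : ℕ} [NeZero n] (δ : Fin k → ℤ) :
    (univ.filter fun a : Fin k → ZMod n => ev a δ = 0).card * n ≤ n ^ k * Nat.gcd n (cont δ) := by
  have hn : n ≠ 0 := NeZero.ne n
  have h1 : Nat.card (evHom (n := n) δ).ker * Nat.card (evHom (n := n) δ).range = n ^ k := by
    have h2 := AddSubgroup.card_mul_index (evHom (n := n) δ).ker
    rw [AddSubgroup.index_ker] at h2
    rw [h2, Nat.card_eq_fintype_card, Fintype.card_fun, ZMod.card, Fintype.card_fin]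
  have h2 : (univ.filter fun a : Fin k → ZMod n => ev a δ = 0).card =
      Nat.card (evHom (n := n) δ).ker := by
    rw [Nat.card_eq_fintype_card, Fintype.card_subtype]
    congr 1
    ext a
    rw [mem_filter, mem_filter]
    exact Iff.rfl
  have h3 : n / Nat.gcd n (cont δ) ≤ Nat.card (evHom (n := n) δ).range := by
    have h4 : ((cont δ : ℕ) : ZMod n) ∈ (evHom (n := n) δ).range := by
      obtain ⟨u, hu⟩ := exists_bezout δ
      refine ⟨fun i => (u i : ZMod n), ?_⟩
      have h5 : (((∑ i, u i * δ i : ℤ)) : ZMod n) = ((cont δ : ℕ) : ZMod n) := by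
        rw [hu]
        push_cast
        rfl
      rw [← h5]
      show ∑ i, (δ i : ZMod n) * (u i : ZMod n) = _
      push_cast
      exact sum_congr rfl fun i _ => mul_comm _ _
    have h5 := Nat.card_le_card_of_injective _
      (AddSubgroup.inclusion_injective ((AddSubgroup.zmultiples_le).2 h4))
    rw [Nat.card_zmultiples, ZMod.addOrderOf_coe _ hn] at h5
    exact h5
  rw [h2]
  have h4 : Nat.gcd n (cont δ) ∣ n := Nat.gcd_dvd_left _ _
  calc Nat.card (evHom (n := n) δ).ker * n
      = Nat.card (evHom (n := n) δ).ker * (n / Nat.gcd n (cont δ) * Nat.gcd n (cont δ)) := by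
        rw [Nat.div_mul_cancel h4]
    _ = Nat.card (evHom (n := n) δ).ker * (n / Nat.gcd n (cont δ)) * Nat.gcd n (cont δ) := by
        rw [mul_assoc]
    _ ≤ Nat.card (evHom (n := n) δ).ker * Nat.card (evHom (n := n) δ).range *
          Nat.gcd n (cont δ) := Nat.mul_le_mul_right _ (Nat.mul_le_mul_left _ h3)
    _ = _ := by rw [h1]

/-- the number of pairs with equal values -/
def en {k n : ℕ} (S : Finset (Fin k → ℤ)) (a : Fin k → ZMod n) : ℕ :=
  ((S ×ˢ S).filter fun p => ev a p.1 = ev a p.2).card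

theorem en_eq {k n : ℕ} (S : Finset (Fin k → ℤ)) (a : Fin k → ZMod n) :
    en S a = ∑ x ∈ S.image (ev a), (S.filter fun v => ev a v = x).card ^ 2 := by
  unfold en
  rw [card_eq_sum_card_fiberwise (f := fun p => ev a p.1) (t := S.image (ev a))]
  · refine sum_congr rfl fun x _ => ?_
    rw [sq, ← card_product]
    congr 1
    ext p
    rw [mem_filter, mem_filter, mem_product, mem_product, mem_filter, mem_filter]
    constructor
    · rintro ⟨⟨⟨h1, h2⟩, h3⟩, h4⟩
      exact ⟨⟨h1, h4⟩, h2, h3 ▸ h4⟩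
    · rintro ⟨⟨h1, h4⟩, h2, h3⟩
      exact ⟨⟨⟨h1, h2⟩, h4.trans h3.symm⟩, h4⟩
  · intro p hp
    have hp' : p ∈ (S ×ˢ S).filter fun p => ev a p.1 = ev a p.2 := hp
    rw [mem_filter, mem_product] at hp'
    exact mem_coe.2 (mem_image_of_mem _ hp'.1.1)

theorem cauchy {k n : ℕ} (S : Finset (Fin k → ℤ)) (a : Fin k → ZMod n) :
    S.card ^ 2 ≤ (S.image (ev a)).card * en S a := by
  rw [en_eq]
  have h1 : S.card = ∑ x ∈ S.image (ev a), (S.filter fun v => ev a v = x).card :=
    card_eq_sum_card_fiberwise fun v hv => mem_coe.2 (mem_image_of_mem _ hv)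
  conv_lhs => rw [h1]
  exact sq_sum_le_card_mul_sum_sq

theorem sum_en {k n : ℕ} [NeZero n] (S : Finset (Fin k → ℤ)) :
    (∑ a : Fin k → ZMod n, en S a) * n ≤ n ^ k * (n * S.card +
      ∑ p ∈ (S ×ˢ S).filter (fun p => p.1 ≠ p.2), Nat.gcd n (cont (p.1 - p.2))) := by
  have h1 : ∑ a : Fin k → ZMod n, en S a = ∑ p ∈ S ×ˢ S,
      (univ.filter fun a : Fin k → ZMod n => ev a (p.1 - p.2) = 0).card := by
    unfold en
    simp only [card_filter]
    rw [sum_comm]
    refine sum_congr rfl fun p _ => sum_congr rfl fun a _ => ?_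
    by_cases h : ev a p.1 = ev a p.2
    · rw [if_pos h, if_pos (by rw [ev_sub, sub_eq_zero]; exact h)]
    · rw [if_neg h, if_neg (by rw [ev_sub, sub_eq_zero]; exact h)]
  rw [h1, ← sum_filter_add_sum_filter_not (S ×ˢ S) (fun p => p.1 ≠ p.2), add_mul, mul_add, add_comm]
  refine add_le_add ?_ ?_
  · have h2 : ∀ p ∈ (S ×ˢ S).filter (fun p => ¬ p.1 ≠ p.2),
        (univ.filter fun a : Fin k → ZMod n => ev a (p.1 - p.2) = 0).card ≤ n ^ k := by
      intro p _
      refine (card_le_univ _).trans ?_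
      rw [Fintype.card_fun, ZMod.card, Fintype.card_fin]
    have h3 := sum_le_card_nsmul _ _ _ h2
    have h4 : ((S ×ˢ S).filter (fun p => ¬ p.1 ≠ p.2)).card ≤ S.card := by
      refine card_le_card_of_injOn (fun p => p.1) ?_ ?_
      · intro p hp
        have hp' : p ∈ (S ×ˢ S).filter fun p => ¬ p.1 ≠ p.2 := hp
        rw [mem_filter, mem_product] at hp'
        exact hp'.1.1
      · intro p hp q hq hpq
        have hp' : p ∈ (S ×ˢ S).filter fun p => ¬ p.1 ≠ p.2 := hp
        have hq' : q ∈ (S ×ˢ S).filter fun p => ¬ p.1 ≠ p.2 := hq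
        have h5 := not_not.1 (mem_filter.1 hp').2
        have h6 := not_not.1 (mem_filter.1 hq').2
        have h7 : p.1 = q.1 := hpq
        exact Prod.ext h7 (by rw [← h5, ← h6, h7])
    calc _ ≤ (((S ×ˢ S).filter (fun p => ¬ p.1 ≠ p.2)).card • n ^ k) * n :=
          Nat.mul_le_mul_right _ h3
      _ ≤ (S.card * n ^ k) * n := by
          rw [smul_eq_mul]
          exact Nat.mul_le_mul_right _ (Nat.mul_le_mul_right _ h4)
      _ = _ := by ring
  · rw [sum_mul, mul_sum]
    exact sum_le_sum fun p _ => card_ker _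

/-- some `a` in `T` has few coincidences -/
theorem exists_good {k n : ℕ} [NeZero n] (S : Finset (Fin k → ℤ)) (T : Finset (Fin k → ZMod n))
    (hT : T.Nonempty) : ∃ a ∈ T, S.card ^ 2 * (T.card * n) ≤
      (S.image (ev a)).card * (n ^ k * (n * S.card +
      ∑ p ∈ (S ×ˢ S).filter (fun p => p.1 ≠ p.2), Nat.gcd n (cont (p.1 - p.2)))) := by
  obtain ⟨a, ha, hmin⟩ := exists_min_image T (fun a => en S a) hT
  refine ⟨a, ha, ?_⟩
  have h1 : T.card * en S a ≤ ∑ a : Fin k → ZMod n, en S a := by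
    refine le_trans ?_ (sum_le_sum_of_subset (subset_univ T))
    rw [← smul_eq_mul]
    exact card_nsmul_le_sum _ _ _ hmin
  calc S.card ^ 2 * (T.card * n) ≤ ((S.image (ev a)).card * en S a) * (T.card * n) :=
        Nat.mul_le_mul_right _ (cauchy S a)
    _ = (S.image (ev a)).card * ((T.card * en S a) * n) := by ring
    _ ≤ (S.image (ev a)).card * ((∑ a : Fin k → ZMod n, en S a) * n) :=
        Nat.mul_le_mul_left _ (Nat.mul_le_mul_right _ h1)
    _ ≤ _ := Nat.mul_le_mul_left _ (sum_en S)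

end Pool.Agent.SGN
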