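import Pool.Agent.SGN.Count

/-!
# Signed sumsets: the cases of at most two generators
-/

set_option autoImplicit false

namespace Pool.Agent.SGN

open Finset

theorem consec {n : ℕ} (hn : 1 ≤ n) (M : ℕ) (T : Finset (ZMod n))
    (hT : ∀ j : ℤ, -(M : ℤ) ≤ j → j ≤ M → (j : ZMod n) ∈ T) : min n (2 * M + 1) ≤ T.card := by
  rw [← card_range (min n (2 * M + 1))]
  refine card_le_card_of_injOn (fun j => (((j : ℤ) - M : ℤ) : ZMod n)) ?_ ?_
  · intro j hj
    have hj' : j < min n (2 * M + 1) := mem_range.1 hj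
    have h2 : j < 2 * M + 1 := lt_of_lt_of_le hj' (min_le_right _ _)
    exact hT _ (by omega) (by omega)
  · intro i hi j hj hij
    have hi' : i < n := lt_of_lt_of_le (mem_range.1 hi) (min_le_left _ _)
    have hj' : j < n := lt_of_lt_of_le (mem_range.1 hj) (min_le_left _ _)
    have h1 : (((i : ℤ) - M : ℤ) : ZMod n) = (((j : ℤ) - M : ℤ) : ZMod n) := hij
    rw [ZMod.intCast_eq_intCast_iff_dvd_sub] at h1
    obtain ⟨c, hc⟩ := h1
    have h2 : (n : ℤ) * c = j - i := by rw [← hc]; ring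
    have h3 : c = 0 := by
      by_contra h4
      rcases lt_or_gt_of_ne h4 with h5 | h5
      · have : (n : ℤ) * c ≤ n * (-1) := mul_le_mul_of_nonneg_left (by omega) (by omega)
        omega
      · have : (n : ℤ) * 1 ≤ n * c := mul_le_mul_of_nonneg_left (by omega) (by omega)
        omega
    rw [h3, mul_zero] at h2
    omega

theorem exists_zero {n : ℕ} (h : ℕ) : ∃ a : Fin 0 → ZMod n,
    min n (ball 0 h).card ≤ ((ball 0 h).image (ev a)).card := by
  refine ⟨fun i => i.elim0, ?_⟩
  have h1 : (ball 0 h).card = 1 := by rw [card_ball]; simp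
  have h2 : 0 < ((ball 0 h).image (ev fun i : Fin 0 => (i.elim0 : ZMod n))).card := by
    rw [card_pos]
    refine Nonempty.image ?_ _
    rw [← card_pos, h1]
    norm_num
  rw [h1]
  exact (min_le_right _ _).trans h2

theorem exists_one {n : ℕ} (hn : 1 ≤ n) (h : ℕ) : ∃ a : Fin 1 → ZMod n,
    min n (ball 1 h).card ≤ ((ball 1 h).image (ev a)).card := by
  refine ⟨fun _ => 1, ?_⟩
  have h1 : (ball 1 h).card = 2 * h + 1 := by
    rw [card_ball]
    simp [sum_range_succ]
    ring
  rw [h1]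
  refine consec hn h _ fun j hj1 hj2 => ?_
  rw [mem_image]
  refine ⟨fun _ => j, ?_, ?_⟩
  · rw [mem_ball]
    unfold l1
    rw [Fin.sum_univ_one]
    show j.natAbs ≤ h
    omega
  · unfold ev
    rw [Fin.sum_univ_one, mul_one]

theorem exists_two' {n : ℕ} (hn : 1 ≤ n) (h : ℕ) : ∃ a : Fin 2 → ZMod n,
    min n (h * (h + 2)) ≤ ((ball 2 h).image (ev a)).card := by
  obtain ⟨u, w, huw, h1, h2⟩ : ∃ u w : ℕ, u + w = h ∧ u ≤ w ∧ w ≤ u + 1 :=
    ⟨h / 2, h - h / 2, by omega, by omega, by omega⟩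
  refine ⟨![1, ((2 * u + 1 : ℕ) : ZMod n)], ?_⟩
  have h4 := consec hn (u + (2 * u + 1) * w) ((ball 2 h).image
    (ev ![1, ((2 * u + 1 : ℕ) : ZMod n)])) ?_
  · refine le_trans (min_le_min_left _ ?_) h4
    have h6 : w = u ∨ w = u + 1 := by omega
    rw [← huw]
    rcases h6 with rfl | rfl
    · nlinarith
    · nlinarith
  · intro j hj1 hj2
    rw [mem_image]
    have hpos : (0 : ℤ) < 2 * u + 1 := by omega
    have e1 := Int.emod_nonneg (j + u) hpos.ne'
    have e2 := Int.emod_lt_of_pos (j + u) hpos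
    have e3 := Int.emod_add_mul_ediv (j + u) (2 * u + 1)
    have e4 : (j + u) / (2 * u + 1) ≤ w := by
      rw [← Int.lt_add_one_iff]
      refine Int.ediv_lt_of_lt_mul hpos ?_
      push_cast at hj2
      nlinarith
    have e5 : -(w : ℤ) ≤ (j + u) / (2 * u + 1) := by
      rw [Int.le_ediv_iff_mul_le hpos]
      push_cast at hj1
      nlinarith
    refine ⟨![(j + u) % (2 * u + 1) - u, (j + u) / (2 * u + 1)], ?_, ?_⟩
    · rw [mem_ball]
      unfold l1
      rw [Fin.sum_univ_two]
      simp only [Matrix.cons_val_zero, Matrix.cons_val_one]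
      omega
    · unfold ev
      rw [Fin.sum_univ_two]
      simp only [Matrix.cons_val_zero, Matrix.cons_val_one]
      rw [mul_one]
      have e6 : j = ((j + u) % (2 * u + 1) - u) + (j + u) / (2 * u + 1) * (2 * u + 1) := by
        linarith
      conv_rhs => rw [e6]
      push_cast
      ring

theorem card_ball_two (h : ℕ) : (ball 2 h).card = 2 * h * h + 2 * h + 1 := by
  rw [card_ball]
  have h4 : 2 * h.choose 2 = h * (h - 1) := by
    rw [Nat.choose_two_right]
    exact Nat.mul_div_cancel' (Nat.even_mul_pred_self h).two_dvd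
  rw [sum_range_succ, sum_range_succ, sum_range_succ, sum_range_zero]
  simp only [Nat.choose_zero_right, Nat.choose_one_right, Nat.choose_self]
  have h5 : h * (h - 1) = h * h - h := by rw [Nat.mul_sub, mul_one]
  have h6 : h ≤ h * h := Nat.le_mul_self h
  have h7 : 2 * h * h = 2 * (h * h) := by ring
  rw [h7]
  omega

theorem exists_two {n : ℕ} (hn : 1 ≤ n) {h : ℕ} (hh : 1 ≤ h) : ∃ a : Fin 2 → ZMod n,
    min n (ball 2 h).card ≤ 2 * ((ball 2 h).image (ev a)).card := by
  obtain ⟨a, ha⟩ := exists_two' hn h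
  refine ⟨a, ?_⟩
  have h5 : (ball 2 h).card ≤ 2 * (h * (h + 2)) := by
    rw [card_ball_two]
    nlinarith
  calc min n (ball 2 h).card ≤ min n (2 * (h * (h + 2))) := min_le_min_left _ h5
    _ ≤ 2 * min n (h * (h + 2)) := by omega
    _ ≤ _ := Nat.mul_le_mul_left 2 ha

end Pool.Agent.SGN
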