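import Mathlib

/-!
# Signed sumsets in cyclic groups: the definitions of the statement
-/

set_option autoImplicit false

namespace Pool.Agent.SGN

open Finset

/-- The `h`-fold signed sumset of `A ⊆ ZMod n`: all sums `∑ a ∈ A, c a • a` with integer
coefficients `c a` such that `∑ a ∈ A, |c a| = h`. -/
def signedSumset (n h : ℕ) (A : Finset (ZMod n)) : Set (ZMod n) :=
  {x | ∃ c : ZMod n → ℤ, ∑ a ∈ A, |c a| = (h : ℤ) ∧ ∑ a ∈ A, c a • a = x}

/-- The maximal size of the `h`-fold signed sumset of a set of `m` elements of `ZMod n`. -/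
noncomputable def nuPM (n m h : ℕ) : ℕ :=
  sSup {s | ∃ A : Finset (ZMod n), A.card = m ∧ (signedSumset n h A).ncard = s}

/-- The number `c(h,m) = ∑_{i ≥ 1} C(m,i) C(h-1,i-1) 2^i`. -/
def cc (h m : ℕ) : ℕ := ∑ i ∈ Icc 1 m, m.choose i * (h - 1).choose (i - 1) * 2 ^ i

end Pool.Agent.SGN
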