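import Pool.Agent.SGN.Count
import Pool.Agent.SGN.Stmt

/-!
# Signed sumsets: sphere against ball, upper bound, reduction
-/

set_option autoImplicit false

namespace Pool.Agent.SGN

open Finset

theorem card_sph_le (k h : ℕ) : (sph (k + 1) h).card ≤ 2 * (ball k h).card := by
  have h1 : ∀ w ∈ (sph (k + 1) h).image (fun v : Fin (k + 1) → ℤ => Fin.tail v),
      ((sph (k + 1) h).filter fun v => Fin.tail v = w).card ≤ 2 := by
    intro w _
    have h2 : ((sph (k + 1) h).filter fun v => Fin.tail v = w) ⊆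
        {Fin.cons (((h - l1 w : ℕ) : ℤ)) w, Fin.cons (-((h - l1 w : ℕ) : ℤ)) w} := by
      intro v hv
      rw [mem_filter, mem_sph, l1_tail] at hv
      obtain ⟨h3, h4⟩ := hv
      rw [h4] at h3
      rw [mem_insert, mem_singleton]
      rcases Int.natAbs_eq (v 0) with h5 | h5
      · left
        rw [← Fin.cons_self_tail v, h4, h5]
        congr 2
        omega
      · right
        rw [← Fin.cons_self_tail v, h4, h5]
        congr 3
        omega
    exact (card_le_card h2).trans card_le_two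
  refine (card_le_mul_card_image _ 2 h1).trans ?_
  refine Nat.mul_le_mul_left 2 (card_le_card ?_)
  intro w hw
  rw [mem_image] at hw
  obtain ⟨v, hv, rfl⟩ := hw
  rw [mem_sph, l1_tail] at hv
  rw [mem_ball]
  omega

theorem card_ball_le_sph (k h : ℕ) : (ball k h).card ≤ (sph (k + 1) h).card := by
  refine card_le_card_of_injOn (fun v => (Fin.cons (((h - l1 v : ℕ) : ℤ)) v : Fin (k + 1) → ℤ)) ?_ ?_
  · intro v hv
    have hv' : l1 v ≤ h := mem_ball.1 hv
    show _ ∈ sph (k + 1) h
    rw [mem_sph, l1_cons]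
    omega
  · intro v _ w _ hvw
    have h1 := congrArg (fun u : Fin (k + 1) → ℤ => Fin.tail u) hvw
    exact h1

/-- the signed sumset is the set of the values of the vectors of the sphere -/
theorem signedSumset_eq {n m h : ℕ} (A : Finset (ZMod n)) (e : Fin m ≃ A) :
    signedSumset n h A = ev (fun i => (e i : ZMod n)) '' (sph m h : Set (Fin m → ℤ)) := by
  ext x
  constructor
  · rintro ⟨c, hc, hx⟩
    refine ⟨fun i => c (e i), ?_, ?_⟩
    · show _ ∈ sph m h
      rw [mem_sph]
      unfold l1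
      have h1 : ∑ i, |c (e i)| = (h : ℤ) := by
        rw [← hc, ← sum_coe_sort A]
        exact e.sum_comp fun a => |c a|
      have h2 : ((∑ i, (c (e i)).natAbs : ℕ) : ℤ) = (h : ℤ) := by
        push_cast
        exact h1
      exact_mod_cast h2
    · unfold ev
      rw [← hx, ← sum_coe_sort A]
      rw [← e.sum_comp fun a : A => c a • (a : ZMod n)]
      refine sum_congr rfl fun i _ => ?_
      rw [zsmul_eq_mul]
  · rintro ⟨v, hv, hx⟩
    have hv' : l1 v = h := mem_sph.1 hv
    classical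
    refine ⟨fun a => if ha : a ∈ A then v (e.symm ⟨a, ha⟩) else 0, ?_, ?_⟩
    · rw [← sum_coe_sort A]
      rw [← e.sum_comp fun a : A => |if ha : (a : ZMod n) ∈ A then v (e.symm ⟨a, ha⟩) else 0|]
      rw [← hv']
      unfold l1
      push_cast
      refine sum_congr rfl fun i _ => ?_
      rw [dif_pos (e i).2]
      simp
    · rw [← hx, ← sum_coe_sort A]
      rw [← e.sum_comp fun a : A => (if ha : (a : ZMod n) ∈ A then v (e.symm ⟨a, ha⟩) else 0) •
        (a : ZMod n)]
      unfold ev
      refine sum_congr rfl fun i _ => ?_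
      rw [dif_pos (e i).2, zsmul_eq_mul]
      simp

theorem ncard_le {n m h : ℕ} (hh : 1 ≤ h) (A : Finset (ZMod n)) (hA : A.card = m) :
    (signedSumset n h A).ncard ≤ cc h m := by
  have e : Fin m ≃ A := (Fintype.equivFinOfCardEq (by rw [Fintype.card_coe, hA])).symm
  rw [signedSumset_eq A e, ← card_sph hh]
  refine (Set.ncard_image_le (Finset.finite_toSet _)).trans ?_
  rw [Set.ncard_coe_finset]

theorem ncard_le_n {n h : ℕ} (hn : 1 ≤ n) (A : Finset (ZMod n)) :
    (signedSumset n h A).ncard ≤ n := by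
  have : NeZero n := ⟨by omega⟩
  have h1 := Set.ncard_le_ncard (Set.subset_univ (signedSumset n h A)) Set.finite_univ
  rw [Set.ncard_univ, Nat.card_zmod] at h1
  exact h1

theorem nuPM_bdd {n m h : ℕ} (hn : 1 ≤ n) : BddAbove {s | ∃ A : Finset (ZMod n), A.card = m ∧
    (signedSumset n h A).ncard = s} := by
  refine ⟨n, ?_⟩
  rintro s ⟨A, _, rfl⟩
  exact ncard_le_n hn A

theorem le_nuPM {n m h : ℕ} (hn : 1 ≤ n) (A : Finset (ZMod n)) (hA : A.card = m) :
    (signedSumset n h A).ncard ≤ nuPM n m h :=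
  le_csSup (nuPM_bdd hn) ⟨A, hA, rfl⟩

theorem nuPM_le {n m h : ℕ} (hn : 1 ≤ n) (hm : m ≤ n) (hh : 1 ≤ h) :
    nuPM n m h ≤ min n (cc h m) := by
  have : NeZero n := ⟨by omega⟩
  obtain ⟨A, _, hA⟩ := exists_subset_card_eq (s := (univ : Finset (ZMod n))) (n := m)
    (by rw [card_univ, ZMod.card]; exact hm)
  refine csSup_le ⟨_, A, hA, rfl⟩ ?_
  rintro s ⟨B, hB, rfl⟩
  exact le_min (ncard_le_n hn B) (ncard_le hh B hB)

/-- the vectors of the sphere at an injective `a` -/
theorem card_image_sph_le {n m h : ℕ} (hn : 1 ≤ n) (a : Fin m → ZMod n) (ha : Function.Injective a) :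
    ((sph m h).image (ev a)).card ≤ nuPM n m h := by
  classical
  set A : Finset (ZMod n) := univ.image a with hA
  have hA1 : A.card = m := by rw [hA, card_image_of_injective _ ha, card_univ, Fintype.card_fin]
  let e : Fin m ≃ A := Equiv.ofBijective (fun i => (⟨a i, mem_image_of_mem a (mem_univ i)⟩ : A)) (by
    constructor
    · intro i j hij
      exact ha (congrArg Subtype.val hij)
    · rintro ⟨x, hx⟩
      obtain ⟨i, _, hi⟩ := mem_image.1 hx
      exact ⟨i, Subtype.ext hi⟩)
  have h1 := le_nuPM (h := h) hn A hA1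
  rw [signedSumset_eq A e] at h1
  have h2 : (fun i => (e i : ZMod n)) = a := rfl
  rw [h2, ← coe_image, Set.ncard_coe_finset] at h1
  exact h1

/-- the vectors of the ball at any `a` -/
theorem card_image_ball_le {n k h : ℕ} (hk : k + 1 ≤ n) (a : Fin k → ZMod n) :
    ((ball k h).image (ev a)).card ≤ nuPM n (k + 1) h := by
  classical
  have : NeZero n := ⟨by omega⟩
  have hcard : (insert (0 : ZMod n) (univ.image a)).card ≤ k + 1 := by
    refine (card_insert_le _ _).trans ?_
    have := card_image_le (s := (univ : Finset (Fin k))) (f := a)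
    rw [card_univ, Fintype.card_fin] at this
    omega
  obtain ⟨A, hA1, _, hA2⟩ := exists_subsuperset_card_eq (subset_univ (insert (0 : ZMod n) (univ.image a)))
    hcard (by rw [card_univ, ZMod.card]; exact hk)
  refine le_trans ?_ (le_nuPM (by omega) A hA2)
  rw [← Set.ncard_coe_finset]
  refine Set.ncard_le_ncard ?_ (Set.toFinite _)
  intro x hx
  rw [coe_image] at hx
  obtain ⟨v, hv, rfl⟩ := hx
  have hv' : l1 v ≤ h := mem_ball.1 hv
  have h0 : (0 : ZMod n) ∈ A := hA1 (mem_insert_self _ _)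
  have hai : ∀ i, a i ∈ A := fun i => hA1 (mem_insert_of_mem (mem_image_of_mem a (mem_univ i)))
  -- the coefficients
  set d : ZMod n → ℤ := fun b => ∑ i ∈ univ.filter (fun i => a i = b), v i with hd
  have hsum : ∑ b ∈ A, |d b| ≤ (h : ℤ) := by
    have h1 : ∑ b ∈ A, |d b| ≤ ∑ b ∈ A, ∑ i ∈ univ.filter (fun i => a i = b), |v i| :=
      sum_le_sum fun b _ => abs_sum_le_sum_abs _ _
    rw [sum_fiberwise_of_maps_to (fun i _ => hai i)] at h1
    refine h1.trans ?_
    have h2 : ((l1 v : ℕ) : ℤ) ≤ (h : ℤ) := by exact_mod_cast hv'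
    unfold l1 at h2
    push_cast at h2
    exact h2
  have hsplit : ∑ b ∈ A, |d b| = |d 0| + ∑ b ∈ A.erase 0, |d b| := (add_sum_erase A _ h0).symm
  have h3 : ∑ b ∈ A.erase 0, |d b| ≤ (h : ℤ) := by
    have := abs_nonneg (d 0)
    omega
  obtain ⟨c, hc0, hcb⟩ : ∃ c : ZMod n → ℤ, c 0 = (h : ℤ) - ∑ b ∈ A.erase 0, |d b| ∧
      ∀ b, b ≠ 0 → c b = d b :=
    ⟨fun b => if b = 0 then (h : ℤ) - ∑ b ∈ A.erase 0, |d b| else d b, if_pos rfl,
      fun b hb => if_neg hb⟩
  refine ⟨c, ?_, ?_⟩
  · rw [← add_sum_erase A _ h0, hc0, abs_of_nonneg (by omega)]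
    have h5 : ∑ b ∈ A.erase 0, |c b| = ∑ b ∈ A.erase 0, |d b| :=
      sum_congr rfl fun b hb => by rw [hcb b (ne_of_mem_erase hb)]
    rw [h5]
    ring
  · rw [← add_sum_erase A _ h0, smul_zero, zero_add]
    rw [sum_congr rfl (g := fun b => d b • b)]
    · have h4 : ∑ b ∈ A, d b • b = ev a v := by
        unfold ev
        rw [← sum_fiberwise_of_maps_to (fun i _ => hai i)]
        refine sum_congr rfl fun b _ => ?_
        rw [hd, sum_smul]
        refine sum_congr rfl fun i hi => ?_
        rw [zsmul_eq_mul, (mem_filter.1 hi).2]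
      rw [← h4, ← add_sum_erase A _ h0, smul_zero, zero_add]
    · intro b hb
      rw [hcb b (ne_of_mem_erase hb)]

end Pool.Agent.SGN
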