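import Pool.Agent.SGN.Total
import Pool.Agent.SGN.Kernel
import Pool.Agent.SGN.Upper
import Pool.Agent.SGN.Small

/-!
# Signed sumsets: the lower bounds
-/

set_option autoImplicit false

namespace Pool.Agent.SGN

open Finset

theorem card_fib (k h : ℕ) (w : Fin k → ℤ) :
    ((sph (k + 1) h).filter fun v => Fin.tail v = w).card ≤ 2 := by
  have h2 : ((sph (k + 1) h).filter fun v => Fin.tail v = w) ⊆
      {Fin.cons (((h - l1 w : ℕ) : ℤ)) w, Fin.cons (-((h - l1 w : ℕ) : ℤ)) w} := by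
    intro v hv
    rw [mem_filter, mem_sph, l1_tail] at hv
    obtain ⟨h3, h4⟩ := hv
    rw [h4] at h3
    rw [mem_insert, mem_singleton]
    rcases Int.natAbs_eq (v 0) with h5 | h5
    · left
      rw [← Fin.cons_self_tail v, h4, h5]
      congr 2
      omega
    · right
      rw [← Fin.cons_self_tail v, h4, h5]
      congr 3
      omega
  exact (card_le_card h2).trans card_le_two

theorem cont_tail {k : ℕ} (δ : Fin (k + 1) → ℤ) : cont δ ∣ cont (Fin.tail δ) :=
  dvd_gcd fun i _ => gcd_dvd (mem_univ i.succ)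

theorem sph_pairs {k n : ℕ} (hk : 3 ≤ k) (h : ℕ) :
    ∑ p ∈ (sph (k + 1) h ×ˢ sph (k + 1) h).filter (fun p => p.1 ≠ p.2),
      Nat.gcd n (cont (p.1 - p.2)) ≤ 33 * (ball k h).card ^ 2 := by
  classical
  set S := sph (k + 1) h with hS
  set B := ball k h with hB
  have hmaps : ∀ v ∈ S, Fin.tail v ∈ B := by
    intro v hv
    rw [hS, mem_sph, l1_tail] at hv
    rw [hB, mem_ball]
    omega
  have hfib : ∀ q ∈ B ×ˢ B, ∑ p ∈ (S ×ˢ S).filter (fun p => p.1 ≠ p.2) with
      (Fin.tail p.1, Fin.tail p.2) = q, Nat.gcd n (cont (p.1 - p.2)) ≤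
      if q.1 = q.2 then 4 * h else 4 * cont (q.1 - q.2) := by
    intro q _
    have hsub : ((S ×ˢ S).filter (fun p => p.1 ≠ p.2)).filter
        (fun p => (Fin.tail p.1, Fin.tail p.2) = q) ⊆
        (S.filter fun v => Fin.tail v = q.1) ×ˢ (S.filter fun v => Fin.tail v = q.2) := by
      intro p hp
      rw [mem_filter, mem_filter, mem_product] at hp
      rw [mem_product, mem_filter, mem_filter]
      exact ⟨⟨hp.1.1.1, congrArg Prod.fst hp.2⟩, ⟨hp.1.1.2, congrArg Prod.snd hp.2⟩⟩
    by_cases hq : q.1 = q.2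
    · rw [if_pos hq]
      have h1 : ∀ p ∈ ((S ×ˢ S).filter (fun p => p.1 ≠ p.2)).filter
          (fun p => (Fin.tail p.1, Fin.tail p.2) = q), Nat.gcd n (cont (p.1 - p.2)) ≤ 2 * h := by
        intro p hp
        rw [mem_filter, mem_filter, mem_product] at hp
        have e1 : p.1 - p.2 ≠ 0 := sub_ne_zero.2 hp.1.2
        have e2 := cont_pos e1
        refine (Nat.le_of_dvd e2 (Nat.gcd_dvd_right _ _)).trans ?_
        obtain ⟨i, hi⟩ : ∃ i, (p.1 - p.2) i ≠ 0 := by
          by_contra hc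
          push Not at hc
          exact e1 (funext hc)
        refine (cont_le hi).trans ((natAbs_le_l1 _ i).trans ?_)
        have e3 := l1_sub_le p.1 p.2
        have e4 := mem_sph.1 hp.1.1.1
        have e5 := mem_sph.1 hp.1.1.2
        omega
      refine (sum_le_card_nsmul _ _ _ h1).trans ?_
      rw [smul_eq_mul]
      have h2 : (((S ×ˢ S).filter (fun p => p.1 ≠ p.2)).filter
          (fun p => (Fin.tail p.1, Fin.tail p.2) = q)).card ≤ 2 := by
        have h3 : ((S ×ˢ S).filter (fun p => p.1 ≠ p.2)).filter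
            (fun p => (Fin.tail p.1, Fin.tail p.2) = q) ⊆
            (S.filter fun v => Fin.tail v = q.1).offDiag := by
          intro p hp
          have h4 := hsub hp
          rw [mem_product, ← hq] at h4
          rw [mem_filter, mem_filter] at hp
          rw [mem_offDiag]
          exact ⟨h4.1, h4.2, hp.1.2⟩
        refine (card_le_card h3).trans ?_
        rw [offDiag_card]
        have h5 := card_fib k h q.1
        rw [← hS] at h5
        interval_cases hc : (S.filter fun v => Fin.tail v = q.1).card <;> omega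
      calc _ ≤ 2 * (2 * h) := Nat.mul_le_mul_right _ h2
        _ = _ := by ring
    · rw [if_neg hq]
      have h1 : ∀ p ∈ ((S ×ˢ S).filter (fun p => p.1 ≠ p.2)).filter
          (fun p => (Fin.tail p.1, Fin.tail p.2) = q), Nat.gcd n (cont (p.1 - p.2)) ≤
          cont (q.1 - q.2) := by
        intro p hp
        rw [mem_filter] at hp
        refine Nat.le_of_dvd (cont_pos (sub_ne_zero.2 hq)) ?_
        refine (Nat.gcd_dvd_right _ _).trans ((cont_tail _).trans (dvd_of_eq ?_))
        rw [← hp.2]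
        rfl
      refine (sum_le_card_nsmul _ _ _ h1).trans ?_
      rw [smul_eq_mul]
      refine Nat.mul_le_mul_right _ ((card_le_card hsub).trans ?_)
      rw [card_product]
      have h5 := card_fib k h q.1
      have h6 := card_fib k h q.2
      exact Nat.mul_le_mul h5 h6
  have hmt : ∀ p ∈ (S ×ˢ S).filter (fun p => p.1 ≠ p.2), (Fin.tail p.1, Fin.tail p.2) ∈ B ×ˢ B := by
    intro p hp
    rw [mem_filter, mem_product] at hp
    exact mem_product.2 ⟨hmaps _ hp.1.1, hmaps _ hp.1.2⟩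
  rw [← sum_fiberwise_of_maps_to hmt]
  refine (sum_le_sum hfib).trans ?_
  have h1 : ∑ q ∈ B ×ˢ B, (if q.1 = q.2 then 4 * h else 4 * cont (q.1 - q.2)) =
      ∑ q ∈ (B ×ˢ B).filter (fun q => q.1 = q.2), 4 * h +
      4 * ∑ q ∈ (B ×ˢ B).filter (fun q => q.1 ≠ q.2), cont (q.1 - q.2) := by
    rw [sum_ite, mul_sum]
  rw [h1, sum_const, smul_eq_mul]
  have h2 : ((B ×ˢ B).filter (fun q => q.1 = q.2)).card = B.card := by
    rw [← diag_card B]
    congr 1
    ext q
    rw [mem_filter, mem_product, mem_diag]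
    constructor
    · rintro ⟨⟨e1, _⟩, e3⟩
      exact ⟨e1, e3⟩
    · rintro ⟨e1, e3⟩
      exact ⟨⟨e1, e3 ▸ e1⟩, e3⟩
  have h3 := total_pairs hk h
  have h4 := card_ball_ge hk h
  rw [← hB] at h4
  have h5 : 4 * h ≤ B.card := by
    have h6 : 4 * h ≤ 2 * k * h := Nat.mul_le_mul_right _ (by omega)
    omega
  have h6 : B.card * (4 * h) ≤ B.card * B.card := Nat.mul_le_mul_left _ h5
  rw [h2]
  rw [← hB] at h3
  rw [sq] at h3 ⊢
  omega

/-- ball sums with `k` generators -/
theorem exists_ball {n : ℕ} (hn : 1 ≤ n) (k : ℕ) {h : ℕ} (hh : 1 ≤ h) : ∃ a : Fin k → ZMod n,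
    min n (ball k h).card ≤ 9 * ((ball k h).image (ev a)).card := by
  have : NeZero n := ⟨by omega⟩
  rcases Nat.lt_or_ge k 3 with hk | hk
  · interval_cases k
    · obtain ⟨a, ha⟩ := exists_zero (n := n) h
      exact ⟨a, by omega⟩
    · obtain ⟨a, ha⟩ := exists_one hn h
      exact ⟨a, by omega⟩
    · obtain ⟨a, ha⟩ := exists_two hn hh
      exact ⟨a, by omega⟩
  · obtain ⟨a, -, ha⟩ := exists_good (n := n) (ball k h) univ univ_nonempty
    refine ⟨a, ?_⟩
    have h1 : (univ : Finset (Fin k → ZMod n)).card = n ^ k := by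
      rw [card_univ, Fintype.card_fun, ZMod.card, Fintype.card_fin]
    have h2 : ∑ p ∈ (ball k h ×ˢ ball k h).filter (fun p => p.1 ≠ p.2),
        Nat.gcd n (cont (p.1 - p.2)) ≤ 8 * (ball k h).card ^ 2 := by
      refine le_trans (sum_le_sum fun p hp => ?_) (total_pairs hk h)
      exact Nat.le_of_dvd (cont_pos (sub_ne_zero.2 (mem_filter.1 hp).2)) (Nat.gcd_dvd_right _ _)
    rw [h1] at ha
    set D := (ball k h).card with hD
    set I := ((ball k h).image (ev a)).card with hI
    have hnk : 0 < n ^ k := Nat.pos_of_ne_zero (pow_ne_zero _ (by omega))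
    have hDpos : 0 < D := by
      have := card_ball_ge hk h
      omega
    have h3 : (n ^ k * D) * (D * n) ≤ (n ^ k * D) * (I * (n + 8 * D)) := by
      calc (n ^ k * D) * (D * n) = D ^ 2 * (n ^ k * n) := by ring
        _ ≤ I * (n ^ k * (n * D + 8 * D ^ 2)) :=
            ha.trans (Nat.mul_le_mul_left _ (Nat.mul_le_mul_left _ (Nat.add_le_add_left h2 _)))
        _ = _ := by ring
    have h4 : D * n ≤ I * (n + 8 * D) :=
      Nat.le_of_mul_le_mul_left h3 (Nat.mul_pos hnk hDpos)
    rcases le_total D n with h5 | h5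
    · rw [min_eq_right h5]
      have h6 : D * n ≤ (9 * I) * n := by
        calc D * n ≤ I * (n + 8 * D) := h4
          _ ≤ I * (9 * n) := Nat.mul_le_mul_left _ (by omega)
          _ = _ := by ring
      exact Nat.le_of_mul_le_mul_right h6 (by omega)
    · rw [min_eq_left h5]
      have h6 : n * D ≤ (9 * I) * D := by
        calc n * D = D * n := mul_comm _ _
          _ ≤ I * (n + 8 * D) := h4
          _ ≤ I * (9 * D) := Nat.mul_le_mul_left _ (by omega)
          _ = _ := by ring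
      exact Nat.le_of_mul_le_mul_right h6 hDpos

theorem lower {n m h : ℕ} (hm : 1 ≤ m) (hmn : m ≤ n) (hh : 1 ≤ h) :
    min n (cc h m) ≤ 18 * nuPM n m h := by
  obtain ⟨k, rfl⟩ : ∃ k, m = k + 1 := ⟨m - 1, by omega⟩
  obtain ⟨a, ha⟩ := exists_ball (n := n) (by omega) k hh
  have h1 := card_image_ball_le (h := h) hmn a
  have h2 := card_sph_le k h
  rw [card_sph hh] at h2
  omega

theorem desc {n : ℕ} (m : ℕ) : (n : ℤ) ^ m * ((n : ℤ) - m.choose 2) ≤ n.descFactorial m * n := by
  induction m with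
  | zero => simp
  | succ m ih =>
    rw [Nat.choose_succ_succ m 1, Nat.choose_one_right]
    rw [Nat.descFactorial_succ]
    push_cast
    have hn : (0 : ℤ) ≤ n := Int.natCast_nonneg n
    have hc : (0 : ℤ) ≤ (m.choose 2 : ℕ) := Int.natCast_nonneg _
    have hp : (0 : ℤ) ≤ (n : ℤ) ^ m := pow_nonneg hn m
    have hd : (0 : ℤ) ≤ (n.descFactorial m : ℤ) := Int.natCast_nonneg _
    rcases le_total m n with h1 | h1
    · rw [Nat.cast_sub h1]
      have h2 : (0 : ℤ) ≤ (n : ℤ) - m := by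
        have : (m : ℤ) ≤ n := by exact_mod_cast h1
        omega
      calc (n : ℤ) ^ (m + 1) * (n - (m + (m.choose 2 : ℕ)))
          = (n : ℤ) ^ m * ((n - m) * (n - (m.choose 2 : ℕ))) - (n : ℤ) ^ m * (m * (m.choose 2 : ℕ)) := by ring
        _ ≤ (n : ℤ) ^ m * ((n - m) * (n - (m.choose 2 : ℕ))) := by
            have : (0 : ℤ) ≤ (n : ℤ) ^ m * (m * (m.choose 2 : ℕ)) :=
              mul_nonneg hp (mul_nonneg (Int.natCast_nonneg _) hc)
            omega
        _ = (n - m) * ((n : ℤ) ^ m * (n - (m.choose 2 : ℕ))) := by ring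
        _ ≤ (n - m) * (n.descFactorial m * n) := mul_le_mul_of_nonneg_left ih h2
        _ = _ := by ring
    · have h2 : (n : ℤ) - (m + (m.choose 2 : ℕ)) ≤ 0 := by
        have : (n : ℤ) ≤ m := by exact_mod_cast h1
        omega
      have h3 : (n : ℤ) ^ (m + 1) * (n - (m + (m.choose 2 : ℕ))) ≤ 0 :=
        mul_nonpos_of_nonneg_of_nonpos (pow_nonneg hn _) h2
      refine h3.trans ?_
      have h4 : (0 : ℤ) ≤ ((n - m : ℕ) : ℤ) := Int.natCast_nonneg _
      exact mul_nonneg (mul_nonneg h4 hd) hn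

theorem cc_ge {h m : ℕ} (hh : 2 ≤ h) (hm : 2 ≤ m) : 4 * m.choose 2 ≤ cc h m := by
  unfold cc
  have h1 : ({2} : Finset ℕ) ⊆ Icc 1 m := by
    rw [singleton_subset_iff, mem_Icc]
    omega
  refine le_trans ?_ (sum_le_sum_of_subset h1)
  rw [sum_singleton]
  have h2 : (h - 1).choose (2 - 1) = h - 1 := Nat.choose_one_right _
  rw [h2]
  have h3 : m.choose 2 * 1 ≤ m.choose 2 * (h - 1) := Nat.mul_le_mul_left _ (by omega)
  omega

theorem sharp {n m h : ℕ} (hm : 4 ≤ m) (hmn : m ≤ n) (hh : 2 ≤ h) :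
    cc h m * n ≤ (n + 45 * cc h m) * nuPM n m h := by
  have : NeZero n := ⟨by omega⟩
  rcases le_total (cc h m) n with hc | hc
  swap
  · have h1 := lower (n := n) (m := m) (h := h) (by omega) hmn (by omega)
    rw [min_eq_left hc] at h1
    calc cc h m * n ≤ cc h m * (18 * nuPM n m h) := Nat.mul_le_mul_left _ h1
      _ = (18 * cc h m) * nuPM n m h := by ring
      _ ≤ _ := Nat.mul_le_mul_right _ (by omega)
  classical
  obtain ⟨k, rfl⟩ : ∃ k, m = k + 1 := ⟨m - 1, by omega⟩
  have hk : 3 ≤ k := by omega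
  set T : Finset (Fin (k + 1) → ZMod n) := univ.filter Function.Injective with hT
  have hTcard : T.card = n.descFactorial (k + 1) := by
    rw [hT, ← Fintype.card_subtype,
      Fintype.card_congr (Equiv.subtypeInjectiveEquivEmbedding (Fin (k + 1)) (ZMod n)),
      Fintype.card_embedding_eq, ZMod.card, Fintype.card_fin]
  have hTne : T.Nonempty := by
    rw [← card_pos, hTcard]
    exact Nat.descFactorial_pos.2 hmn
  obtain ⟨a, haT, ha⟩ := exists_good (n := n) (sph (k + 1) h) T hTne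
  have h1 := card_image_sph_le (h := h) (by omega) a (mem_filter.1 haT).2
  have h2 := sph_pairs (n := n) hk h
  have h3 := card_ball_le_sph k h
  have hcs : (sph (k + 1) h).card = cc h (k + 1) := card_sph (by omega)
  rw [hcs] at ha h3
  rw [hTcard] at ha
  set c := cc h (k + 1) with hcdef
  set I := ((sph (k + 1) h).image (ev a)).card with hI
  set ν := nuPM n (k + 1) h with hν
  have h4 : (ball k h).card ^ 2 ≤ c ^ 2 := Nat.pow_le_pow_left h3 2
  have h5 : c ^ 2 * (n.descFactorial (k + 1) * n) ≤ ν * (n ^ (k + 1) * (n * c + 33 * c ^ 2)) := by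
    refine ha.trans (Nat.mul_le_mul h1 (Nat.mul_le_mul_left _ ?_))
    have h6 : 33 * (ball k h).card ^ 2 ≤ 33 * c ^ 2 := Nat.mul_le_mul_left _ h4
    omega
  have h6 := desc (n := n) (k + 1)
  have hcpos : 0 < c := by
    have h7 := card_ball_ge hk h
    omega
  have hnk : (0 : ℤ) < (n : ℤ) ^ (k + 1) := by
    have : (0 : ℤ) < n := by exact_mod_cast (by omega : 0 < n)
    positivity
  have hcZ : (0 : ℤ) < c := by exact_mod_cast hcpos
  have h7 : (c : ℤ) * (n - (k + 1).choose 2) ≤ ν * (n + 33 * c) := by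
    have h8 : ((n : ℤ) ^ (k + 1) * c) * (c * (n - (k + 1).choose 2)) ≤
        ((n : ℤ) ^ (k + 1) * c) * (ν * (n + 33 * c)) := by
      calc ((n : ℤ) ^ (k + 1) * c) * (c * (n - (k + 1).choose 2))
          = (c : ℤ) ^ 2 * ((n : ℤ) ^ (k + 1) * (n - (k + 1).choose 2)) := by ring
        _ ≤ (c : ℤ) ^ 2 * (n.descFactorial (k + 1) * n) :=
            mul_le_mul_of_nonneg_left h6 (by positivity)
        _ ≤ ν * (n ^ (k + 1) * (n * c + 33 * c ^ 2)) := by exact_mod_cast h5
        _ = _ := by ring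
    exact le_of_mul_le_mul_left h8 (mul_pos hnk hcZ)
  have h8 : (4 * ((k + 1).choose 2 : ℕ) : ℤ) ≤ c := by exact_mod_cast cc_ge hh (by omega)
  have h9 : (c : ℤ) * (4 * n - c) ≤ 4 * ν * (n + 33 * c) := by
    have h10 : (c : ℤ) * (4 * n - c) ≤ 4 * (c * (n - (k + 1).choose 2)) := by
      have h11 : (c : ℤ) * (4 * ((k + 1).choose 2 : ℕ)) ≤ c * c := mul_le_mul_of_nonneg_left h8 hcZ.le
      linarith
    linarith
  have hcn : (c : ℤ) ≤ n := by exact_mod_cast hc
  have hνZ : (0 : ℤ) ≤ ν := Int.natCast_nonneg _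
  have hnZ : (0 : ℤ) < n := by omega
  -- (4n - c)(n + 45c) >= 4n(n + 33c)
  have h10 : 4 * (n : ℤ) * (n + 33 * c) ≤ (4 * n - c) * (n + 45 * c) := by
    nlinarith [mul_le_mul_of_nonneg_left hcn hcZ.le]
  have h11 : (4 * (n : ℤ) * (n + 33 * c)) * (c * n) ≤ (4 * (n : ℤ) * (n + 33 * c)) *
      ((n + 45 * c) * ν) := by
    calc (4 * (n : ℤ) * (n + 33 * c)) * (c * n) ≤ ((4 * n - c) * (n + 45 * c)) * (c * n) :=
          mul_le_mul_of_nonneg_right h10 (by positivity)
      _ = ((n + 45 * c) * n) * (c * (4 * n - c)) := by ring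
      _ ≤ ((n + 45 * c) * n) * (4 * ν * (n + 33 * c)) :=
          mul_le_mul_of_nonneg_left h9 (by positivity)
      _ = _ := by ring
  have h12 : (c : ℤ) * n ≤ (n + 45 * c) * ν := le_of_mul_le_mul_left h11 (by positivity)
  exact_mod_cast h12

end Pool.Agent.SGN
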