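import Pool.Agent.SGN.Defect2

/-!
# Signed sumsets: two and three generators
-/

set_option autoImplicit false

namespace Pool.Agent.SGN

open Finset

/-- the number of solutions of a linear equation in one unknown -/
theorem card_lin {n : ℕ} [NeZero n] (t : ℤ) (b : ZMod n) :
    (univ.filter fun y : ZMod n => (t : ZMod n) * y = b).card ≤ Int.gcd t n := by
  classical
  rcases (univ.filter fun y : ZMod n => (t : ZMod n) * y = b).eq_empty_or_nonempty with h0 | ⟨y0, h0⟩
  · rw [h0, card_empty]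
    exact Nat.zero_le _
  have h0' := (mem_filter.1 h0).2
  have hg : 0 < Int.gcd t n := by
    rw [Int.gcd_pos_iff]
    right
    exact_mod_cast NeZero.ne n
  refine le_trans ?_ (IsAddCyclic.card_nsmul_eq_zero_le (α := ZMod n) hg)
  refine card_le_card_of_injOn (fun y => y - y0) ?_ ?_
  · intro y hy
    have hy' := (mem_filter.1 (mem_coe.1 hy)).2
    rw [mem_coe, mem_filter]
    refine ⟨mem_univ _, ?_⟩
    have h1 : (t : ZMod n) * (y - y0) = 0 := by rw [mul_sub, hy', h0', sub_self]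
    have h2 : ((Int.gcd t n : ℤ) : ZMod n) = t * (Int.gcdA t n : ℤ) := by
      rw [Int.gcd_eq_gcd_ab]
      push_cast
      rw [ZMod.natCast_self]
      ring
    have h3 : ((Int.gcd t n : ℕ) : ZMod n) = t * (Int.gcdA t n : ℤ) := by exact_mod_cast h2
    rw [nsmul_eq_mul, h3]
    calc (t : ZMod n) * (Int.gcdA t n : ℤ) * (y - y0) = (Int.gcdA t n : ℤ) * (t * (y - y0)) := by ring
      _ = 0 := by rw [h1, mul_zero]
  · intro y _ y' _ h
    exact sub_left_injective h

theorem dvd_of_lin {n : ℕ} [NeZero n] (t β : ℤ) (y : ZMod n) (hy : (t : ZMod n) * y = (β : ZMod n)) :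
    (Int.gcd t n : ℤ) ∣ β := by
  obtain ⟨z, rfl⟩ := ZMod.intCast_surjective y
  have h1 : ((t * z : ℤ) : ZMod n) = (β : ZMod n) := by
    push_cast
    exact hy
  rw [ZMod.intCast_eq_intCast_iff_dvd_sub] at h1
  have h2 : (Int.gcd t n : ℤ) ∣ β - t * z := (Int.gcd_dvd_right _ _).trans h1
  have h3 : (Int.gcd t n : ℤ) ∣ t * z := (Int.gcd_dvd_left _ _).mul_right z
  have h4 := dvd_add h2 h3
  rwa [sub_add_cancel] at h4

/-- the points of a section of the sphere in a residue class -/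
theorem section_card {h : ℕ} {a1 a2 : ℤ} {P Q : ℕ} (hP : P.Prime) (hQ : Q.Prime) (hP1 : a1 + a2 = P)
    (hQ1 : a1 - a2 = Q) (hPh : 2 * h < P) (hQh : 2 * h < Q) (z r : ℤ) (g : ℕ) (hg : 0 < g)
    (hg2 : g ≤ 2 * h) :
    ((sph 3 h).filter fun s => s 2 = z ∧ (g : ℤ) ∣ s 0 * a1 + s 1 * a2 - r).card ≤
      4 * (h / g + 1) := by
  classical
  have hcP : IsCoprime (g : ℤ) (P : ℤ) :=
    (Nat.isCoprime_iff_coprime.2 (Nat.coprime_of_lt_prime (by omega) (by omega) hP)).symm
  have hcQ : IsCoprime (g : ℤ) (Q : ℤ) :=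
    (Nat.isCoprime_iff_coprime.2 (Nat.coprime_of_lt_prime (by omega) (by omega) hQ)).symm
  set B := (sph 3 h).filter fun s => s 2 = z ∧ (g : ℤ) ∣ s 0 * a1 + s 1 * a2 - r with hB
  have hmem : ∀ s ∈ B, (s 0).natAbs + (s 1).natAbs + (s 2).natAbs = h ∧ s 2 = z ∧
      (g : ℤ) ∣ s 0 * a1 + s 1 * a2 - r := by
    intro s hs
    rw [hB, mem_filter, mem_sph] at hs
    unfold l1 at hs
    rw [Fin.sum_univ_three] at hs
    exact hs
  have hcard : ((univ : Finset (Bool × Bool)) ×ˢ range (h / g + 1)).card = 4 * (h / g + 1) := by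
    rw [card_product, card_range, card_univ, Fintype.card_prod, Fintype.card_bool]
  rw [← hcard]
  refine card_le_card_of_injOn (fun s => ((decide (0 ≤ s 0), decide (0 ≤ s 1)), (s 0).natAbs / g)) ?_ ?_
  · intro s hs
    obtain ⟨h1, _, _⟩ := hmem s hs
    rw [mem_coe, mem_product]
    refine ⟨mem_univ _, ?_⟩
    rw [mem_range, Nat.lt_succ_iff]
    exact Nat.div_le_div_right (by omega)
  · intro s hs s' hs' heq
    obtain ⟨h1, h2, h3⟩ := hmem s hs
    obtain ⟨h1', h2', h3'⟩ := hmem s' hs'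
    simp only [Prod.mk.injEq, decide_eq_decide] at heq
    obtain ⟨⟨e0, e1⟩, e2⟩ := heq
    have h4 : (g : ℤ) ∣ (s 0 - s' 0) * a1 + (s 1 - s' 1) * a2 := by
      have h5 := dvd_sub h3 h3'
      have h6 : s 0 * a1 + s 1 * a2 - r - (s' 0 * a1 + s' 1 * a2 - r) =
          (s 0 - s' 0) * a1 + (s 1 - s' 1) * a2 := by ring
      rwa [h6] at h5
    have h5 : (g : ℤ) ∣ s 0 - s' 0 := by
      by_cases c0 : 0 ≤ s 0
      · by_cases c1 : 0 ≤ s 1
        · have h6 : s 1 - s' 1 = -(s 0 - s' 0) := by omega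
          have h7 : (s 0 - s' 0) * a1 + (s 1 - s' 1) * a2 = (s 0 - s' 0) * Q := by
            rw [h6, ← hQ1]; ring
          rw [h7] at h4
          exact hcQ.dvd_of_dvd_mul_right h4
        · have h6 : s 1 - s' 1 = s 0 - s' 0 := by omega
          have h7 : (s 0 - s' 0) * a1 + (s 1 - s' 1) * a2 = (s 0 - s' 0) * P := by
            rw [h6, ← hP1]; ring
          rw [h7] at h4
          exact hcP.dvd_of_dvd_mul_right h4
      · by_cases c1 : 0 ≤ s 1
        · have h6 : s 1 - s' 1 = s 0 - s' 0 := by omega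
          have h7 : (s 0 - s' 0) * a1 + (s 1 - s' 1) * a2 = (s 0 - s' 0) * P := by
            rw [h6, ← hP1]; ring
          rw [h7] at h4
          exact hcP.dvd_of_dvd_mul_right h4
        · have h6 : s 1 - s' 1 = -(s 0 - s' 0) := by omega
          have h7 : (s 0 - s' 0) * a1 + (s 1 - s' 1) * a2 = (s 0 - s' 0) * Q := by
            rw [h6, ← hQ1]; ring
          rw [h7] at h4
          exact hcQ.dvd_of_dvd_mul_right h4
    have h6 : s 0 = s' 0 := by
      have h7 : |s 0 - s' 0| < g := by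
        have d1 := Nat.div_add_mod (s 0).natAbs g
        have d2 := Nat.div_add_mod (s' 0).natAbs g
        rw [← e2] at d2
        have d3 := Nat.mod_lt (s 0).natAbs hg
        have d4 := Nat.mod_lt (s' 0).natAbs hg
        rw [abs_lt]
        constructor <;> omega
      have h8 := Int.eq_zero_of_abs_lt_dvd h5 h7
      omega
    have h7 : s 1 = s' 1 := by omega
    have h8 : s 2 = s' 2 := by rw [h2, h2']
    funext i
    fin_cases i
    · exact h6
    · exact h7
    · exact h8

/-- the number of ordered pairs of different points of the sphere with the same value -/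
noncomputable def prs {m n : ℕ} (h : ℕ) (a : Fin m → ZMod n) : Finset ((Fin m → ℤ) × (Fin m → ℤ)) :=
  ((sph m h) ×ˢ (sph m h)).filter fun p => p.1 ≠ p.2 ∧ ev a p.1 = ev a p.2

theorem sq_le_prs {m n : ℕ} (h : ℕ) (a : Fin m → ZMod n) :
    (sph m h).card ^ 2 ≤ ((sph m h).image (ev a)).card * ((sph m h).card + (prs h a).card) := by
  classical
  refine (cauchy (sph m h) a).trans (Nat.mul_le_mul_left _ ?_)
  unfold en
  have h1 : (((sph m h) ×ˢ (sph m h)).filter fun p => ev a p.1 = ev a p.2) ⊆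
      (sph m h).image (fun s => (s, s)) ∪ prs h a := by
    intro p hp
    obtain ⟨h2, h3⟩ := mem_filter.1 hp
    rw [mem_union]
    by_cases hpe : p.1 = p.2
    · left
      rw [mem_image]
      exact ⟨p.1, (mem_product.1 h2).1, Prod.ext rfl hpe⟩
    · right
      exact mem_filter.2 ⟨h2, hpe, h3⟩
  refine (card_le_card h1).trans ((card_union_le _ _).trans ?_)
  exact Nat.add_le_add_right card_image_le _

/-- sum over the third entry of the number of coincidences -/
theorem sum_prs {n h : ℕ} [NeZero n] (hh : 1 ≤ h) {a1 a2 : ℤ} {P Q : ℕ} (hP : P.Prime) (hQ : Q.Prime)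
    (hP1 : a1 + a2 = P) (hQ1 : a1 - a2 = Q) (hPh : 2 * h < P) (hQh : 2 * h < Q) (hPQ : Q ≠ P)
    (hn : h * (P + Q) < n) :
    ∑ y : ZMod n, (prs h ![(a1 : ZMod n), (a2 : ZMod n), y]).card ≤ (sph 3 h).card * (24 * h ^ 2) := by
  classical
  set S := sph 3 h with hS
  set F : (Fin 3 → ℤ) → (Fin 3 → ℤ) → ℕ := fun s' s => if s 2 = s' 2 then 0 else
    if (Int.gcd (s 2 - s' 2) n : ℤ) ∣ s 0 * a1 + s 1 * a2 - (s' 0 * a1 + s' 1 * a2) then
      Int.gcd (s 2 - s' 2) n else 0 with hF
  have hev : ∀ (y : ZMod n) (s : Fin 3 → ℤ), ev ![(a1 : ZMod n), (a2 : ZMod n), y] s =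
      s 0 * a1 + s 1 * a2 + s 2 * y := by
    intro y s
    unfold ev
    rw [Fin.sum_univ_three]
    rfl
  have hl1 : ∀ s ∈ S, (s 0).natAbs + (s 1).natAbs + (s 2).natAbs = h := by
    intro s hs
    rw [hS, mem_sph] at hs
    unfold l1 at hs
    rw [Fin.sum_univ_three] at hs
    exact hs
  -- swap the sums
  have h1 : ∑ y : ZMod n, (prs h ![(a1 : ZMod n), (a2 : ZMod n), y]).card ≤
      ∑ s' ∈ S, ∑ s ∈ S, F s' s := by
    have h2 : ∀ y : ZMod n, (prs h ![(a1 : ZMod n), (a2 : ZMod n), y]).card =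
        ∑ p ∈ S ×ˢ S, if p.2 ≠ p.1 ∧ ev ![(a1 : ZMod n), (a2 : ZMod n), y] p.2 =
          ev ![(a1 : ZMod n), (a2 : ZMod n), y] p.1 then 1 else 0 := by
      intro y
      unfold prs
      rw [card_filter]
      refine sum_congr rfl fun p _ => ?_
      congr 1
      apply propext
      constructor
      · rintro ⟨e1, e2⟩; exact ⟨Ne.symm e1, e2.symm⟩
      · rintro ⟨e1, e2⟩; exact ⟨Ne.symm e1, e2.symm⟩
    rw [sum_congr rfl fun y _ => h2 y, sum_comm, sum_product]
    refine sum_le_sum fun s' hs' => sum_le_sum fun s hs => ?_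
    rw [← card_filter]
    simp only [hev]
    have k1 := hl1 s hs
    have k2 := hl1 s' hs'
    rw [hF]
    show _ ≤ if s 2 = s' 2 then 0 else _
    by_cases h3 : s 2 = s' 2
    · rw [if_pos h3, Nat.le_zero, card_eq_zero, filter_eq_empty_iff]
      rintro y - ⟨hne, heq⟩
      apply hne
      have h4 : (((s 0 - s' 0) * a1 + (s 1 - s' 1) * a2 : ℤ) : ZMod n) = 0 := by
        push_cast
        rw [h3] at heq
        have h5 := add_right_cancel heq
        linear_combination h5
      rw [ZMod.intCast_zmod_eq_zero_iff_dvd] at h4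
      set u := s 0 - s' 0 with hu
      set v := s 1 - s' 1 with hv
      have huv : |u + v| ≤ 2 * h ∧ |u - v| ≤ 2 * h := by
        rw [abs_le, abs_le]
        constructor <;> constructor <;> omega
      have h6 : 2 * (u * a1 + v * a2) = (u + v) * P + (u - v) * Q := by
        rw [← hP1, ← hQ1]; ring
      have h7 : |2 * (u * a1 + v * a2)| ≤ 2 * (h * (P + Q)) := by
        rw [h6]
        refine (abs_add_le _ _).trans ?_
        rw [abs_mul, abs_mul, Nat.abs_cast, Nat.abs_cast]
        have := mul_le_mul_of_nonneg_right huv.1 (Nat.cast_nonneg (α := ℤ) P)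
        have := mul_le_mul_of_nonneg_right huv.2 (Nat.cast_nonneg (α := ℤ) Q)
        linarith
      have h8 : |u * a1 + v * a2| < n := by
        rw [abs_mul] at h7
        have h9 : ((h * (P + Q) : ℕ) : ℤ) < n := by exact_mod_cast hn
        push_cast at h9
        have h10 : |(2 : ℤ)| = 2 := rfl
        rw [h10] at h7
        linarith
      have h9 := Int.eq_zero_of_abs_lt_dvd h4 h8
      rw [h9, mul_zero] at h6
      have hPQc : IsCoprime (P : ℤ) (Q : ℤ) :=
        Nat.isCoprime_iff_coprime.2 ((Nat.coprime_primes hP hQ).2 (Ne.symm hPQ))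
      have h10' : (P : ℤ) ∣ (u - v) * Q := ⟨-(u + v), by linarith⟩
      have h10 : (P : ℤ) ∣ u - v := hPQc.dvd_of_dvd_mul_right h10'
      have h11 : u - v = 0 := by
        refine Int.eq_zero_of_abs_lt_dvd h10 ?_
        have : (2 * h : ℤ) < P := by exact_mod_cast hPh
        linarith [huv.2]
      rw [h11, zero_mul, add_zero] at h6
      have h12 : u + v = 0 := by
        refine (mul_eq_zero.1 h6.symm).resolve_right ?_
        exact_mod_cast hP.ne_zero
      have h13 : u = 0 := by omega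
      have h14 : v = 0 := by omega
      funext i
      fin_cases i
      · exact (sub_eq_zero.1 h13)
      · exact (sub_eq_zero.1 h14)
      · exact h3
    · rw [if_neg h3]
      have h4 : (univ.filter fun y : ZMod n => s ≠ s' ∧ (s 0 : ZMod n) * a1 + s 1 * a2 + s 2 * y =
          s' 0 * a1 + s' 1 * a2 + s' 2 * y) ⊆ univ.filter fun y : ZMod n =>
          ((s 2 - s' 2 : ℤ) : ZMod n) * y =
            ((s' 0 * a1 + s' 1 * a2 - (s 0 * a1 + s 1 * a2) : ℤ) : ZMod n) := by
        intro y hy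
        obtain ⟨_, _, h5⟩ := mem_filter.1 hy
        refine mem_filter.2 ⟨mem_univ _, ?_⟩
        push_cast
        linear_combination h5
      refine (card_le_card h4).trans ?_
      by_cases h5 : (Int.gcd (s 2 - s' 2) n : ℤ) ∣ s 0 * a1 + s 1 * a2 - (s' 0 * a1 + s' 1 * a2)
      · rw [if_pos h5]
        exact card_lin _ _
      · rw [if_neg h5, Nat.le_zero, card_eq_zero, filter_eq_empty_iff]
        intro y _ hy
        apply h5
        have h6 := dvd_of_lin _ _ y hy
        have h7 : s 0 * a1 + s 1 * a2 - (s' 0 * a1 + s' 1 * a2) =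
            -(s' 0 * a1 + s' 1 * a2 - (s 0 * a1 + s 1 * a2)) := by ring
        rw [h7]
        exact (dvd_neg).2 h6
  refine h1.trans ?_
  rw [← smul_eq_mul]
  refine sum_le_card_nsmul _ _ _ fun s' hs' => ?_
  have k2 := hl1 s' hs'
  -- fibres over the third coordinate
  have h2 : ∑ s ∈ S, F s' s = ∑ z ∈ Icc (-(h : ℤ)) h, ∑ s ∈ S.filter (fun s => s 2 = z), F s' s := by
    refine (sum_fiberwise_of_maps_to (fun s hs => ?_) _).symm
    rw [mem_Icc]
    have := hl1 s hs
    omega
  rw [h2]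
  have h3 : ∀ z ∈ Icc (-(h : ℤ)) h, ∑ s ∈ S.filter (fun s => s 2 = z), F s' s ≤
      if z = s' 2 then 0 else 12 * h := by
    intro z hz
    rw [mem_Icc] at hz
    by_cases h4 : z = s' 2
    · rw [if_pos h4]
      refine (sum_eq_zero fun s hs => ?_).le
      rw [hF]
      show (if s 2 = s' 2 then 0 else _) = 0
      rw [if_pos ((mem_filter.1 hs).2.trans h4)]
    · rw [if_neg h4]
      set g := Int.gcd (z - s' 2) n with hg
      have hg1 : 0 < g := by
        rw [hg, Int.gcd_pos_iff]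
        left
        omega
      have hg2 : g ≤ 2 * h := by
        have h5 : g ∣ (z - s' 2).natAbs := Int.natCast_dvd.1 (Int.gcd_dvd_left _ _)
        have h6 := Nat.le_of_dvd (by omega) h5
        omega
      have h5 : ∀ s ∈ S.filter (fun s => s 2 = z), F s' s =
          if (g : ℤ) ∣ s 0 * a1 + s 1 * a2 - (s' 0 * a1 + s' 1 * a2) then g else 0 := by
        intro s hs
        rw [hF]
        show (if s 2 = s' 2 then 0 else _) = _
        have h6 := (mem_filter.1 hs).2
        rw [if_neg (by rw [h6]; exact h4), h6]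
      rw [sum_congr rfl h5, ← sum_filter, sum_const, smul_eq_mul, filter_filter]
      have h6 := section_card hP hQ hP1 hQ1 hPh hQh z (s' 0 * a1 + s' 1 * a2) g hg1 hg2
      calc _ ≤ 4 * (h / g + 1) * g := Nat.mul_le_mul_right _ h6
        _ = 4 * (h / g * g) + 4 * g := by ring
        _ ≤ 4 * h + 4 * (2 * h) := Nat.add_le_add (Nat.mul_le_mul_left _ (Nat.div_mul_le_self h g))
            (Nat.mul_le_mul_left _ hg2)
        _ = 12 * h := by ring
  refine (sum_le_sum h3).trans ?_
  rw [sum_ite, sum_const_zero, zero_add, sum_const, smul_eq_mul]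
  have h4 : (Icc (-(h : ℤ)) h).filter (fun z => ¬ z = s' 2) ⊆ (Icc (-(h : ℤ)) h).erase (s' 2) := by
    intro z hz
    exact mem_erase.2 ⟨(mem_filter.1 hz).2, (mem_filter.1 hz).1⟩
  have h5 : s' 2 ∈ Icc (-(h : ℤ)) h := by
    rw [mem_Icc]
    omega
  have h6 := card_le_card h4
  rw [card_erase_of_mem h5, Int.card_Icc] at h6
  have h7 : ((h : ℤ) + 1 - -(h : ℤ)).toNat - 1 = 2 * h := by omega
  rw [h7] at h6
  calc _ ≤ 2 * h * (12 * h) := Nat.mul_le_mul_right _ h6
    _ = 24 * h ^ 2 := by ring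

theorem card_sph_three {h : ℕ} (hh : 1 ≤ h) : (sph 3 h).card = 4 * h ^ 2 + 2 := by
  rw [card_sph hh]
  unfold cc
  obtain ⟨k, rfl⟩ : ∃ k, h = k + 1 := ⟨h - 1, by omega⟩
  have h1 : Icc 1 3 = ({1, 2, 3} : Finset ℕ) := rfl
  rw [h1, sum_insert (by decide), sum_insert (by decide), sum_singleton]
  have h2 : 2 * k.choose 2 = k * (k - 1) := by
    rw [Nat.choose_two_right]
    exact Nat.mul_div_cancel' (Nat.even_mul_pred_self k).two_dvd
  have e1 : Nat.choose 3 1 = 3 := rfl
  have e2 : Nat.choose 3 2 = 3 := rfl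
  have e3 : Nat.choose 3 3 = 1 := rfl
  simp only [Nat.add_sub_cancel, e1, e2, e3, Nat.sub_self, Nat.choose_zero_right,
    show 2 - 1 = 1 from rfl, show 3 - 1 = 2 from rfl, Nat.choose_one_right]
  rcases k with _ | k
  · rfl
  · rw [Nat.add_sub_cancel] at h2
    nlinarith

/-- three generators -/
theorem three_aux {n h : ℕ} (hh : 1 ≤ h) (hn : 12 * h ^ 2 < n) :
    cc h 3 * n ≤ (n + 45 * cc h 3) * nuPM n 3 h := by
  classical
  have : NeZero n := ⟨by omega⟩
  obtain ⟨Q, hQ, hQ1, hQ2⟩ := Nat.exists_prime_lt_and_le_two_mul (2 * h) (by omega)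
  obtain ⟨P, hP, hP1, hP2⟩ := Nat.exists_prime_lt_and_le_two_mul (4 * h) (by omega)
  have hQo : Q % 2 = 1 := by
    rcases hQ.eq_two_or_odd with h1 | h1
    · omega
    · exact h1
  have hPo : P % 2 = 1 := by
    rcases hP.eq_two_or_odd with h1 | h1
    · omega
    · exact h1
  obtain ⟨a1, ha1⟩ : ∃ a1 : ℤ, 2 * a1 = P + Q := ⟨((P : ℤ) + Q) / 2, by omega⟩
  obtain ⟨a2, ha2⟩ : ∃ a2 : ℤ, 2 * a2 = P - Q := ⟨((P : ℤ) - Q) / 2, by omega⟩
  have e1 : a1 + a2 = P := by omega
  have e2 : a1 - a2 = Q := by omega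
  have hlt : h * (P + Q) < n := by
    calc h * (P + Q) ≤ h * (12 * h) := Nat.mul_le_mul_left _ (by omega)
      _ = 12 * h ^ 2 := by ring
      _ < n := hn
  have hsum := sum_prs (n := n) hh hP hQ e1 e2 (by omega) (by omega) (by omega) hlt
  set T : Finset (ZMod n) := univ.filter fun y => y ≠ a1 ∧ y ≠ a2 with hT
  have hTc : n ≤ T.card + 2 := by
    have h1 : (univ : Finset (ZMod n)) ⊆ T ∪ {(a1 : ZMod n), (a2 : ZMod n)} := by
      intro y _
      rw [mem_union, mem_insert, mem_singleton]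
      by_cases h1 : y = a1
      · right; left; exact h1
      · by_cases h2 : y = a2
        · right; right; exact h2
        · left
          exact mem_filter.2 ⟨mem_univ _, h1, h2⟩
    have h2 := (card_le_card h1).trans (card_union_le _ _)
    rw [card_univ, ZMod.card] at h2
    have h3 : ({(a1 : ZMod n), (a2 : ZMod n)} : Finset (ZMod n)).card ≤ 2 := card_le_two
    omega
  have hTne : T.Nonempty := by
    rw [← card_pos]
    have : 1 ≤ h ^ 2 := Nat.one_le_pow _ _ hh
    omega
  obtain ⟨y, hy, hmin⟩ := exists_min_image T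
    (fun y => (prs h ![(a1 : ZMod n), (a2 : ZMod n), y]).card) hTne
  have h1 : T.card * (prs h ![(a1 : ZMod n), (a2 : ZMod n), y]).card ≤
      (sph 3 h).card * (24 * h ^ 2) := by
    refine le_trans ?_ ((sum_le_sum_of_subset (subset_univ T)).trans hsum)
    rw [← smul_eq_mul]
    exact card_nsmul_le_sum _ _ _ hmin
  obtain ⟨_, hy1, hy2⟩ := mem_filter.1 hy
  have hinj : Function.Injective (![(a1 : ZMod n), (a2 : ZMod n), y] : Fin 3 → ZMod n) := by
    have h12 : (a1 : ZMod n) ≠ a2 := by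
      intro heq
      rw [ZMod.intCast_eq_intCast_iff_dvd_sub] at heq
      have h3 : (n : ℤ) ∣ a1 - a2 := by
        rw [← neg_sub]
        exact (dvd_neg).2 heq
      rw [e2] at h3
      have h4 := Int.le_of_dvd (by omega) h3
      have h5 : h * (P + Q) ≥ 1 * (P + Q) := Nat.mul_le_mul_right _ hh
      omega
    intro i j hij
    fin_cases i <;> fin_cases j <;> simp_all
  have h2 := card_image_sph_le (h := h) (by omega) _ hinj
  have h3 := sq_le_prs h (![(a1 : ZMod n), (a2 : ZMod n), y] : Fin 3 → ZMod n)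
  have h4 : (sph 3 h).card = cc h 3 := card_sph hh
  have h5 : 4 * h ^ 2 ≤ cc h 3 := by
    rw [← h4, card_sph_three hh]
    omega
  rw [h4] at h1 h3
  set c := cc h 3 with hc
  set N := (prs h (![(a1 : ZMod n), (a2 : ZMod n), y] : Fin 3 → ZMod n)).card with hN
  set ν := nuPM n 3 h with hν
  set I := ((sph 3 h).image (ev (![(a1 : ZMod n), (a2 : ZMod n), y] : Fin 3 → ZMod n))).card with hI
  have h6 : T.card * N ≤ 6 * c ^ 2 := by
    calc T.card * N ≤ c * (24 * h ^ 2) := h1
      _ = c * (6 * (4 * h ^ 2)) := by ring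
      _ ≤ c * (6 * c) := Nat.mul_le_mul_left _ (Nat.mul_le_mul_left _ h5)
      _ = 6 * c ^ 2 := by ring
  have hcpos : 0 < c := by
    have : 1 ≤ h ^ 2 := Nat.one_le_pow _ _ hh
    omega
  have h7 : c * T.card ≤ (T.card + 6 * c) * ν := by
    have h8 : c * (c * T.card) ≤ c * ((T.card + 6 * c) * ν) := by
      calc c * (c * T.card) = c ^ 2 * T.card := by ring
        _ ≤ (I * (c + N)) * T.card := Nat.mul_le_mul_right _ h3
        _ = I * (c * T.card + T.card * N) := by ring
        _ ≤ ν * (c * T.card + 6 * c ^ 2) := Nat.mul_le_mul h2 (Nat.add_le_add_left h6 _)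
        _ = _ := by ring
    exact Nat.le_of_mul_le_mul_left h8 hcpos
  have hνpos : 1 ≤ ν := by
    rcases Nat.eq_zero_or_pos ν with h8 | h8
    · rw [h8, mul_zero] at h7
      have := Nat.mul_pos hcpos (card_pos.2 hTne)
      omega
    · exact h8
  have hTn : T.card ≤ n := by
    have := card_le_univ T
    rw [ZMod.card] at this
    exact this
  calc c * n ≤ c * (T.card + 2) := Nat.mul_le_mul_left _ hTc
    _ = c * T.card + 2 * c * 1 := by ring
    _ ≤ (T.card + 6 * c) * ν + 2 * c * ν := Nat.add_le_add h7 (Nat.mul_le_mul_left _ hνpos)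
    _ = (T.card + 8 * c) * ν := by ring
    _ ≤ (n + 45 * c) * ν := Nat.mul_le_mul_right _ (by omega)

theorem three {n h : ℕ} (hmn : 3 ≤ n) (hh : 1 ≤ h) :
    cc h 3 * n ≤ (n + 45 * cc h 3) * nuPM n 3 h := by
  have h1 := lower (n := n) (m := 3) (h := h) (by omega) hmn (by omega)
  have h4 : (sph 3 h).card = cc h 3 := card_sph hh
  have h5 : cc h 3 = 4 * h ^ 2 + 2 := by rw [← h4, card_sph_three hh]
  rcases le_total n (cc h 3) with hc | hc
  · rw [min_eq_left hc] at h1
    calc cc h 3 * n ≤ cc h 3 * (18 * nuPM n 3 h) := Nat.mul_le_mul_left _ h1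
      _ = (18 * cc h 3) * nuPM n 3 h := by ring
      _ ≤ _ := Nat.mul_le_mul_right _ (by omega)
  by_cases hn : 2 * h * (2 * h + 1) < n
  · by_cases hn2 : 12 * h ^ 2 < n
    · exact three_aux hh hn2
    · have h6 := half (n := n) (k := 2) (h := h) hmn (by simpa using hn)
      rw [h4] at h6
      have h7 : n ≤ 3 * cc h 3 := by omega
      set c := cc h 3
      set ν := nuPM n 3 h
      calc c * n ≤ (2 * ν) * n := Nat.mul_le_mul_right _ h6
        _ = (n + n) * ν := by ring
        _ ≤ (n + 45 * c) * ν := Nat.mul_le_mul_right _ (by omega)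
  · rw [min_eq_right hc] at h1
    have h6 : 17 * n ≤ 45 * cc h 3 := by
      rw [h5]
      have h7 : 2 * h * (2 * h + 1) = 4 * h ^ 2 + 2 * h := by ring
      have h8 : h ≤ h ^ 2 := by nlinarith
      omega
    set c := cc h 3
    set ν := nuPM n 3 h
    calc c * n ≤ (18 * ν) * n := Nat.mul_le_mul_right _ h1
      _ = (n + 17 * n) * ν := by ring
      _ ≤ (n + 45 * c) * ν := Nat.mul_le_mul_right _ (by omega)

/-- two generators: the set of the values of the sphere at `(1, y)` -/
theorem two_aux {n h y : ℕ} (hh : 1 ≤ h) (hy : 2 ≤ y) (hn : 2 * h * y < n) :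
    (y + 1) * (4 * h) ≤ (y + 1) * nuPM n 2 h + 6 * h := by
  classical
  obtain ⟨z, rfl⟩ : ∃ z, y = z + 1 := ⟨y - 1, by omega⟩
  set K1 := (range (h + 1)).filter (fun k => k = h ∨ ¬ (z + 1 + 1) ∣ 2 * (h - k)) with hK1
  set K3 := (Icc 1 (h - 1)).filter (fun k => h < (z + 1 + 1) * k) with hK3
  set f1 : ℕ → ℤ := fun k => (h : ℤ) + z * k with hf1
  set f3 : ℕ → ℤ := fun k => ((z : ℤ) + 2) * k - h with hf3
  have c1 : h + 1 ≤ K1.card + 2 * h / (z + 1 + 1) := by
    have h1 := card_filter_add_card_filter_not (s := range (h + 1))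
      (fun k => k = h ∨ ¬ (z + 1 + 1) ∣ 2 * (h - k))
    rw [card_range] at h1
    have h2 : ((range (h + 1)).filter fun k => ¬ (k = h ∨ ¬ (z + 1 + 1) ∣ 2 * (h - k))).card ≤
        ((Ioc 0 (2 * h)).filter fun e => (z + 1 + 1) ∣ e).card := by
      refine card_le_card_of_injOn (fun k => 2 * (h - k)) ?_ ?_
      · intro k hk
        obtain ⟨h3, h4⟩ := mem_filter.1 (mem_coe.1 hk)
        push Not at h4
        rw [mem_range] at h3
        obtain ⟨h4a, h4b⟩ := h4
        rw [mem_coe, mem_filter, mem_Ioc]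
        exact ⟨⟨show 0 < 2 * (h - k) by omega, show 2 * (h - k) ≤ 2 * h by omega⟩, h4b⟩
      · intro k hk k' hk' heq
        obtain ⟨h3, _⟩ := mem_filter.1 (mem_coe.1 hk)
        obtain ⟨h3', _⟩ := mem_filter.1 (mem_coe.1 hk')
        rw [mem_range] at h3 h3'
        have h5 : 2 * (h - k) = 2 * (h - k') := heq
        omega
    rw [Nat.Ioc_filter_dvd_card_eq_div] at h2
    rw [← hK1] at h1
    omega
  have c3 : h - 1 ≤ K3.card + h / (z + 1 + 1) := by
    have h1 := card_filter_add_card_filter_not (s := Icc 1 (h - 1)) (fun k => h < (z + 1 + 1) * k)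
    rw [Nat.card_Icc] at h1
    have h2 : ((Icc 1 (h - 1)).filter fun k => ¬ (h < (z + 1 + 1) * k)) ⊆ Icc 1 (h / (z + 1 + 1)) := by
      intro k hk
      obtain ⟨h3, h4⟩ := mem_filter.1 hk
      rw [mem_Icc] at h3 ⊢
      refine ⟨h3.1, ?_⟩
      rw [Nat.le_div_iff_mul_le (by omega), mul_comm]
      omega
    have h3 := card_le_card h2
    rw [Nat.card_Icc] at h3
    rw [← hK3] at h1
    generalize h / (z + 1 + 1) = q at h3 ⊢
    omega
  have m1 : ∀ k ∈ K1, k ≤ h ∧ (k = h ∨ ¬ (z + 1 + 1) ∣ 2 * (h - k)) := by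
    intro k hk
    obtain ⟨h1, h2⟩ := mem_filter.1 hk
    exact ⟨Nat.lt_succ_iff.1 (mem_range.1 h1), h2⟩
  have m3 : ∀ k ∈ K3, 1 ≤ k ∧ k + 1 ≤ h ∧ h < (z + 1 + 1) * k := by
    intro k hk
    obtain ⟨h1, h2⟩ := mem_filter.1 hk
    rw [mem_Icc] at h1
    exact ⟨h1.1, by omega, h2⟩
  have hz : (1 : ℤ) ≤ z := by omega
  have hh' : (1 : ℤ) ≤ h := by exact_mod_cast hh
  set V := K1.image f1 ∪ K3.image f3 with hV
  have hVc : V.card = K1.card + K3.card := by
    rw [hV, card_union_of_disjoint, card_image_of_injective, card_image_of_injective]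
    · intro k k' hkk
      have h1 : ((z : ℤ) + 2) * k - h = ((z : ℤ) + 2) * k' - h := hkk
      have h2 : ((z : ℤ) + 2) * k = ((z : ℤ) + 2) * k' := by linarith
      exact_mod_cast mul_left_cancel₀ (by omega) h2
    · intro k k' hkk
      have h1 : (h : ℤ) + z * k = h + z * k' := hkk
      have h2 : (z : ℤ) * k = z * k' := by linarith
      exact_mod_cast mul_left_cancel₀ (by omega) h2
    · rw [disjoint_left]
      intro v hv1 hv3
      obtain ⟨k, hk, rfl⟩ := mem_image.1 hv1
      obtain ⟨l, hl, heq⟩ := mem_image.1 hv3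
      obtain ⟨a1, a2⟩ := m1 k hk
      obtain ⟨b1, b2, _⟩ := m3 l hl
      have h1 : ((z : ℤ) + 2) * l - h = (h : ℤ) + z * k := heq
      rcases a2 with a2 | a2
      · subst a2
        have h2 : ((z : ℤ) + 2) * l = (z + 2) * k := by linarith
        have h3 : (l : ℤ) = k := mul_left_cancel₀ (by omega) h2
        omega
      · apply a2
        have h2 : ((z + 1 + 1 : ℕ) : ℤ) ∣ ((2 * (h - k) : ℕ) : ℤ) := by
          refine ⟨(l : ℤ) - k, ?_⟩
          push_cast [Nat.cast_sub a1]
          linarith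
        exact_mod_cast h2
  have hVpos : ∀ v ∈ V, 0 < v ∧ v ≤ h * (z + 1) := by
    intro v hv
    rcases mem_union.1 hv with hv | hv
    · obtain ⟨k, hk, rfl⟩ := mem_image.1 hv
      obtain ⟨a1, _⟩ := m1 k hk
      have h1 : (z : ℤ) * k ≤ z * h := mul_le_mul_of_nonneg_left (by exact_mod_cast a1) (by omega)
      have h2 : (0 : ℤ) ≤ z * k := by positivity
      constructor
      · show (0 : ℤ) < h + z * k
        linarith
      · show (h : ℤ) + z * k ≤ h * (z + 1)
        linarith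
    · obtain ⟨k, hk, rfl⟩ := mem_image.1 hv
      obtain ⟨b1, b2, b3⟩ := m3 k hk
      have b3' : (h : ℤ) < (z + 1 + 1) * k := by exact_mod_cast b3
      have b2' : (k : ℤ) + 1 ≤ h := by exact_mod_cast b2
      have h1 : ((z : ℤ) + 2) * k ≤ (z + 2) * (h - 1) := mul_le_mul_of_nonneg_left (by linarith) (by omega)
      constructor
      · show (0 : ℤ) < (z + 2) * k - h
        linarith
      · show ((z : ℤ) + 2) * k - h ≤ h * (z + 1)
        nlinarith
  set W := V ∪ V.image (fun v => -v) with hW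
  have hWc : W.card = 2 * V.card := by
    rw [hW, card_union_of_disjoint, card_image_of_injective _ neg_injective]
    · ring
    · rw [disjoint_left]
      intro v hv1 hv3
      obtain ⟨w, hw, rfl⟩ := mem_image.1 hv3
      have := (hVpos _ hv1).1
      have := (hVpos _ hw).1
      omega
  have hWb : ∀ w ∈ W, |w| ≤ h * (z + 1) := by
    intro w hw
    rcases mem_union.1 hw with hw | hw
    · have := hVpos _ hw
      rw [abs_of_pos this.1]
      exact this.2
    · obtain ⟨v, hv, rfl⟩ := mem_image.1 hw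
      have := hVpos _ hv
      rw [abs_neg, abs_of_pos this.1]
      exact this.2
  have hWinj : Set.InjOn (fun w : ℤ => (w : ZMod n)) (W : Set ℤ) := by
    intro w hw w' hw' heq
    have h1 := hWb w hw
    have h2 := hWb w' hw'
    have h3 : (n : ℤ) ∣ w' - w := (ZMod.intCast_eq_intCast_iff_dvd_sub _ _ n).1 heq
    have h4 : w' - w = 0 := by
      refine Int.eq_zero_of_abs_lt_dvd h3 ?_
      have h5 := abs_sub w' w
      have h6 : ((2 * h * (z + 1) : ℕ) : ℤ) < n := by exact_mod_cast hn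
      push_cast at h6
      linarith
    omega
  set a : Fin 2 → ZMod n := ![1, ((z + 1 : ℕ) : ZMod n)] with ha
  have hev : ∀ s : Fin 2 → ℤ, ev a s = ((s 0 + (z + 1) * s 1 : ℤ) : ZMod n) := by
    intro s
    unfold ev
    rw [Fin.sum_univ_two, ha]
    simp
    ring
  have hmem : ∀ p q : ℤ, p.natAbs + q.natAbs = h → ∀ w : ℤ, w = p + (z + 1) * q →
      (w : ZMod n) ∈ (sph 2 h).image (ev a) := by
    intro p q hpq w hw
    rw [mem_image]
    refine ⟨![p, q], ?_, ?_⟩
    · rw [mem_sph]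
      unfold l1
      rw [Fin.sum_univ_two]
      exact hpq
    · rw [hev, hw]
      rfl
  have hsub : W.image (fun w : ℤ => (w : ZMod n)) ⊆ (sph 2 h).image (ev a) := by
    intro x hx
    obtain ⟨w, hw, rfl⟩ := mem_image.1 hx
    rcases mem_union.1 hw with hw | hw
    · rcases mem_union.1 hw with hw | hw
      · obtain ⟨k, hk, rfl⟩ := mem_image.1 hw
        obtain ⟨a1, _⟩ := m1 k hk
        refine hmem ((h : ℤ) - k) k (by omega) _ ?_
        rw [hf1]
        ring
      · obtain ⟨k, hk, rfl⟩ := mem_image.1 hw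
        obtain ⟨b1, b2, b3⟩ := m3 k hk
        refine hmem (-((h : ℤ) - k)) k (by omega) _ ?_
        rw [hf3]
        ring
    · obtain ⟨v, hv, rfl⟩ := mem_image.1 hw
      rcases mem_union.1 hv with hw | hw
      · obtain ⟨k, hk, rfl⟩ := mem_image.1 hw
        obtain ⟨a1, _⟩ := m1 k hk
        refine hmem (-((h : ℤ) - k)) (-k) (by omega) _ ?_
        rw [hf1]
        ring
      · obtain ⟨k, hk, rfl⟩ := mem_image.1 hw
        obtain ⟨b1, b2, b3⟩ := m3 k hk
        refine hmem ((h : ℤ) - k) (-k) (by omega) _ ?_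
        rw [hf3]
        ring
  have hn1 : 1 ≤ n := by omega
  have hainj : Function.Injective a := by
    have h12 : (1 : ZMod n) ≠ ((z + 1 : ℕ) : ZMod n) := by
      intro heq
      have h1 : ((1 : ℤ) : ZMod n) = (((z + 1 : ℕ) : ℤ) : ZMod n) := by
        push_cast
        push_cast at heq
        exact heq
      rw [ZMod.intCast_eq_intCast_iff_dvd_sub] at h1
      have h2 : ((z + 1 : ℕ) : ℤ) - 1 = z := by push_cast; ring
      rw [h2] at h1
      have h3 := Int.le_of_dvd (by omega) h1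
      have h4 : 2 * h * (z + 1) ≥ 2 * 1 * (z + 1) := Nat.mul_le_mul_right _ (Nat.mul_le_mul_left _ hh)
      omega
    intro i j hij
    fin_cases i <;> fin_cases j
    · rfl
    · exact absurd hij h12
    · exact absurd hij.symm h12
    · rfl
  have h1 := card_image_sph_le (h := h) hn1 a hainj
  have h2 := card_le_card hsub
  rw [card_image_of_injOn hWinj, hWc, hVc] at h2
  have h3 : 4 * h ≤ nuPM n 2 h + 2 * (2 * h / (z + 1 + 1)) + 2 * (h / (z + 1 + 1)) := by omega
  calc (z + 1 + 1) * (4 * h) ≤ (z + 1 + 1) * (nuPM n 2 h + 2 * (2 * h / (z + 1 + 1)) +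
        2 * (h / (z + 1 + 1))) := Nat.mul_le_mul_left _ h3
    _ = (z + 1 + 1) * nuPM n 2 h + 2 * (2 * h / (z + 1 + 1) * (z + 1 + 1)) +
        2 * (h / (z + 1 + 1) * (z + 1 + 1)) := by ring
    _ ≤ (z + 1 + 1) * nuPM n 2 h + 2 * (2 * h) + 2 * h :=
        Nat.add_le_add (Nat.add_le_add_left (Nat.mul_le_mul_left _ (Nat.div_mul_le_self _ _)) _)
          (Nat.mul_le_mul_left _ (Nat.div_mul_le_self _ _))
    _ = _ := by ring

theorem cc_two {h : ℕ} (hh : 1 ≤ h) : cc h 2 = 4 * h := by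
  unfold cc
  obtain ⟨k, rfl⟩ : ∃ k, h = k + 1 := ⟨h - 1, by omega⟩
  have h1 : Icc 1 2 = ({1, 2} : Finset ℕ) := rfl
  rw [h1, sum_insert (by decide), sum_singleton]
  have e1 : Nat.choose 2 1 = 2 := rfl
  have e2 : Nat.choose 2 2 = 1 := rfl
  simp only [Nat.add_sub_cancel, e1, e2, Nat.sub_self, Nat.choose_zero_right,
    show 2 - 1 = 1 from rfl, Nat.choose_one_right]
  ring

theorem two {n h : ℕ} (hmn : 2 ≤ n) (hh : 1 ≤ h) :
    cc h 2 * n ≤ (n + 45 * cc h 2) * nuPM n 2 h := by
  have h1 := lower (n := n) (m := 2) (h := h) (by omega) hmn (by omega)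
  rcases le_total n (cc h 2) with hc | hc
  · rw [min_eq_left hc] at h1
    calc cc h 2 * n ≤ cc h 2 * (18 * nuPM n 2 h) := Nat.mul_le_mul_left _ h1
      _ = (18 * cc h 2) * nuPM n 2 h := by ring
      _ ≤ _ := Nat.mul_le_mul_right _ (by omega)
  rw [min_eq_right hc] at h1
  rcases hc.eq_or_lt with hc' | hc'
  · calc cc h 2 * n ≤ (18 * nuPM n 2 h) * n := Nat.mul_le_mul_right _ h1
      _ = (18 * n) * nuPM n 2 h := by ring
      _ ≤ _ := Nat.mul_le_mul_right _ (by omega)
  rw [cc_two hh] at hc' h1 ⊢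
  set y := (n - 1) / (2 * h) with hy
  have hy2 : 2 ≤ y := by
    rw [hy, Nat.le_div_iff_mul_le (by omega)]
    omega
  have d1 := Nat.div_add_mod (n - 1) (2 * h)
  have d2 := Nat.mod_lt (n - 1) (show 0 < 2 * h by omega)
  rw [← hy] at d1
  have h2 := two_aux (n := n) hh hy2 (by omega)
  set ν := nuPM n 2 h with hν
  have h3 : n ≤ 2 * h * (y + 1) := by
    have : 2 * h * (y + 1) = 2 * h * y + 2 * h := by ring
    omega
  have h4 : (y + 1) * (4 * h * n) ≤ (y + 1) * (n * ν + 12 * h ^ 2) := by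
    calc (y + 1) * (4 * h * n) = n * ((y + 1) * (4 * h)) := by ring
      _ ≤ n * ((y + 1) * ν + 6 * h) := Nat.mul_le_mul_left _ h2
      _ = (y + 1) * (n * ν) + 6 * h * n := by ring
      _ ≤ (y + 1) * (n * ν) + 6 * h * (2 * h * (y + 1)) := Nat.add_le_add_left (Nat.mul_le_mul_left _ h3) _
      _ = _ := by ring
  have h5 : 4 * h * n ≤ n * ν + 12 * h ^ 2 := Nat.le_of_mul_le_mul_left h4 (by omega)
  calc 4 * h * n ≤ n * ν + 12 * h ^ 2 := h5
    _ = n * ν + 3 * h * (4 * h) := by ring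
    _ ≤ n * ν + 3 * h * (18 * ν) := Nat.add_le_add_left (Nat.mul_le_mul_left _ h1) _
    _ = (n + 54 * h) * ν := by ring
    _ ≤ (n + 45 * (4 * h)) * ν := Nat.mul_le_mul_right _ (by omega)

/-- the lower bound for all `m ≥ 2` -/
theorem sharp' {n m h : ℕ} (hm : 2 ≤ m) (hmn : m ≤ n) (hh : 2 ≤ h) :
    cc h m * n ≤ (n + 45 * cc h m) * nuPM n m h := by
  rcases (by omega : m = 2 ∨ m = 3 ∨ 4 ≤ m) with rfl | rfl | hm
  · exact two hmn (by omega)
  · exact three hmn (by omega)
  · exact sharp hm hmn hh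

end Pool.Agent.SGN
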