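import Pool.Agent.SGN.Defs

/-!
# Signed sumsets: the overlap function of the l1-ball decreases in every coordinate
-/

set_option autoImplicit false

namespace Pool.Agent.SGN

open Finset

/-- the part of the norm outside the coordinate `i` -/
def pp {k : ℕ} (i : Fin k) (v : Fin k → ℤ) : ℕ := ∑ j ∈ univ.erase i, (v j).natAbs

theorem l1_eq {k : ℕ} (i : Fin k) (v : Fin k → ℤ) : l1 v = (v i).natAbs + pp i v :=
  (add_sum_erase univ _ (mem_univ i)).symm

theorem pp_congr {k : ℕ} {i : Fin k} {v w : Fin k → ℤ} (h : ∀ j, j ≠ i → v j = w j) :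
    pp i v = pp i w :=
  sum_congr rfl fun j hj => by rw [h j (ne_of_mem_erase hj)]

theorem rr_neg {k h : ℕ} (δ : Fin k → ℤ) : rr k h (-δ) = rr k h δ := by
  unfold rr
  refine card_bij (fun v _ => v + δ) ?_ ?_ ?_
  · intro v hv
    rw [mem_filter] at hv ⊢
    rw [sub_neg_eq_add] at hv
    rw [add_sub_cancel_right]
    exact ⟨hv.2, hv.1⟩
  · intro v _ w _ hvw
    exact add_right_cancel hvw
  · intro v hv
    rw [mem_filter] at hv
    refine ⟨v - δ, ?_, sub_add_cancel _ _⟩
    rw [mem_filter, sub_neg_eq_add, sub_add_cancel]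
    exact ⟨hv.2, hv.1⟩

theorem rr_step {k h : ℕ} (δ : Fin k → ℤ) (i : Fin k) (hi : 1 ≤ δ i) :
    rr k h δ ≤ rr k h (Function.update δ i (δ i - 1)) := by
  classical
  set δ' : Fin k → ℤ := Function.update δ i (δ i - 1) with hδ'
  have d1 : δ' i = δ i - 1 := by rw [hδ', Function.update_self]
  have d2 : ∀ j, j ≠ i → δ' j = δ j := fun j hj => by rw [hδ', Function.update_of_ne hj]
  -- the map
  set φ : (Fin k → ℤ) → (Fin k → ℤ) := fun v =>
    if (pp i v : ℤ) + δ i ≤ pp i (v - δ) then Function.update v i (v i - 1) else v with hφ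
  have e1 : ∀ v, (pp i v : ℤ) + δ i ≤ pp i (v - δ) → φ v = Function.update v i (v i - 1) :=
    fun v hv => if_pos hv
  have e2 : ∀ v, ¬ (pp i v : ℤ) + δ i ≤ pp i (v - δ) → φ v = v := fun v hv => if_neg hv
  have e3 : ∀ v, ∀ j, j ≠ i → φ v j = v j := by
    intro v j hj
    by_cases hc : (pp i v : ℤ) + δ i ≤ pp i (v - δ)
    · rw [e1 v hc, Function.update_of_ne hj]
    · rw [e2 v hc]
  unfold rr
  refine card_le_card_of_injOn φ ?_ ?_
  · intro v hv
    have hv' : v ∈ (ball k h).filter fun v => v - δ ∈ ball k h := hv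
    show _ ∈ (ball k h).filter fun v => v - δ' ∈ ball k h
    rw [mem_filter, mem_ball, mem_ball, l1_eq i v, l1_eq i (v - δ), Pi.sub_apply] at hv'
    rw [mem_filter, mem_ball, mem_ball, l1_eq i (φ v), l1_eq i (φ v - δ'), Pi.sub_apply,
      pp_congr (e3 v), pp_congr (v := φ v - δ') (w := v - δ) (fun j hj => by
        rw [Pi.sub_apply, Pi.sub_apply, e3 v j hj, d2 j hj]), d1]
    by_cases hc : (pp i v : ℤ) + δ i ≤ pp i (v - δ)
    · rw [e1 v hc, Function.update_self]
      omega
    · rw [e2 v hc]
      omega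
  · intro v _ w _ hvw
    have h1 : ∀ j, j ≠ i → v j = w j := fun j hj => by rw [← e3 v j hj, ← e3 w j hj, hvw]
    have h2 : pp i v = pp i w := pp_congr h1
    have h3 : pp i (v - δ) = pp i (w - δ) := pp_congr fun j hj => by
      rw [Pi.sub_apply, Pi.sub_apply, h1 j hj]
    have h4 : v i = w i := by
      have h5 : φ v i = φ w i := by rw [hvw]
      by_cases hc : (pp i v : ℤ) + δ i ≤ pp i (v - δ)
      · have hc' : (pp i w : ℤ) + δ i ≤ pp i (w - δ) := by rw [← h2, ← h3]; exact hc
        rw [e1 v hc, e1 w hc', Function.update_self, Function.update_self] at h5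
        omega
      · have hc' : ¬ (pp i w : ℤ) + δ i ≤ pp i (w - δ) := by rw [← h2, ← h3]; exact hc
        rw [e2 v hc, e2 w hc'] at h5
        exact h5
    funext j
    by_cases hj : j = i
    · rw [hj, h4]
    · exact h1 j hj

theorem rr_step' {k h : ℕ} (δ : Fin k → ℤ) (i : Fin k) (hi : δ i ≤ -1) :
    rr k h δ ≤ rr k h (Function.update δ i (δ i + 1)) := by
  have h1 := rr_step (h := h) (-δ) i (by rw [Pi.neg_apply]; omega)
  rw [rr_neg] at h1
  have h2 : Function.update (-δ) i ((-δ) i - 1) = -(Function.update δ i (δ i + 1)) := by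
    funext j
    by_cases hj : j = i
    · rw [hj, Function.update_self, Pi.neg_apply, Pi.neg_apply, Function.update_self]
      ring
    · rw [Function.update_of_ne hj, Pi.neg_apply, Pi.neg_apply, Function.update_of_ne hj]
  rw [h2, rr_neg] at h1
  exact h1

/-- `x` lies between `0` and `y` -/
def btw (x y : ℤ) : Prop := (0 ≤ x ∧ x ≤ y) ∨ (y ≤ x ∧ x ≤ 0)

theorem rr_mono {k h : ℕ} (δ δ' : Fin k → ℤ) (hb : ∀ i, btw (δ' i) (δ i)) :
    rr k h δ ≤ rr k h δ' := by
  obtain ⟨N, hN⟩ : ∃ N, l1 (δ - δ') = N := ⟨_, rfl⟩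
  induction N generalizing δ with
  | zero =>
    have h1 : δ = δ' := by
      funext i
      have := natAbs_le_l1 (δ - δ') i
      rw [hN, Pi.sub_apply] at this
      omega
    rw [h1]
  | succ N ih =>
    obtain ⟨i, hi⟩ : ∃ i, δ i ≠ δ' i := by
      by_contra hc
      push Not at hc
      have : δ = δ' := funext hc
      rw [this, sub_self, l1_zero] at hN
      omega
    rcases hb i with h1 | h1
    · refine (rr_step δ i (by omega)).trans (ih _ ?_ ?_)
      · intro j
        by_cases hj : j = i
        · rw [hj, Function.update_self]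
          left
          omega
        · rw [Function.update_of_ne hj]
          exact hb j
      · rw [l1_eq i] at hN ⊢
        rw [pp_congr (v := Function.update δ i (δ i - 1) - δ') (w := δ - δ') (fun j hj => by
          rw [Pi.sub_apply, Pi.sub_apply, Function.update_of_ne hj])]
        rw [Pi.sub_apply] at hN ⊢
        rw [Function.update_self]
        omega
    · refine (rr_step' δ i (by omega)).trans (ih _ ?_ ?_)
      · intro j
        by_cases hj : j = i
        · rw [hj, Function.update_self]
          right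
          omega
        · rw [Function.update_of_ne hj]
          exact hb j
      · rw [l1_eq i] at hN ⊢
        rw [pp_congr (v := Function.update δ i (δ i + 1) - δ') (w := δ - δ') (fun j hj => by
          rw [Pi.sub_apply, Pi.sub_apply, Function.update_of_ne hj])]
        rw [Pi.sub_apply] at hN ⊢
        rw [Function.update_self]
        omega

theorem rr_le {k h : ℕ} (δ : Fin k → ℤ) : rr k h δ ≤ (ball k h).card :=
  card_filter_le _ _

/-- differences of points of the ball lie in the ball of radius `2h` -/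
theorem rr_eq_zero {k h : ℕ} {δ : Fin k → ℤ} (hδ : δ ∉ ball k (2 * h)) : rr k h δ = 0 := by
  unfold rr
  rw [card_eq_zero, filter_eq_empty_iff]
  intro v hv hv2
  apply hδ
  rw [mem_ball] at *
  have := l1_sub_le v (v - δ)
  rw [sub_sub_cancel] at this
  omega

theorem sum_rr {k h : ℕ} : ∑ δ ∈ ball k (2 * h), rr k h δ = (ball k h).card ^ 2 := by
  have h1 := sum_pairs (ball k h) (fun _ => 1) (ball k (2 * h)) (fun v hv w hw => by
    rw [mem_ball] at *
    have := l1_sub_le v w
    omega)
  simp only [sum_const, card_product, smul_eq_mul, mul_one, one_mul] at h1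
  rw [sq, h1]
  rfl

end Pool.Agent.SGN
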