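import Pool.Agent.SGN.Two

/-!
# Signed sumsets: the weighted number of pairs of points of the l1-ball
-/

set_option autoImplicit false

namespace Pool.Agent.SGN

open Finset

theorem tele (E : ℕ) (X : ℕ → ℕ) (hX : ∀ c, 2 ≤ c → c ^ 3 * X c ≤ E) (N : ℕ) (hN : 1 ≤ N) :
    ((∑ c ∈ Icc 2 N, c * X c : ℕ) : ℝ) ≤ E * (1 - 1 / N) := by
  induction N, hN using Nat.le_induction with
  | base => simp
  | succ N hN ih =>
    have h1 : Icc 2 (N + 1) = insert (N + 1) (Icc 2 N) := by
      ext c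
      rw [mem_Icc, mem_insert, mem_Icc]
      omega
    rw [h1, sum_insert (by rw [mem_Icc]; omega)]
    push_cast at ih ⊢
    have hNpos : (0 : ℝ) < N := by exact_mod_cast hN
    have h2 : ((N : ℝ) + 1) ^ 3 * X (N + 1) ≤ E := by exact_mod_cast hX (N + 1) (by omega)
    have h3 : ((N : ℝ) + 1) * X (N + 1) ≤ E * (1 / (N * (N + 1))) := by
      have hE : (0 : ℝ) ≤ E := Nat.cast_nonneg _
      have h4 : ((N : ℝ) + 1) * X (N + 1) ≤ E / (N + 1) ^ 2 := by
        rw [le_div_iff₀ (by positivity)]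
        have h5 : ((N : ℝ) + 1) * X (N + 1) * ((N : ℝ) + 1) ^ 2 =
            ((N : ℝ) + 1) ^ 3 * X (N + 1) := by ring
        rw [h5]
        exact h2
      refine h4.trans ?_
      rw [div_eq_mul_one_div]
      refine mul_le_mul_of_nonneg_left ?_ hE
      apply one_div_le_one_div_of_le (by positivity)
      nlinarith
    have h5 : (E : ℝ) * (1 - 1 / (N + 1)) = E * (1 - 1 / N) + E * (1 / (N * (N + 1))) := by
      field_simp
      ring
    rw [h5]
    linarith

theorem tele' (E : ℕ) (X : ℕ → ℕ) (hX : ∀ c, 2 ≤ c → c ^ 3 * X c ≤ E) (N : ℕ) :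
    ∑ c ∈ Icc 2 N, c.totient * X c ≤ E := by
  have h0 : ∑ c ∈ Icc 2 N, c.totient * X c ≤ ∑ c ∈ Icc 2 N, c * X c :=
    sum_le_sum fun c _ => Nat.mul_le_mul_right _ (Nat.totient_le c)
  refine h0.trans ?_
  rcases Nat.eq_zero_or_pos N with h | h
  · rw [h]
    simp
  · have h1 := tele E X hX N h
    have h2 : (E : ℝ) * (1 - 1 / N) ≤ E := by
      have hE : (0 : ℝ) ≤ E := Nat.cast_nonneg _
      have h3 : (0 : ℝ) ≤ 1 / N := by positivity
      nlinarith
    exact_mod_cast h1.trans h2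

theorem cont_eq {k h : ℕ} {δ : Fin k → ℤ} (h0 : δ ≠ 0) (hb : δ ∈ ball k (2 * h)) :
    cont δ - 1 = ∑ c ∈ (Icc 2 (2 * h)).filter (fun c => c ∣ cont δ), c.totient := by
  have h1 : 0 < cont δ := cont_pos h0
  have h2 : cont δ ≤ 2 * h := by
    obtain ⟨i, hi⟩ : ∃ i, δ i ≠ 0 := by
      by_contra hc
      push Not at hc
      exact h0 (funext hc)
    refine (cont_le hi).trans ((natAbs_le_l1 δ i).trans (mem_ball.1 hb))
  have h3 : (cont δ).divisors = insert 1 ((Icc 2 (2 * h)).filter (fun c => c ∣ cont δ)) := by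
    ext c
    rw [Nat.mem_divisors, mem_insert, mem_filter, mem_Icc]
    constructor
    · rintro ⟨h4, h5⟩
      have h6 := Nat.le_of_dvd h1 h4
      have h7 : 0 < c := Nat.pos_of_dvd_of_pos h4 h1
      by_cases h8 : c = 1
      · exact Or.inl h8
      · exact Or.inr ⟨by omega, h4⟩
    · rintro (h4 | h4)
      · rw [h4]
        exact ⟨one_dvd _, by omega⟩
      · exact ⟨h4.2, by omega⟩
  have h4 := Nat.sum_totient (cont δ)
  rw [h3, sum_insert] at h4
  · rw [Nat.totient_one] at h4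
    omega
  · rw [mem_filter, mem_Icc]
    omega

theorem big_supp (k h : ℕ) :
    ∑ δ ∈ dl k h 1, (cont δ - 1) * rr k h δ ≤ (ball k h).card ^ 2 := by
  have h1 : ∑ δ ∈ dl k h 1, (cont δ - 1) * rr k h δ =
      ∑ c ∈ Icc 2 (2 * h), c.totient * ∑ δ ∈ dl k h c, rr k h δ := by
    have h2 : ∀ δ ∈ dl k h 1, (cont δ - 1) * rr k h δ =
        ∑ c ∈ Icc 2 (2 * h), if c ∣ cont δ then c.totient * rr k h δ else 0 := by
      intro δ hδ
      have h3 : δ ≠ 0 := by
        intro h4
        have h5 := (mem_filter.1 hδ).2.1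
        have h6 : supp δ = ∅ := by
          rw [eq_empty_iff_forall_notMem]
          intro i hi
          exact (mem_supp.1 hi) (by rw [h4]; rfl)
        rw [h6, card_empty] at h5
        omega
      rw [cont_eq h3 (mem_filter.1 hδ).1, sum_mul, sum_filter]
    rw [sum_congr rfl h2, sum_comm]
    refine sum_congr rfl fun c _ => ?_
    rw [← sum_filter, mul_sum]
    refine sum_congr ?_ fun _ _ => rfl
    ext δ
    unfold dl
    rw [mem_filter, mem_filter, mem_filter]
    constructor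
    · rintro ⟨⟨h3, h4, _⟩, h5⟩
      exact ⟨h3, h4, fun i => (Int.natCast_dvd_natCast.2 h5).trans (cont_dvd δ i)⟩
    · rintro ⟨h3, h4, h5⟩
      refine ⟨⟨h3, h4, fun i => by rw [Nat.cast_one]; exact one_dvd _⟩, ?_⟩
      exact dvd_gcd fun i _ => Int.natCast_dvd.1 (h5 i)
  rw [h1]
  exact tele' _ (fun c => ∑ δ ∈ dl k h c, rr k h δ) (fun c hc => box (by omega)) _

theorem total {k : ℕ} (hk : 3 ≤ k) (h : ℕ) :
    ∑ δ ∈ (ball k (2 * h)).erase 0, cont δ * rr k h δ ≤ 8 * (ball k h).card ^ 2 := by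
  have h1 : ∀ δ ∈ (ball k (2 * h)).erase 0, cont δ * rr k h δ =
      rr k h δ + (cont δ - 1) * rr k h δ := by
    intro δ hδ
    have h2 := cont_pos (ne_of_mem_erase hδ)
    obtain ⟨c, hc⟩ : ∃ c, cont δ = c + 1 := ⟨cont δ - 1, by omega⟩
    rw [hc, Nat.add_sub_cancel]
    ring
  rw [sum_congr rfl h1, sum_add_distrib]
  have h2 : ∑ δ ∈ (ball k (2 * h)).erase 0, rr k h δ ≤ (ball k h).card ^ 2 := by
    rw [← sum_rr]
    exact sum_le_sum_of_subset (erase_subset _ _)
  have h3 : ∑ δ ∈ (ball k (2 * h)).erase 0, (cont δ - 1) * rr k h δ ≤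
      (∑ δ ∈ (ball k (2 * h)).filter (fun δ => (supp δ).card = 1 ∨ (supp δ).card = 2),
        (cont δ - 1) * rr k h δ) + ∑ δ ∈ dl k h 1, (cont δ - 1) * rr k h δ := by
    rw [← sum_union]
    · refine sum_le_sum_of_subset ?_
      intro δ hδ
      rw [mem_erase] at hδ
      unfold dl
      rw [mem_union, mem_filter, mem_filter]
      have h4 : 1 ≤ (supp δ).card := by
        rw [Nat.one_le_iff_ne_zero, Ne, card_eq_zero]
        intro h5
        apply hδ.1
        funext i
        by_contra h6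
        have h7 : i ∈ supp δ := mem_supp.2 h6
        rw [h5] at h7
        exact notMem_empty _ h7
      by_cases h5 : 3 ≤ (supp δ).card
      · exact Or.inr ⟨hδ.2, h5, fun i => by rw [Nat.cast_one]; exact one_dvd _⟩
      · exact Or.inl ⟨hδ.2, by omega⟩
    · rw [disjoint_left]
      intro δ h4 h5
      unfold dl at h5
      rw [mem_filter] at h4 h5
      omega
  have h4 : ∑ δ ∈ (ball k (2 * h)).filter (fun δ => (supp δ).card = 1 ∨ (supp δ).card = 2),
      (cont δ - 1) * rr k h δ ≤ 6 * (ball k h).card ^ 2 := by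
    calc _ ≤ ∑ δ ∈ (ball k (2 * h)).filter (fun δ => (supp δ).card = 1 ∨ (supp δ).card = 2),
          (cont δ - 1) * (ball k h).card := sum_le_sum fun δ _ => Nat.mul_le_mul_left _ (rr_le δ)
      _ = (∑ δ ∈ (ball k (2 * h)).filter (fun δ => (supp δ).card = 1 ∨ (supp δ).card = 2),
          (cont δ - 1)) * (ball k h).card := by rw [sum_mul]
      _ ≤ (6 * (ball k h).card) * (ball k h).card := Nat.mul_le_mul_right _ (small_supp hk h)
      _ = _ := by ring
  have h5 := big_supp k h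
  omega

/-- the weighted number of pairs of different points of the ball -/
theorem total_pairs {k : ℕ} (hk : 3 ≤ k) (h : ℕ) :
    ∑ p ∈ (ball k h ×ˢ ball k h).filter (fun p => p.1 ≠ p.2), cont (p.1 - p.2) ≤
      8 * (ball k h).card ^ 2 := by
  refine le_trans (le_of_eq ?_) (total hk h)
  have h1 := sum_pairs (ball k h) (fun δ => if δ = 0 then 0 else cont δ) (ball k (2 * h))
    (fun v hv w hw => by
      rw [mem_ball] at *
      have := l1_sub_le v w
      omega)
  have h2 : ∑ p ∈ (ball k h ×ˢ ball k h).filter (fun p => p.1 ≠ p.2), cont (p.1 - p.2) =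
      ∑ p ∈ ball k h ×ˢ ball k h, (if p.1 - p.2 = 0 then 0 else cont (p.1 - p.2)) := by
    rw [sum_filter]
    refine sum_congr rfl fun p _ => ?_
    by_cases h3 : p.1 = p.2
    · rw [if_neg (not_not.2 h3), if_pos (sub_eq_zero.2 h3)]
    · rw [if_pos h3, if_neg (sub_ne_zero.2 h3)]
  rw [h2, h1]
  have h0 : (0 : Fin k → ℤ) ∈ ball k (2 * h) := by
    rw [mem_ball, l1_zero]
    exact Nat.zero_le _
  rw [← add_sum_erase _ _ h0, if_pos rfl, zero_mul, zero_add]
  refine sum_congr rfl fun δ hδ => ?_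
  rw [if_neg (ne_of_mem_erase hδ)]
  rfl

end Pool.Agent.SGN
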