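import Pool.Agent.SGN.Box
import Pool.Agent.SGN.Count

/-!
# Signed sumsets: differences with at most two nonzero coordinates
-/

set_option autoImplicit false

namespace Pool.Agent.SGN

open Finset

theorem cont_le {k : ℕ} {δ : Fin k → ℤ} {i : Fin k} (h : δ i ≠ 0) : cont δ ≤ (δ i).natAbs :=
  Nat.le_of_dvd (Int.natAbs_pos.2 h) (gcd_dvd (mem_univ i))

theorem sum_range_id_two (h : ℕ) : ∑ t ∈ range (2 * h), t = h + 4 * h.choose 2 := by
  rw [sum_range_id, ← Nat.choose_two_right]
  induction h with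
  | zero => simp
  | succ h ih =>
    have h1 : 2 * (h + 1) = 2 * h + 1 + 1 := by ring
    have h2 : (2 * h + 1 + 1).choose 2 = (2 * h + 1) + (2 * h + (2 * h).choose 2) := by
      rw [Nat.choose_succ_succ (2 * h + 1) 1, Nat.choose_succ_succ (2 * h) 1, Nat.choose_one_right,
        Nat.choose_one_right]
    have h3 : (h + 1).choose 2 = h + h.choose 2 := by
      rw [Nat.choose_succ_succ h 1, Nat.choose_one_right]
    rw [h1, h2, ih, h3]
    ring

theorem one_supp {k : ℕ} (h : ℕ) (i : Fin k) :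
    ∑ δ ∈ (ball k (2 * h)).filter (fun δ => supp δ = {i}), (cont δ - 1) ≤
      2 * (h + 4 * h.choose 2) := by
  have h1 : ∑ x ∈ Icc (-((2 * h : ℕ) : ℤ)) ((2 * h : ℕ) : ℤ), (x.natAbs - 1) =
      2 * (h + 4 * h.choose 2) := by
    rw [sum_natAbs (fun t => t - 1) (2 * h), ← sum_range_id_two]
    simp
  rw [← h1]
  have hinj : Set.InjOn (fun δ : Fin k → ℤ => δ i)
      ((ball k (2 * h)).filter (fun δ => supp δ = {i}) : Set (Fin k → ℤ)) := by
    intro δ hδ ε hε hde
    have h2 : supp δ = {i} := (mem_filter.1 (mem_coe.1 hδ)).2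
    have h3 : supp ε = {i} := (mem_filter.1 (mem_coe.1 hε)).2
    funext j
    by_cases hj : j = i
    · rw [hj]
      exact hde
    · have h4 : j ∉ supp δ := by rw [h2, mem_singleton]; exact hj
      have h5 : j ∉ supp ε := by rw [h3, mem_singleton]; exact hj
      rw [mem_supp, not_not] at h4 h5
      rw [h4, h5]
  calc ∑ δ ∈ (ball k (2 * h)).filter (fun δ => supp δ = {i}), (cont δ - 1)
      ≤ ∑ δ ∈ (ball k (2 * h)).filter (fun δ => supp δ = {i}), ((δ i).natAbs - 1) := by
        refine sum_le_sum fun δ hδ => ?_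
        have h2 : δ i ≠ 0 := mem_supp.1 (by rw [(mem_filter.1 hδ).2]; exact mem_singleton_self i)
        have := cont_le h2
        omega
    _ = ∑ x ∈ ((ball k (2 * h)).filter (fun δ => supp δ = {i})).image (fun δ => δ i),
          (x.natAbs - 1) := (sum_image (f := fun x : ℤ => x.natAbs - 1) hinj).symm
    _ ≤ _ := by
        refine sum_le_sum_of_subset ?_
        intro x hx
        rw [mem_image] at hx
        obtain ⟨δ, hδ, rfl⟩ := hx
        have h2 := mem_ball.1 (mem_filter.1 hδ).1
        have h3 := natAbs_le_l1 δ i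
        rw [mem_Icc]
        omega

/-- the triangular sum of minima -/
def MM (h : ℕ) : ℕ := ∑ s ∈ range (2 * h), ∑ t ∈ range (2 * h - 1 - s), min s t

theorem MM_succ (h : ℕ) : MM (h + 1) = MM h + (h + 4 * h.choose 2) := by
  unfold MM
  have h1 : 2 * (h + 1) = (2 * h + 1) + 1 := by ring
  rw [h1, sum_range_succ']
  have h2 : ∑ t ∈ range (2 * h + 1 + 1 - 1 - 0), min 0 t = 0 := by simp
  rw [h2, add_zero]
  have h3 : ∀ s ∈ range (2 * h + 1), ∑ t ∈ range (2 * h + 1 + 1 - 1 - (s + 1)), min (s + 1) t =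
      ∑ t ∈ range (2 * h - 1 - s), (min s t + 1) := by
    intro s hs
    rw [mem_range] at hs
    by_cases h4 : s < 2 * h
    · have h5 : 2 * h + 1 + 1 - 1 - (s + 1) = (2 * h - 1 - s) + 1 := by omega
      rw [h5, sum_range_succ']
      rw [Nat.min_zero, add_zero]
      refine sum_congr rfl fun t _ => ?_
      omega
    · have h5 : 2 * h + 1 + 1 - 1 - (s + 1) = 0 := by omega
      have h6 : 2 * h - 1 - s = 0 := by omega
      rw [h5, h6]
      simp
  rw [sum_congr rfl h3, sum_range_succ]
  have h4 : 2 * h - 1 - 2 * h = 0 := by omega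
  rw [h4, range_zero, sum_empty, add_zero]
  simp only [sum_add_distrib, sum_const, card_range, smul_eq_mul, mul_one]
  congr 1
  rw [← sum_range_id_two, ← sum_range_reflect (fun t => t) (2 * h)]

theorem MM_eq (h : ℕ) : MM h = h.choose 2 + 4 * h.choose 3 := by
  induction h with
  | zero => simp [MM]
  | succ h ih =>
    rw [MM_succ, ih, Nat.choose_succ_succ h 1, Nat.choose_succ_succ h 2]
    simp only [Nat.choose_one_right]
    ring

theorem two_sum (h : ℕ) : ∑ x ∈ Icc (-((2 * h : ℕ) : ℤ)) ((2 * h : ℕ) : ℤ),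
    ∑ y ∈ Icc (-((2 * h : ℕ) : ℤ)) ((2 * h : ℕ) : ℤ),
      (if x.natAbs + y.natAbs ≤ 2 * h then min x.natAbs y.natAbs - 1 else 0) = 4 * MM h := by
  rw [sum_natAbs (fun a => ∑ y ∈ Icc (-((2 * h : ℕ) : ℤ)) ((2 * h : ℕ) : ℤ),
      (if a + y.natAbs ≤ 2 * h then min a y.natAbs - 1 else 0)) (2 * h)]
  have h1 : ∑ y ∈ Icc (-((2 * h : ℕ) : ℤ)) ((2 * h : ℕ) : ℤ),
      (if 0 + y.natAbs ≤ 2 * h then min 0 y.natAbs - 1 else 0) = 0 := by
    refine sum_eq_zero fun y _ => ?_
    simp
  rw [h1, zero_add]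
  have h2 : ∀ s ∈ range (2 * h), ∑ y ∈ Icc (-((2 * h : ℕ) : ℤ)) ((2 * h : ℕ) : ℤ),
      (if (s + 1) + y.natAbs ≤ 2 * h then min (s + 1) y.natAbs - 1 else 0) =
      2 * ∑ t ∈ range (2 * h - 1 - s), min s t := by
    intro s hs
    rw [mem_range] at hs
    rw [sum_natAbs (fun b => if (s + 1) + b ≤ 2 * h then min (s + 1) b - 1 else 0) (2 * h)]
    have h3 : (if (s + 1) + 0 ≤ 2 * h then min (s + 1) 0 - 1 else 0) = 0 := by simp
    rw [h3, zero_add]
    congr 1
    have h4 : range (2 * h - 1 - s) = (range (2 * h)).filter fun t => (s + 1) + (t + 1) ≤ 2 * h := by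
      ext t
      rw [mem_filter, mem_range, mem_range]
      omega
    rw [h4, sum_filter]
    refine sum_congr rfl fun t _ => ?_
    by_cases h5 : (s + 1) + (t + 1) ≤ 2 * h
    · rw [if_pos h5, if_pos h5]
      omega
    · rw [if_neg h5, if_neg h5]
  rw [sum_congr rfl h2, ← mul_sum]
  unfold MM
  ring

theorem two_supp {k : ℕ} (h : ℕ) {i j : Fin k} (hij : i ≠ j) :
    ∑ δ ∈ (ball k (2 * h)).filter (fun δ => supp δ = {i, j}), (cont δ - 1) ≤ 4 * MM h := by
  rw [← two_sum, ← sum_product']
  have hinj : Set.InjOn (fun δ : Fin k → ℤ => (δ i, δ j))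
      ((ball k (2 * h)).filter (fun δ => supp δ = {i, j}) : Set (Fin k → ℤ)) := by
    intro δ hδ ε hε hde
    have h2 : supp δ = {i, j} := (mem_filter.1 (mem_coe.1 hδ)).2
    have h3 : supp ε = {i, j} := (mem_filter.1 (mem_coe.1 hε)).2
    have h6 : δ i = ε i := congrArg Prod.fst hde
    have h7 : δ j = ε j := congrArg Prod.snd hde
    funext l
    by_cases hl : l = i
    · rw [hl]
      exact h6
    by_cases hl2 : l = j
    · rw [hl2]
      exact h7
    · have h4 : l ∉ supp δ := by
        rw [h2, mem_insert, mem_singleton, not_or]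
        exact ⟨hl, hl2⟩
      have h5 : l ∉ supp ε := by
        rw [h3, mem_insert, mem_singleton, not_or]
        exact ⟨hl, hl2⟩
      rw [mem_supp, not_not] at h4 h5
      rw [h4, h5]
  have hsum : ∀ δ ∈ (ball k (2 * h)).filter (fun δ => supp δ = {i, j}),
      (δ i).natAbs + (δ j).natAbs ≤ 2 * h := by
    intro δ hδ
    have h2 := mem_ball.1 (mem_filter.1 hδ).1
    refine le_trans ?_ h2
    unfold l1
    rw [← sum_pair (f := fun i => (δ i).natAbs) hij]
    exact sum_le_sum_of_subset (subset_univ _)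
  calc ∑ δ ∈ (ball k (2 * h)).filter (fun δ => supp δ = {i, j}), (cont δ - 1)
      ≤ ∑ δ ∈ (ball k (2 * h)).filter (fun δ => supp δ = {i, j}),
          (if (δ i).natAbs + (δ j).natAbs ≤ 2 * h then min (δ i).natAbs (δ j).natAbs - 1 else 0) := by
        refine sum_le_sum fun δ hδ => ?_
        rw [if_pos (hsum δ hδ)]
        have h2 : δ i ≠ 0 := mem_supp.1 (by
          rw [(mem_filter.1 hδ).2]; exact mem_insert_self _ _)
        have h3 : δ j ≠ 0 := mem_supp.1 (by
          rw [(mem_filter.1 hδ).2]; exact mem_insert_of_mem (mem_singleton_self _))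
        have := cont_le h2
        have := cont_le h3
        omega
    _ = ∑ x ∈ ((ball k (2 * h)).filter (fun δ => supp δ = {i, j})).image (fun δ => (δ i, δ j)),
          (if x.1.natAbs + x.2.natAbs ≤ 2 * h then min x.1.natAbs x.2.natAbs - 1 else 0) :=
        (sum_image (f := fun x : ℤ × ℤ => if x.1.natAbs + x.2.natAbs ≤ 2 * h then
          min x.1.natAbs x.2.natAbs - 1 else 0) hinj).symm
    _ ≤ _ := by
        refine sum_le_sum_of_subset ?_
        intro x hx
        rw [mem_image] at hx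
        obtain ⟨δ, hδ, rfl⟩ := hx
        have h3 := hsum δ hδ
        rw [mem_product, mem_Icc, mem_Icc]
        simp only
        omega

theorem small_supp {k : ℕ} (hk : 3 ≤ k) (h : ℕ) :
    ∑ δ ∈ (ball k (2 * h)).filter (fun δ => (supp δ).card = 1 ∨ (supp δ).card = 2),
      (cont δ - 1) ≤ 6 * (ball k h).card := by
  classical
  rw [filter_or, sum_union]
  · have h1 : ∑ δ ∈ (ball k (2 * h)).filter (fun δ => (supp δ).card = 1), (cont δ - 1) ≤
        k * (2 * (h + 4 * h.choose 2)) := by
      rw [← sum_fiberwise_of_maps_to (t := powersetCard 1 (univ : Finset (Fin k))) (g := supp)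
        (fun δ hδ => mem_powersetCard.2 ⟨subset_univ _, (mem_filter.1 hδ).2⟩)]
      have h2 := sum_le_card_nsmul (powersetCard 1 (univ : Finset (Fin k)))
        (fun T => ∑ δ ∈ (ball k (2 * h)).filter (fun δ => (supp δ).card = 1) with supp δ = T,
          (cont δ - 1)) (2 * (h + 4 * h.choose 2)) ?_
      · rw [card_powersetCard, card_univ, Fintype.card_fin, Nat.choose_one_right, smul_eq_mul] at h2
        exact h2
      · intro T hT
        obtain ⟨i, rfl⟩ := card_eq_one.1 (mem_powersetCard.1 hT).2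
        refine le_trans (sum_le_sum_of_subset ?_) (one_supp h i)
        intro δ hδ
        rw [mem_filter, mem_filter] at hδ
        rw [mem_filter]
        exact ⟨hδ.1.1, hδ.2⟩
    have h2 : ∑ δ ∈ (ball k (2 * h)).filter (fun δ => (supp δ).card = 2), (cont δ - 1) ≤
        k.choose 2 * (4 * MM h) := by
      rw [← sum_fiberwise_of_maps_to (t := powersetCard 2 (univ : Finset (Fin k))) (g := supp)
        (fun δ hδ => mem_powersetCard.2 ⟨subset_univ _, (mem_filter.1 hδ).2⟩)]
      have h2 := sum_le_card_nsmul (powersetCard 2 (univ : Finset (Fin k)))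
        (fun T => ∑ δ ∈ (ball k (2 * h)).filter (fun δ => (supp δ).card = 2) with supp δ = T,
          (cont δ - 1)) (4 * MM h) ?_
      · rw [card_powersetCard, card_univ, Fintype.card_fin, smul_eq_mul] at h2
        exact h2
      · intro T hT
        obtain ⟨i, j, hij, rfl⟩ := card_eq_two.1 (mem_powersetCard.1 hT).2
        refine le_trans (sum_le_sum_of_subset ?_) (two_supp h hij)
        intro δ hδ
        rw [mem_filter, mem_filter] at hδ
        rw [mem_filter]
        exact ⟨hδ.1.1, hδ.2⟩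
    rw [MM_eq] at h2
    have h3 := card_ball_ge hk h
    have h4 : k ≤ k.choose 2 := by
      rw [Nat.choose_two_right, Nat.le_div_iff_mul_le (by norm_num)]
      exact Nat.mul_le_mul_left _ (by omega)
    have h5 : k.choose 2 ≤ 3 * k.choose 3 := by
      have h6 : k.choose 3 * 3 = k.choose 2 * (k - 2) := Nat.choose_succ_right_eq k 2
      have h7 : k.choose 2 * 1 ≤ k.choose 2 * (k - 2) := Nat.mul_le_mul_left _ (by omega)
      omega
    have h6 : k * h.choose 2 ≤ k.choose 2 * h.choose 2 := Nat.mul_le_mul_right _ h4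
    have h7 : k.choose 2 * h.choose 3 ≤ 3 * k.choose 3 * h.choose 3 := Nat.mul_le_mul_right _ h5
    nlinarith [h1, h2, h3, h6, h7]
  · rw [disjoint_left]
    intro δ h1 h2
    rw [mem_filter] at h1 h2
    omega

end Pool.Agent.SGN
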